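import Pool.Agent.U403.Orth

/-! # Blocks of a sequence with logarithmic fluctuations are not mixing -/

set_option autoImplicit false

open MeasureTheory Filter Topology Set

namespace Pool.Agent.U403.MX

open Pool.Agent.U403.OR

/-- sums of `r` consecutive terms -/
noncomputable def bs (d : ℕ → ℝ) (r n : ℕ) : ℝ := ∑ i ∈ Finset.range r, d (n + i)

/-- the covariances -/
noncomputable def qf {k : ℕ} (c : Fin k → ℝ) (r : ℕ) (b : Fin k → ℕ) : ℝ :=
  ∑ i, ∑ j, c i * c j * ((Real.log (b i) + Real.log (b j) - Real.log (|((b i : ℕ) : ℝ) - (b j : ℕ)|)) /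
    (2 * Real.log r))

/-- the joint central limit theorem -/
def Joint (d : ℕ → ℝ) : Prop := ∀ (c : Fin 3 → ℝ) (ε : ℝ), 0 < ε → ∀ᶠ r : ℕ in atTop, ∀ N : ℕ, 1 ≤ N →
    r * Real.log r ≤ Real.log N → ∀ b : Fin 3 → ℕ, (∀ i, 1 ≤ b i ∧ b i ≤ r) →
    ‖∑ n ∈ Finset.Icc 1 N, (Complex.exp (Complex.I *
      (((∑ i, c i * (bs d (b i) n - b i)) / (Real.sqrt (Real.log r) / Real.pi) : ℝ) : ℂ)) -
      (Real.exp (-(qf c r b / 2)) : ℂ))‖ ≤ ε * N

/-- the pair of normalised block sums -/
noncomputable def vv (d : ℕ → ℝ) (n k j : ℕ) : E2 :=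
  !₂[(bs d n j - n) / (Real.sqrt (Real.log (2 * n + k : ℕ)) / Real.pi),
    (bs d n (j + n + k) - n) / (Real.sqrt (Real.log (2 * n + k : ℕ)) / Real.pi)]

lemma bs_add (d : ℕ → ℝ) (a b j : ℕ) : bs d (a + b) j = bs d a j + bs d b (j + a) := by
  unfold bs
  rw [Finset.sum_range_add]
  congr 1
  apply Finset.sum_congr rfl
  intro i _
  rw [add_assoc]

lemma inner_vv (d : ℕ → ℝ) (n k j : ℕ) (t : E2) : inner ℝ (vv d n k j) t =
    (∑ i, (![t 0, -t 1, t 1] : Fin 3 → ℝ) i * (bs d ((![n, n + k, 2 * n + k] : Fin 3 → ℕ) i) j -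
      ((![n, n + k, 2 * n + k] : Fin 3 → ℕ) i : ℕ))) / (Real.sqrt (Real.log (2 * n + k : ℕ)) / Real.pi) := by
  have e1 : bs d (2 * n + k) j = bs d (n + k) j + bs d n (j + n + k) := by
    rw [show 2 * n + k = (n + k) + n by ring, bs_add, add_assoc]
  unfold vv
  rw [PiLp.inner_apply, Fin.sum_univ_two, Fin.sum_univ_three]
  simp only [Matrix.cons_val_zero, Matrix.cons_val_one, Matrix.cons_val]
  rw [e1]
  simp only [RCLike.inner_apply, conj_trivial]
  push_cast
  ring

/-- the quadratic form of two blocks -/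
lemma qf_two (n k : ℕ) (hn : 1 ≤ n) (t : E2) :
    qf (![t 0, -t 1, t 1] : Fin 3 → ℝ) (2 * n + k) (![n, n + k, 2 * n + k] : Fin 3 → ℕ) =
    Real.log n / Real.log (2 * n + k : ℕ) * (t 0 ^ 2 + t 1 ^ 2) +
      (Real.log (2 * n + k : ℕ) + Real.log k - 2 * Real.log (n + k : ℕ)) / Real.log (2 * n + k : ℕ) *
      (t 0 * t 1) := by
  have hL : (0 : ℝ) < Real.log (2 * n + k : ℕ) := by
    apply Real.log_pos
    have : 1 < 2 * n + k := by omega
    exact_mod_cast this
  unfold qf
  simp only [Fin.sum_univ_three, Matrix.cons_val_zero, Matrix.cons_val_one, Matrix.cons_val]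
  have a1 : |((n : ℕ) : ℝ) - (n + k : ℕ)| = k := by
    push_cast
    rw [show (n : ℝ) - (n + k) = -k by ring, abs_neg, Nat.abs_cast]
  have a2 : |((n + k : ℕ) : ℝ) - (n : ℕ)| = k := by rw [abs_sub_comm, a1]
  have a3 : |((n : ℕ) : ℝ) - (2 * n + k : ℕ)| = (n + k : ℕ) := by
    rw [abs_sub_comm]
    push_cast
    rw [show (2 * (n : ℝ) + k - n) = n + k by ring, abs_of_nonneg (by positivity)]
  have a4 : |((2 * n + k : ℕ) : ℝ) - (n : ℕ)| = (n + k : ℕ) := by rw [abs_sub_comm, a3]
  have a5 : |((n + k : ℕ) : ℝ) - (2 * n + k : ℕ)| = n := by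
    rw [abs_sub_comm]
    push_cast
    rw [show (2 * (n : ℝ) + k - (n + k)) = n by ring, abs_of_nonneg (by positivity)]
  have a6 : |((2 * n + k : ℕ) : ℝ) - (n + k : ℕ)| = n := by rw [abs_sub_comm, a5]
  rw [a1, a2, a3, a4, a5, a6, sub_self, sub_self, sub_self, abs_zero, Real.log_zero]
  field_simp
  ring

/-- the correlation of two blocks of length `n` at distance `k` -/
noncomputable def rho (n k : ℕ) : ℝ := -(max 0 (1 - Real.log k / Real.log n)) / 2

lemma rho_bd (n k : ℕ) (hn : 2 ≤ n) : -(1 / 2) ≤ rho n k ∧ rho n k ≤ 0 := by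
  unfold rho
  have h1 : 0 ≤ Real.log k := Real.log_natCast_nonneg k
  have h2 : 0 < Real.log n := Real.log_pos (by exact_mod_cast (by omega : 1 < n))
  have h3 : 0 ≤ Real.log k / Real.log n := by positivity
  have h4 : max 0 (1 - Real.log k / Real.log n) ≤ 1 := max_le zero_le_one (by linarith)
  have h5 := le_max_left 0 (1 - Real.log k / Real.log n)
  constructor <;> linarith

lemma rho_near (n k : ℕ) (hn : 2 ≤ n) :
    |(Real.log (2 * n + k : ℕ) + Real.log k - 2 * Real.log (n + k : ℕ)) - 2 * rho n k * Real.log n| ≤ 2 := by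
  have h2 : 0 < Real.log n := Real.log_pos (by exact_mod_cast (by omega : 1 < n))
  have hn0 : (0 : ℝ) < n := by exact_mod_cast (by omega : 0 < n)
  have h1 : 0 ≤ Real.log k := Real.log_natCast_nonneg k
  have hl2 := Real.log_two_lt_d9
  have hl3 : Real.log 3 ≤ 2 := by
    have := Real.log_le_sub_one_of_pos (show (0 : ℝ) < 3 by norm_num)
    linarith
  have e0 : 2 * rho n k * Real.log n = -(max 0 (Real.log n - Real.log k)) := by
    unfold rho
    have : max 0 (Real.log n - Real.log k) = max 0 (1 - Real.log k / Real.log n) * Real.log n := by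
      rw [max_mul_of_nonneg _ _ h2.le, zero_mul]
      congr 1
      field_simp
    rw [this]; ring
  rw [e0]
  obtain ⟨M, hM⟩ : ∃ M : ℕ, M = max n k := ⟨_, rfl⟩
  have hMn : n ≤ M := by rw [hM]; exact le_max_left _ _
  have hMk : k ≤ M := by rw [hM]; exact le_max_right _ _
  have hM0 : (0 : ℝ) < M := by
    have : 0 < M := by omega
    exact_mod_cast this
  have e1 : Real.log k + max 0 (Real.log n - Real.log k) = Real.log M := by
    rcases le_total k n with h | h
    · rw [hM, max_eq_left h]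
      rcases Nat.eq_zero_or_pos k with h0 | h0
      · rw [h0, Nat.cast_zero, Real.log_zero, sub_zero, max_eq_right h2.le, zero_add]
      · have : Real.log k ≤ Real.log n := Real.log_le_log (by exact_mod_cast h0) (by exact_mod_cast h)
        rw [max_eq_right (by linarith)]; ring
    · rw [hM, max_eq_right h]
      have : Real.log n ≤ Real.log k := Real.log_le_log hn0 (by exact_mod_cast h)
      rw [max_eq_left (by linarith), add_zero]
  have e2 : Real.log M ≤ Real.log (2 * n + k : ℕ) := by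
    apply Real.log_le_log hM0
    have : M ≤ 2 * n + k := by omega
    exact_mod_cast this
  have e3 : Real.log (2 * n + k : ℕ) ≤ Real.log 3 + Real.log M := by
    rw [← Real.log_mul (by norm_num) hM0.ne']
    apply Real.log_le_log
    · have : 0 < 2 * n + k := by omega
      exact_mod_cast this
    · have : 2 * n + k ≤ 3 * M := by omega
      exact_mod_cast this
  have e4 : Real.log M ≤ Real.log (n + k : ℕ) := by
    apply Real.log_le_log hM0
    have : M ≤ n + k := by omega
    exact_mod_cast this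
  have e5 : Real.log (n + k : ℕ) ≤ Real.log 2 + Real.log M := by
    rw [← Real.log_mul (by norm_num) hM0.ne']
    apply Real.log_le_log
    · have : 0 < n + k := by omega
      exact_mod_cast this
    · have : n + k ≤ 2 * M := by omega
      exact_mod_cast this
  rw [abs_le]
  constructor <;> linarith

/-- the empirical law -/
lemma emp (v : ℕ → E2) (N : ℕ) (hN : 1 ≤ N) : ∃ μ : ProbabilityMeasure E2,
    (∀ t : E2, charFun (μ : Measure E2) t =
      (∑ n ∈ Finset.Icc 1 N, Complex.exp (Complex.I * ((inner ℝ (v n) t : ℝ) : ℂ))) / N) ∧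
    ∀ S : Set E2, MeasurableSet S → (μ : Measure E2).real S =
      ({n : ℕ | 1 ≤ n ∧ n ≤ N ∧ v n ∈ S}.ncard : ℝ) / N := by
  classical
  have hN0 : (N : ENNReal) ≠ 0 := by
    have : N ≠ 0 := by omega
    exact_mod_cast this
  have hNt : (N : ENNReal) ≠ ⊤ := ENNReal.natCast_ne_top N
  obtain ⟨m, hm⟩ : ∃ m : Measure E2, m = (N : ENNReal)⁻¹ • ∑ n ∈ Finset.Icc 1 N, Measure.dirac (v n) :=
    ⟨_, rfl⟩
  have hS : ∀ S : Set E2, MeasurableSet S → m S =
      (N : ENNReal)⁻¹ * (({n : ℕ | 1 ≤ n ∧ n ≤ N ∧ v n ∈ S}.ncard : ℕ) : ENNReal) := by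
    intro S hS
    rw [hm, Measure.smul_apply, Measure.finsetSum_apply, smul_eq_mul]
    congr 1
    have e1 : ∀ n ∈ Finset.Icc 1 N, Measure.dirac (v n) S = if v n ∈ S then (1 : ENNReal) else 0 := by
      intro n _
      rw [Measure.dirac_apply' _ hS, indicator_apply]
      rfl
    rw [Finset.sum_congr rfl e1, Finset.sum_ite, Finset.sum_const_zero, add_zero, Finset.sum_const,
      nsmul_eq_mul, mul_one]
    congr 1
    rw [← Set.ncard_coe_finset]
    congr 1
    ext n
    simp [and_assoc]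
  have hp : IsProbabilityMeasure m := by
    constructor
    rw [hS _ MeasurableSet.univ]
    have : {n : ℕ | 1 ≤ n ∧ n ≤ N ∧ v n ∈ (univ : Set E2)} = (Finset.Icc 1 N : Set ℕ) := by
      ext n; simp
    rw [this, Set.ncard_coe_finset, Nat.card_Icc, Nat.add_sub_cancel]
    exact ENNReal.inv_mul_cancel hN0 hNt
  refine ⟨⟨m, hp⟩, ?_, ?_⟩
  · intro t
    change charFun m t = _
    rw [charFun_apply, hm, integral_smul_measure, integral_finsetSum_measure (by
      intro n _
      exact integrable_dirac (by simp))]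
    rw [ENNReal.toReal_inv, ENNReal.toReal_natCast]
    have e1 : ∀ n ∈ Finset.Icc 1 N, ∫ x : E2, Complex.exp (((inner ℝ x t : ℝ) : ℂ) * Complex.I)
        ∂(Measure.dirac (v n)) = Complex.exp (Complex.I * ((inner ℝ (v n) t : ℝ) : ℂ)) := by
      intro n _
      rw [integral_dirac, mul_comm]
    rw [Finset.sum_congr rfl e1, Complex.real_smul]
    push_cast
    rw [div_eq_inv_mul]
  · intro S hSm
    change m.real S = _
    rw [Measure.real, hS S hSm, ENNReal.toReal_mul, ENNReal.toReal_inv, ENNReal.toReal_natCast,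
      ENNReal.toReal_natCast, div_eq_inv_mul]

/-- convergence of the quadratic forms gives convergence of the orthant probabilities -/
lemma seq_lim (μ : ℕ → ProbabilityMeasure E2) (n k : ℕ → ℕ) (hn : ∀ i, 2 ≤ n i)
    (hnt : Tendsto n atTop atTop)
    (lam ρ : ℝ) (hlam : 0 < lam)
    (h1 : Tendsto (fun i => Real.log (n i) / Real.log (2 * n i + k i : ℕ)) atTop (𝓝 lam))
    (h2 : Tendsto (fun i => rho (n i) (k i)) atTop (𝓝 ρ))
    (hμ : ∀ (t : E2) (ε : ℝ), 0 < ε → ∀ᶠ i in atTop, ‖charFun (μ i : Measure E2) t -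
      (Real.exp (-(qf (![t 0, -t 1, t 1] : Fin 3 → ℝ) (2 * n i + k i)
        (![n i, n i + k i, 2 * n i + k i] : Fin 3 → ℕ) / 2)) : ℂ)‖ ≤ ε) :
    Tendsto (fun i => (μ i : Measure E2).real {x : E2 | 0 < x 0 ∧ 0 < x 1}) atTop
      (𝓝 (1 / 4 + Real.arcsin ρ / (2 * Real.pi))) ∧
    Tendsto (fun i => (μ i : Measure E2).real {x : E2 | 0 < x 0}) atTop (𝓝 (1 / 2)) ∧
    Tendsto (fun i => (μ i : Measure E2).real {x : E2 | 0 < x 1}) atTop (𝓝 (1 / 2)) := by
  have hρ1 : -(1 / 2) ≤ ρ := ge_of_tendsto' h2 fun i => (rho_bd _ _ (hn i)).1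
  have hρ2 : ρ ≤ 0 := le_of_tendsto' h2 fun i => (rho_bd _ _ (hn i)).2
  refine lim μ (Real.sqrt lam) ρ (Real.sqrt_pos.2 hlam) (by linarith) (by linarith) fun t => ?_
  rw [Real.sq_sqrt hlam.le]
  have hlog : Tendsto (fun i => Real.log (n i)) atTop atTop :=
    Real.tendsto_log_atTop.comp (tendsto_natCast_atTop_atTop.comp hnt)
  -- the mixed coefficient
  have hw : Tendsto (fun i => (Real.log (2 * n i + k i : ℕ) + Real.log (k i) -
      2 * Real.log (n i + k i : ℕ)) / Real.log (2 * n i + k i : ℕ)) atTop (𝓝 (2 * ρ * lam)) := by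
    have e1 : Tendsto (fun i => 2 * rho (n i) (k i) *
        (Real.log (n i) / Real.log (2 * n i + k i : ℕ))) atTop (𝓝 (2 * ρ * lam)) :=
      (h2.const_mul 2).mul h1
    have e2 : Tendsto (fun i => 2 / Real.log (n i)) atTop (𝓝 0) := tendsto_const_nhds.div_atTop hlog
    have e3 : Tendsto (fun i => (Real.log (2 * n i + k i : ℕ) + Real.log (k i) -
      2 * Real.log (n i + k i : ℕ)) / Real.log (2 * n i + k i : ℕ) - 2 * rho (n i) (k i) *
        (Real.log (n i) / Real.log (2 * n i + k i : ℕ))) atTop (𝓝 0) := by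
      refine squeeze_zero_norm (fun i => ?_) e2
      have a1 := rho_near (n i) (k i) (hn i)
      have hn1 : (1 : ℝ) < n i := by exact_mod_cast (by have := hn i; omega : 1 < n i)
      have a2 : 0 < Real.log (n i) := Real.log_pos hn1
      have a3 : Real.log (n i) ≤ Real.log (2 * n i + k i : ℕ) := by
        apply Real.log_le_log (by linarith)
        have : n i ≤ 2 * n i + k i := by omega
        exact_mod_cast this
      have a4 : 0 < Real.log (2 * n i + k i : ℕ) := by linarith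
      have a5 : (Real.log (2 * n i + k i : ℕ) + Real.log (k i) -
          2 * Real.log (n i + k i : ℕ)) / Real.log (2 * n i + k i : ℕ) - 2 * rho (n i) (k i) *
          (Real.log (n i) / Real.log (2 * n i + k i : ℕ)) = ((Real.log (2 * n i + k i : ℕ) +
          Real.log (k i) - 2 * Real.log (n i + k i : ℕ)) - 2 * rho (n i) (k i) * Real.log (n i)) /
          Real.log (2 * n i + k i : ℕ) := by ring
      rw [a5, Real.norm_eq_abs, abs_div, abs_of_pos a4]
      exact (div_le_div_of_nonneg_right a1 a4.le).trans (div_le_div_of_nonneg_left (by norm_num) a2 a3)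
    have e4 := e3.add e1
    simpa using e4
  have hq : Tendsto (fun i => qf (![t 0, -t 1, t 1] : Fin 3 → ℝ) (2 * n i + k i)
        (![n i, n i + k i, 2 * n i + k i] : Fin 3 → ℕ)) atTop
      (𝓝 (lam * (t 0 ^ 2 + t 1 ^ 2) + 2 * ρ * lam * (t 0 * t 1))) := by
    refine ((h1.mul_const (t 0 ^ 2 + t 1 ^ 2)).add (hw.mul_const (t 0 * t 1))).congr fun i => ?_
    rw [qf_two _ _ (by have := hn i; omega)]
  have hq2 : Tendsto (fun i => (Real.exp (-(qf (![t 0, -t 1, t 1] : Fin 3 → ℝ) (2 * n i + k i)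
        (![n i, n i + k i, 2 * n i + k i] : Fin 3 → ℕ) / 2)) : ℂ)) atTop
      (𝓝 (Real.exp (-(lam * ((t 0) ^ 2 + (t 1) ^ 2 + 2 * ρ * (t 0 * t 1))) / 2) : ℂ)) := by
    have hc : Continuous fun x : ℝ => (Real.exp (-(x / 2)) : ℂ) := by fun_prop
    have := (hc.tendsto _).comp hq
    have e : -((lam * (t 0 ^ 2 + t 1 ^ 2) + 2 * ρ * lam * (t 0 * t 1)) / 2) =
        -(lam * ((t 0) ^ 2 + (t 1) ^ 2 + 2 * ρ * (t 0 * t 1))) / 2 := by ring
    rw [e] at this
    exact this
  have hd : Tendsto (fun i => charFun (μ i : Measure E2) t -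
      (Real.exp (-(qf (![t 0, -t 1, t 1] : Fin 3 → ℝ) (2 * n i + k i)
        (![n i, n i + k i, 2 * n i + k i] : Fin 3 → ℕ) / 2)) : ℂ)) atTop (𝓝 0) := by
    rw [Metric.tendsto_atTop]
    intro ε hε
    obtain ⟨i0, hi0⟩ := eventually_atTop.1 (hμ t (ε / 2) (by positivity))
    refine ⟨i0, fun i hi => ?_⟩
    rw [dist_zero_right]
    linarith [hi0 i hi]
  have := hd.add hq2
  simpa using this

/-- the number of `j ≤ N` with a property -/
noncomputable def fr (N : ℕ) (P : ℕ → Prop) : ℝ := ({j : ℕ | 1 ≤ j ∧ j ≤ N ∧ P j}.ncard : ℝ) / N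

/-- **the law of two blocks** -/
theorem blocks {d : ℕ → ℝ} (hd : Joint d) (A ε : ℝ) (hA : 0 < A) (hε : 0 < ε) :
    ∀ᶠ n : ℕ in atTop, ∀ k : ℕ, (k : ℝ) ≤ (n : ℝ) ^ A → ∀ N : ℕ, 1 ≤ N →
      (2 * n + k : ℕ) * Real.log (2 * n + k : ℕ) ≤ Real.log N →
      |fr N (fun j => n < bs d n j ∧ n < bs d n (j + n + k)) -
        (1 / 4 + Real.arcsin (rho n k) / (2 * Real.pi))| ≤ ε ∧
      |fr N (fun j => n < bs d n j) - 1 / 2| ≤ ε ∧
      |fr N (fun j => n < bs d n (j + n + k)) - 1 / 2| ≤ ε := by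
  by_contra hcon
  rw [not_eventually] at hcon
  have hex : ∀ i : ℕ, ∃ n : ℕ, i + 2 ≤ n ∧ ∃ k N : ℕ, (k : ℝ) ≤ (n : ℝ) ^ A ∧ 1 ≤ N ∧
      (2 * n + k : ℕ) * Real.log (2 * n + k : ℕ) ≤ Real.log N ∧
      ¬ (|fr N (fun j => n < bs d n j ∧ n < bs d n (j + n + k)) -
        (1 / 4 + Real.arcsin (rho n k) / (2 * Real.pi))| ≤ ε ∧
      |fr N (fun j => n < bs d n j) - 1 / 2| ≤ ε ∧
      |fr N (fun j => n < bs d n (j + n + k)) - 1 / 2| ≤ ε) := by
    intro i
    obtain ⟨n, hn, h⟩ := (frequently_atTop.1 hcon) (i + 2)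
    push Not at h
    obtain ⟨k, hk, N, hN, h3, h4⟩ := h
    refine ⟨n, hn, k, N, hk, hN, h3, ?_⟩
    rintro ⟨g1, g2, g3⟩
    exact absurd (h4 g1 g2) (not_lt.2 g3)
  choose n hn k N hk hN hNr hbad using hex
  have hnt : Tendsto n atTop atTop := tendsto_atTop_mono (fun i => (by have := hn i; omega : i ≤ n i)) tendsto_id
  have hn2 : ∀ i, 2 ≤ n i := fun i => by have := hn i; omega
  -- compactness
  obtain ⟨L, hL⟩ : ∃ L : ℕ → ℝ, L = fun i => Real.log (n i) / Real.log (2 * n i + k i : ℕ) := ⟨_, rfl⟩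
  have hLb : ∀ i, L i ∈ Icc (1 / (A + 4)) 1 := by
    intro i
    have hn1 : (1 : ℝ) < n i := by exact_mod_cast (by have := hn2 i; omega : 1 < n i)
    have a2 : 0 < Real.log (n i) := Real.log_pos hn1
    have a3 : Real.log (n i) ≤ Real.log (2 * n i + k i : ℕ) := by
      apply Real.log_le_log (by linarith)
      have : n i ≤ 2 * n i + k i := by omega
      exact_mod_cast this
    have a4 : 0 < Real.log (2 * n i + k i : ℕ) := by linarith
    have a5 : Real.log (2 * n i + k i : ℕ) ≤ (A + 4) * Real.log (n i) := by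
      have b0 : (2 : ℝ) ≤ n i := by exact_mod_cast hn2 i
      have b1 : ((2 * n i + k i : ℕ) : ℝ) ≤ (n i : ℝ) ^ (A + 4) := by
        push_cast
        have c1 : (n i : ℝ) ^ (A + 4) = (n i : ℝ) ^ A * (n i : ℝ) ^ 4 := by
          rw [Real.rpow_add (by linarith)]
          congr 1
          exact_mod_cast Real.rpow_natCast (n i : ℝ) 4
        have c2 : 1 ≤ (n i : ℝ) ^ A := Real.one_le_rpow hn1.le hA.le
        have c3 : (8 : ℝ) * n i ≤ (n i : ℝ) ^ 4 := by
          have : (n i : ℝ) ^ 4 = (n i : ℝ) ^ 3 * n i := by ring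
          rw [this]
          have : (8 : ℝ) ≤ (n i : ℝ) ^ 3 := by
            calc (8 : ℝ) = 2 ^ 3 := by norm_num
              _ ≤ _ := pow_le_pow_left₀ (by norm_num) b0 3
          nlinarith
        rw [c1]
        have c4 : (n i : ℝ) ^ A * (8 * n i) ≤ (n i : ℝ) ^ A * (n i : ℝ) ^ 4 :=
          mul_le_mul_of_nonneg_left c3 (by linarith)
        have c5 := hk i
        nlinarith
      have b2 : (0 : ℝ) < (2 * n i + k i : ℕ) := by
        have : 0 < 2 * n i + k i := by have := hn2 i; omega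
        exact_mod_cast this
      have b3 := Real.log_le_log b2 b1
      rwa [Real.log_rpow (by linarith)] at b3
    rw [hL]
    refine ⟨?_, ?_⟩
    · rw [le_div_iff₀ a4, div_mul_eq_mul_div, one_mul, div_le_iff₀ (by linarith)]
      linarith
    · rw [div_le_one a4]
      exact a3
  have hc : IsCompact (Icc (1 / (A + 4)) (1 : ℝ) ×ˢ Icc (-(1 / 2) : ℝ) 0) := isCompact_Icc.prod isCompact_Icc
  obtain ⟨p, hp, φ, hφ, hlim⟩ := hc.tendsto_subseq (x := fun i => (L i, rho (n i) (k i)))
    (fun i => ⟨hLb i, rho_bd _ _ (hn2 i)⟩)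
  have hp1 : Tendsto (fun i => L (φ i)) atTop (𝓝 p.1) := (continuous_fst.tendsto p).comp hlim
  have hp2 : Tendsto (fun i => rho (n (φ i)) (k (φ i))) atTop (𝓝 p.2) := (continuous_snd.tendsto p).comp hlim
  have hlam : 0 < p.1 := by
    have := hp.1.1
    have : 0 < 1 / (A + 4) := by positivity
    linarith
  -- the measures
  choose μ hμ1 hμ2 using fun i => emp (vv d (n i) (k i)) (N i) (hN i)
  have hrt : Tendsto (fun i => 2 * n (φ i) + k (φ i)) atTop atTop :=
    tendsto_atTop_mono (fun i => (by omega : n (φ i) ≤ 2 * n (φ i) + k (φ i))) (hnt.comp hφ.tendsto_atTop)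
  have key := seq_lim (fun i => μ (φ i)) (fun i => n (φ i)) (fun i => k (φ i)) (fun i => hn2 _)
    (hnt.comp hφ.tendsto_atTop) p.1 p.2 hlam (by rw [hL] at hp1; exact hp1) hp2 (by
      intro t ε' hε'
      filter_upwards [hrt.eventually (hd (![t 0, -t 1, t 1] : Fin 3 → ℝ) ε' hε')] with i hi
      have h3 := hi (N (φ i)) (hN _) (hNr _) (![n (φ i), n (φ i) + k (φ i), 2 * n (φ i) + k (φ i)] : Fin 3 → ℕ) (by
        intro l
        have h5 := hn2 (φ i)
        fin_cases l
        · change 1 ≤ n (φ i) ∧ n (φ i) ≤ 2 * n (φ i) + k (φ i)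
          omega
        · change 1 ≤ n (φ i) + k (φ i) ∧ n (φ i) + k (φ i) ≤ 2 * n (φ i) + k (φ i)
          omega
        · change 1 ≤ 2 * n (φ i) + k (φ i) ∧ 2 * n (φ i) + k (φ i) ≤ 2 * n (φ i) + k (φ i)
          omega)
      rw [hμ1 (φ i) t]
      have hN0 : (0 : ℝ) < N (φ i) := by exact_mod_cast hN (φ i)
      have hNc : ((N (φ i) : ℕ) : ℂ) ≠ 0 := by exact_mod_cast hN0.ne'
      have e1 : ∑ j ∈ Finset.Icc 1 (N (φ i)), Complex.exp (Complex.I *
          ((inner ℝ (vv d (n (φ i)) (k (φ i)) j) t : ℝ) : ℂ)) = ∑ j ∈ Finset.Icc 1 (N (φ i)),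
          Complex.exp (Complex.I * (((∑ l, (![t 0, -t 1, t 1] : Fin 3 → ℝ) l *
            (bs d ((![n (φ i), n (φ i) + k (φ i), 2 * n (φ i) + k (φ i)] : Fin 3 → ℕ) l) j -
            ((![n (φ i), n (φ i) + k (φ i), 2 * n (φ i) + k (φ i)] : Fin 3 → ℕ) l : ℕ))) /
            (Real.sqrt (Real.log (2 * n (φ i) + k (φ i) : ℕ)) / Real.pi) : ℝ) : ℂ)) := by
        apply Finset.sum_congr rfl
        intro j _
        rw [inner_vv]
      rw [Finset.sum_sub_distrib, Finset.sum_const, Nat.card_Icc, Nat.add_sub_cancel, nsmul_eq_mul] at h3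
      rw [e1]
      have e2 : ∀ a b : ℂ, a / (N (φ i) : ℂ) - b = (a - (N (φ i) : ℂ) * b) / (N (φ i) : ℂ) := by
        intro a b
        field_simp
      rw [e2, norm_div, Complex.norm_natCast, div_le_iff₀ hN0]
      exact h3)
  obtain ⟨k1, k2, k3⟩ := key
  -- the frequencies
  have hfr : ∀ i, (μ i : Measure E2).real {x : E2 | 0 < x 0 ∧ 0 < x 1} =
      fr (N i) (fun j => n i < bs d (n i) j ∧ n i < bs d (n i) (j + n i + k i)) ∧
      (μ i : Measure E2).real {x : E2 | 0 < x 0} = fr (N i) (fun j => n i < bs d (n i) j) ∧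
      (μ i : Measure E2).real {x : E2 | 0 < x 1} = fr (N i) (fun j => n i < bs d (n i) (j + n i + k i)) := by
    intro i
    have hm0 : MeasurableSet {x : E2 | 0 < x 0} := measurableSet_lt measurable_const (by fun_prop)
    have hm1 : MeasurableSet {x : E2 | 0 < x 1} := measurableSet_lt measurable_const (by fun_prop)
    have hm2 : MeasurableSet {x : E2 | 0 < x 0 ∧ 0 < x 1} := hm0.inter hm1
    have hpos : 0 < Real.sqrt (Real.log (2 * n i + k i : ℕ)) / Real.pi := by
      apply div_pos (Real.sqrt_pos.2 (Real.log_pos _)) Real.pi_pos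
      have : 1 < 2 * n i + k i := by have := hn2 i; omega
      exact_mod_cast this
    have e0 : ∀ j, (0 < vv d (n i) (k i) j 0 ↔ (n i : ℝ) < bs d (n i) j) := by
      intro j
      change 0 < (bs d (n i) j - n i) / (Real.sqrt (Real.log (2 * n i + k i : ℕ)) / Real.pi) ↔ _
      rw [div_pos_iff_of_pos_right hpos, sub_pos]
    have e1 : ∀ j, (0 < vv d (n i) (k i) j 1 ↔ (n i : ℝ) < bs d (n i) (j + n i + k i)) := by
      intro j
      change 0 < (bs d (n i) (j + n i + k i) - n i) / (Real.sqrt (Real.log (2 * n i + k i : ℕ)) / Real.pi) ↔ _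
      rw [div_pos_iff_of_pos_right hpos, sub_pos]
    refine ⟨?_, ?_, ?_⟩
    · rw [hμ2 i _ hm2]
      unfold fr
      congr 3
      ext j
      simp only [mem_ofPred_eq]
      rw [e0, e1]
    · rw [hμ2 i _ hm0]
      unfold fr
      congr 3
      ext j
      simp only [mem_ofPred_eq]
      rw [e0]
    · rw [hμ2 i _ hm1]
      unfold fr
      congr 3
      ext j
      simp only [mem_ofPred_eq]
      rw [e1]
  have harc : Tendsto (fun i => 1 / 4 + Real.arcsin (rho (n (φ i)) (k (φ i))) / (2 * Real.pi)) atTop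
      (𝓝 (1 / 4 + Real.arcsin p.2 / (2 * Real.pi))) :=
    (((Real.continuous_arcsin.tendsto _).comp hp2).div_const _).const_add _
  have k1' := k1.sub harc
  rw [sub_self] at k1'
  have f1 : ∀ᶠ i in atTop, |fr (N (φ i)) (fun j => n (φ i) < bs d (n (φ i)) j ∧
      n (φ i) < bs d (n (φ i)) (j + n (φ i) + k (φ i))) -
      (1 / 4 + Real.arcsin (rho (n (φ i)) (k (φ i))) / (2 * Real.pi))| ≤ ε := by
    filter_upwards [(Metric.tendsto_nhds.1 k1') ε hε] with i hi
    rw [dist_zero_right, Real.norm_eq_abs, (hfr (φ i)).1] at hi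
    exact hi.le
  have f2 : ∀ᶠ i in atTop, |fr (N (φ i)) (fun j => n (φ i) < bs d (n (φ i)) j) - 1 / 2| ≤ ε := by
    filter_upwards [(Metric.tendsto_nhds.1 k2) ε hε] with i hi
    rw [Real.dist_eq, (hfr (φ i)).2.1] at hi
    exact hi.le
  have f3 : ∀ᶠ i in atTop, |fr (N (φ i)) (fun j => n (φ i) < bs d (n (φ i)) (j + n (φ i) + k (φ i))) -
      1 / 2| ≤ ε := by
    filter_upwards [(Metric.tendsto_nhds.1 k3) ε hε] with i hi
    rw [Real.dist_eq, (hfr (φ i)).2.2] at hi
    exact hi.le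
  obtain ⟨i, g1, g2, g3⟩ := (f1.and (f2.and f3)).exists
  exact hbad (φ i) ⟨g1, g2, g3⟩

lemma bs_congr {d d' : ℕ → ℝ} {n j j' : ℕ} (h : ∀ i, i < n → d (j + i) = d' (j' + i)) :
    bs d n j = bs d' n j' := by
  unfold bs
  exact Finset.sum_congr rfl fun i hi => h i (Finset.mem_range.1 hi)

lemma vv_congr {d d' : ℕ → ℝ} {n k j j' : ℕ} (h : ∀ i, i < 2 * n + k → d (j + i) = d' (j' + i)) :
    vv d n k j = vv d' n k j' := by
  unfold vv
  rw [bs_congr (d := d) (d' := d') (n := n) (j := j) (j' := j') (fun i hi => h i (by omega)),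
    bs_congr (d := d) (d' := d') (n := n) (j := j + n + k) (j' := j' + n + k) (fun i hi => by
      have := h (n + k + i) (by omega)
      rw [show j + n + k + i = j + (n + k + i) by ring, show j' + n + k + i = j' + (n + k + i) by ring]
      exact this)]

/-- extension by zero -/
noncomputable def ex {m : ℕ} (x : Fin m → ℝ) (i : ℕ) : ℝ := if h : i < m then x ⟨i, h⟩ else 0

lemma ex_cont {m : ℕ} (i : ℕ) : Continuous fun x : Fin m → ℝ => ex x i := by
  unfold ex
  by_cases h : i < m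
  · simp only [h, dif_pos]
    exact continuous_apply _
  · simp only [h, dif_neg, not_false_iff]
    exact continuous_const

lemma ex_of {m : ℕ} (f : ℕ → ℝ) {i : ℕ} (h : i < m) : ex (fun l : Fin m => f l) i = f i := by
  unfold ex
  rw [dif_pos h]

lemma inner_cont {m : ℕ} (n k : ℕ) (t : E2) :
    Continuous fun x : Fin m → ℝ => (inner ℝ (vv (ex x) n k 0) t : ℝ) := by
  simp_rw [inner_vv]
  unfold bs
  have := fun i => ex_cont (m := m) i
  fun_prop

/-- **limit processes** -/
theorem process {Ω : Type*} [MeasurableSpace Ω] (P : Measure Ω) [IsProbabilityMeasure P]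
    (X : ℕ → Ω → ℝ) (hX : ∀ i, Measurable (X i)) {d : ℕ → ℝ} (hd : Joint d)
    (N : ℕ → ℕ) (hN : Tendsto N atTop atTop)
    (hlim : ∀ (m : ℕ) (F : (Fin m → ℝ) → ℝ), Continuous F → (∃ C, ∀ x, |F x| ≤ C) →
      Tendsto (fun j => (∑ n ∈ Finset.Icc 1 (N j), F (fun i => d (n + i))) / N j) atTop
        (𝓝 (∫ ω, F (fun i => X i ω) ∂P))) (k : ℕ) :
    Tendsto (fun n : ℕ => P.real {ω | n < bs (fun i => X i ω) n 0 ∧ n < bs (fun i => X i ω) n (0 + n + k)})
      atTop (𝓝 (1 / 6)) ∧
    Tendsto (fun n : ℕ => P.real {ω | n < bs (fun i => X i ω) n 0}) atTop (𝓝 (1 / 2)) ∧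
    Tendsto (fun n : ℕ => P.real {ω | n < bs (fun i => X i ω) n (0 + n + k)}) atTop (𝓝 (1 / 2)) := by
  have hbm : ∀ n l : ℕ, Measurable fun ω => bs (fun i => X i ω) n l := by
    intro n l
    unfold bs
    exact Finset.measurable_sum _ fun i _ => hX _
  have hvm : ∀ n : ℕ, Measurable fun ω => vv (fun i => X i ω) n k 0 := by
    intro n
    unfold vv
    apply (WithLp.measurable_toLp 2 (Fin 2 → ℝ)).comp
    rw [measurable_pi_iff]
    intro i
    fin_cases i
    · exact ((hbm n 0).sub_const _).div_const _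
    · exact ((hbm n (0 + n + k)).sub_const _).div_const _
  obtain ⟨μ, hμ⟩ : ∃ μ : ℕ → ProbabilityMeasure E2, ∀ n, (μ n : Measure E2) =
      P.map (fun ω => vv (fun i => X i ω) n k 0) :=
    ⟨fun n => ⟨P.map (fun ω => vv (fun i => X i ω) n k 0),
      Measure.isProbabilityMeasure_map (hvm n).aemeasurable⟩, fun n => rfl⟩
  -- the characteristic functions
  have hchar : ∀ (n : ℕ) (t : E2), Tendsto (fun j => (∑ l ∈ Finset.Icc 1 (N j),
      Complex.exp (Complex.I * ((inner ℝ (vv d n k l) t : ℝ) : ℂ))) / (N j : ℂ)) atTop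
      (𝓝 (charFun (μ n : Measure E2) t)) := by
    intro n t
    have hg := inner_cont (m := 2 * n + k) n k t
    obtain ⟨g, hgd⟩ : ∃ g : (Fin (2 * n + k) → ℝ) → ℝ, g = fun x => inner ℝ (vv (ex x) n k 0) t := ⟨_, rfl⟩
    rw [← hgd] at hg
    have h1 := hlim (2 * n + k) (fun x => Real.cos (g x)) (Real.continuous_cos.comp hg)
      ⟨1, fun x => Real.abs_cos_le_one _⟩
    have h2 := hlim (2 * n + k) (fun x => Real.sin (g x)) (Real.continuous_sin.comp hg)
      ⟨1, fun x => Real.abs_sin_le_one _⟩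
    have e1 : ∀ l : ℕ, g (fun i => d (l + i)) = inner ℝ (vv d n k l) t := by
      intro l
      rw [hgd]
      dsimp only
      rw [vv_congr (d' := d) (j' := l) (fun i hi => ?_)]
      rw [zero_add]
      exact ex_of (fun i => d (l + i)) hi
    have e2 : ∀ ω, g (fun i => X i ω) = inner ℝ (vv (fun i => X i ω) n k 0) t := by
      intro ω
      rw [hgd]
      dsimp only
      rw [vv_congr (d' := fun i => X i ω) (j' := 0) (fun i hi => ?_)]
      rw [zero_add]
      exact ex_of (fun i => X i ω) hi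
    have e3 : charFun (μ n : Measure E2) t = ((∫ ω, Real.cos (g (fun i => X i ω)) ∂P : ℝ) : ℂ) +
        ((∫ ω, Real.sin (g (fun i => X i ω)) ∂P : ℝ) : ℂ) * Complex.I := by
      have hgm : Measurable fun ω => g (fun i => X i ω) :=
        hg.measurable.comp (measurable_pi_iff.2 fun i => hX _)
      have i1 : Integrable (fun ω => Real.cos (g (fun i => X i ω))) P :=
        Integrable.of_bound (Real.measurable_cos.comp hgm).aestronglyMeasurable 1
          (Eventually.of_forall fun ω => Real.abs_cos_le_one _)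
      have i2 : Integrable (fun ω => Real.sin (g (fun i => X i ω))) P :=
        Integrable.of_bound (Real.measurable_sin.comp hgm).aestronglyMeasurable 1
          (Eventually.of_forall fun ω => Real.abs_sin_le_one _)
      rw [charFun_apply, hμ n, integral_map (hvm n).aemeasurable (by
        apply Measurable.aestronglyMeasurable
        fun_prop)]
      rw [← integral_complex_ofReal, ← integral_complex_ofReal, ← integral_mul_const, ← integral_add
        i1.ofReal (i2.ofReal.mul_const _)]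
      apply integral_congr_ae
      refine Eventually.of_forall fun ω => ?_
      dsimp only
      rw [e2 ω, Complex.exp_mul_I]
      push_cast
      rfl
    rw [e3]
    have h3 : Tendsto (fun j => (((∑ l ∈ Finset.Icc 1 (N j), Real.cos (g (fun i => d (l + i)))) / N j : ℝ) : ℂ) +
        (((∑ l ∈ Finset.Icc 1 (N j), Real.sin (g (fun i => d (l + i)))) / N j : ℝ) : ℂ) * Complex.I) atTop
        (𝓝 (((∫ ω, Real.cos (g (fun i => X i ω)) ∂P : ℝ) : ℂ) +
        ((∫ ω, Real.sin (g (fun i => X i ω)) ∂P : ℝ) : ℂ) * Complex.I)) :=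
      ((Complex.continuous_ofReal.tendsto _).comp h1).add
        (((Complex.continuous_ofReal.tendsto _).comp h2).mul_const _)
    refine h3.congr fun j => ?_
    simp_rw [e1]
    push_cast
    rw [div_mul_eq_mul_div, ← add_div, Finset.sum_mul, ← Finset.sum_add_distrib]
    congr 1
    apply Finset.sum_congr rfl
    intro l _
    rw [mul_comm Complex.I, Complex.exp_mul_I]
  have hshift : Tendsto (fun i : ℕ => i + 2) atTop atTop := tendsto_add_atTop_nat 2
  have hlog : Tendsto (fun i : ℕ => Real.log ((i + 2 : ℕ) : ℝ)) atTop atTop :=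
    Real.tendsto_log_atTop.comp (tendsto_natCast_atTop_atTop.comp hshift)
  have hl1 : Tendsto (fun i : ℕ => Real.log ((i + 2 : ℕ) : ℝ) / Real.log (2 * (i + 2) + k : ℕ)) atTop (𝓝 1) := by
    have hz : Tendsto (fun i : ℕ => Real.log ((2 + k : ℕ) : ℝ) / Real.log ((i + 2 : ℕ) : ℝ)) atTop (𝓝 0) :=
      tendsto_const_nhds.div_atTop hlog
    have hb : Tendsto (fun i : ℕ => 1 - Real.log ((2 + k : ℕ) : ℝ) / Real.log ((i + 2 : ℕ) : ℝ)) atTop (𝓝 1) := by
      have := hz.const_sub 1
      rwa [sub_zero] at this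
    refine tendsto_of_tendsto_of_tendsto_of_le_of_le hb tendsto_const_nhds (fun i => ?_) (fun i => ?_)
    · have hn1 : (1 : ℝ) < (i + 2 : ℕ) := by exact_mod_cast (by omega : 1 < i + 2)
      have a2 : 0 < Real.log ((i + 2 : ℕ) : ℝ) := Real.log_pos hn1
      have a3 : Real.log ((i + 2 : ℕ) : ℝ) ≤ Real.log (2 * (i + 2) + k : ℕ) := by
        apply Real.log_le_log (by linarith)
        exact_mod_cast (by omega : i + 2 ≤ 2 * (i + 2) + k)
      have a4 : 0 < Real.log (2 * (i + 2) + k : ℕ) := by linarith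
      have a5 : Real.log (2 * (i + 2) + k : ℕ) ≤ Real.log ((2 + k : ℕ) : ℝ) + Real.log ((i + 2 : ℕ) : ℝ) := by
        rw [← Real.log_mul (by positivity) (by positivity)]
        apply Real.log_le_log (by positivity)
        have : 2 * (i + 2) + k ≤ (2 + k) * (i + 2) := by nlinarith
        exact_mod_cast this
      dsimp only
      rw [le_div_iff₀ a4, sub_mul, one_mul, sub_le_iff_le_add]
      have a6 : Real.log ((2 + k : ℕ) : ℝ) ≤ Real.log ((2 + k : ℕ) : ℝ) / Real.log ((i + 2 : ℕ) : ℝ) *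
          Real.log (2 * (i + 2) + k : ℕ) := by
        have a7 : 0 ≤ Real.log ((2 + k : ℕ) : ℝ) := Real.log_natCast_nonneg _
        rw [div_mul_eq_mul_div, le_div_iff₀ a2]
        exact mul_le_mul_of_nonneg_left a3 a7
      linarith
    · have hn1 : (1 : ℝ) < (i + 2 : ℕ) := by exact_mod_cast (by omega : 1 < i + 2)
      have a2 : 0 < Real.log ((i + 2 : ℕ) : ℝ) := Real.log_pos hn1
      have a3 : Real.log ((i + 2 : ℕ) : ℝ) ≤ Real.log (2 * (i + 2) + k : ℕ) := by
        apply Real.log_le_log (by linarith)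
        exact_mod_cast (by omega : i + 2 ≤ 2 * (i + 2) + k)
      exact (div_le_one (by linarith)).2 a3
  have hl2 : Tendsto (fun i : ℕ => rho (i + 2) k) atTop (𝓝 (-(1 / 2))) := by
    have hz : Tendsto (fun i : ℕ => Real.log (k : ℝ) / Real.log ((i + 2 : ℕ) : ℝ)) atTop (𝓝 0) :=
      tendsto_const_nhds.div_atTop hlog
    have hc : Continuous fun x : ℝ => -(max 0 (1 - x)) / 2 := by fun_prop
    have := (hc.tendsto 0).comp hz
    have e : -(max 0 (1 - (0 : ℝ))) / 2 = -(1 / 2) := by norm_num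
    rw [e] at this
    exact this
  have key := seq_lim (fun i => μ (i + 2)) (fun i => i + 2) (fun _ => k) (fun i => by omega) hshift 1 (-(1 / 2))
    one_pos hl1 hl2 (by
      intro t ε hε
      have hrt : Tendsto (fun i : ℕ => 2 * (i + 2) + k) atTop atTop :=
        tendsto_atTop_mono (fun i => (by omega : i ≤ 2 * (i + 2) + k)) tendsto_id
      filter_upwards [hrt.eventually (hd (![t 0, -t 1, t 1] : Fin 3 → ℝ) ε hε)] with i hi
      refine le_of_tendsto ((hchar (i + 2) t).sub_const _).norm ?_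
      have hNl : Tendsto (fun j => Real.log (N j)) atTop atTop :=
        Real.tendsto_log_atTop.comp (tendsto_natCast_atTop_atTop.comp hN)
      filter_upwards [hN.eventually_ge_atTop 1, hNl.eventually_ge_atTop
        ((2 * (i + 2) + k : ℕ) * Real.log (2 * (i + 2) + k : ℕ))] with j hj1 hj2
      have h3 := hi (N j) hj1 hj2 (![i + 2, i + 2 + k, 2 * (i + 2) + k] : Fin 3 → ℕ) (by
        intro l
        fin_cases l
        · change 1 ≤ i + 2 ∧ i + 2 ≤ 2 * (i + 2) + k
          omega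
        · change 1 ≤ i + 2 + k ∧ i + 2 + k ≤ 2 * (i + 2) + k
          omega
        · change 1 ≤ 2 * (i + 2) + k ∧ 2 * (i + 2) + k ≤ 2 * (i + 2) + k
          omega)
      have hN0 : (0 : ℝ) < N j := by exact_mod_cast hj1
      have hNc : ((N j : ℕ) : ℂ) ≠ 0 := by exact_mod_cast hN0.ne'
      have e1 : ∑ l ∈ Finset.Icc 1 (N j), Complex.exp (Complex.I *
          ((inner ℝ (vv d (i + 2) k l) t : ℝ) : ℂ)) = ∑ l ∈ Finset.Icc 1 (N j),
          Complex.exp (Complex.I * (((∑ m, (![t 0, -t 1, t 1] : Fin 3 → ℝ) m *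
            (bs d ((![i + 2, i + 2 + k, 2 * (i + 2) + k] : Fin 3 → ℕ) m) l -
            ((![i + 2, i + 2 + k, 2 * (i + 2) + k] : Fin 3 → ℕ) m : ℕ))) /
            (Real.sqrt (Real.log (2 * (i + 2) + k : ℕ)) / Real.pi) : ℝ) : ℂ)) := by
        apply Finset.sum_congr rfl
        intro l _
        rw [inner_vv]
      rw [Finset.sum_sub_distrib, Finset.sum_const, Nat.card_Icc, Nat.add_sub_cancel, nsmul_eq_mul] at h3
      rw [e1]
      have e2 : ∀ a b : ℂ, a / (N j : ℂ) - b = (a - (N j : ℂ) * b) / (N j : ℂ) := by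
        intro a b
        field_simp
      rw [e2, norm_div, Complex.norm_natCast, div_le_iff₀ hN0]
      exact h3)
  obtain ⟨k1, k2, k3⟩ := key
  have harc : 1 / 4 + Real.arcsin (-(1 / 2)) / (2 * Real.pi) = 1 / 6 := by
    have h1 : Real.arcsin (1 / 2) = Real.pi / 6 := by
      rw [← Real.sin_pi_div_six]
      apply Real.arcsin_sin <;> linarith [Real.pi_pos]
    rw [Real.arcsin_neg, h1]
    have := Real.pi_pos
    field_simp
    norm_num
  rw [harc] at k1
  have hmeas : ∀ n : ℕ, 2 ≤ n → (μ n : Measure E2).real {x : E2 | 0 < x 0 ∧ 0 < x 1} =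
      P.real {ω | n < bs (fun i => X i ω) n 0 ∧ n < bs (fun i => X i ω) n (0 + n + k)} ∧
      (μ n : Measure E2).real {x : E2 | 0 < x 0} = P.real {ω | n < bs (fun i => X i ω) n 0} ∧
      (μ n : Measure E2).real {x : E2 | 0 < x 1} = P.real {ω | n < bs (fun i => X i ω) n (0 + n + k)} := by
    intro n hn
    have hm0 : MeasurableSet {x : E2 | 0 < x 0} := measurableSet_lt measurable_const (by fun_prop)
    have hm1 : MeasurableSet {x : E2 | 0 < x 1} := measurableSet_lt measurable_const (by fun_prop)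
    have hm2 : MeasurableSet {x : E2 | 0 < x 0 ∧ 0 < x 1} := hm0.inter hm1
    have hpos : 0 < Real.sqrt (Real.log (2 * n + k : ℕ)) / Real.pi := by
      apply div_pos (Real.sqrt_pos.2 (Real.log_pos _)) Real.pi_pos
      exact_mod_cast (by omega : 1 < 2 * n + k)
    have e0 : ∀ ω, (0 < vv (fun i => X i ω) n k 0 0 ↔ (n : ℝ) < bs (fun i => X i ω) n 0) := by
      intro ω
      change 0 < (bs (fun i => X i ω) n 0 - n) / (Real.sqrt (Real.log (2 * n + k : ℕ)) / Real.pi) ↔ _
      rw [div_pos_iff_of_pos_right hpos, sub_pos]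
    have e1 : ∀ ω, (0 < vv (fun i => X i ω) n k 0 1 ↔ (n : ℝ) < bs (fun i => X i ω) n (0 + n + k)) := by
      intro ω
      change 0 < (bs (fun i => X i ω) n (0 + n + k) - n) /
        (Real.sqrt (Real.log (2 * n + k : ℕ)) / Real.pi) ↔ _
      rw [div_pos_iff_of_pos_right hpos, sub_pos]
    refine ⟨?_, ?_, ?_⟩
    · rw [hμ n, map_measureReal_apply (hvm n) hm2]
      congr 1
      ext ω
      simp only [mem_preimage, mem_ofPred_eq]
      rw [e0, e1]
    · rw [hμ n, map_measureReal_apply (hvm n) hm0]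
      congr 1
      ext ω
      simp only [mem_preimage, mem_ofPred_eq]
      rw [e0]
    · rw [hμ n, map_measureReal_apply (hvm n) hm1]
      congr 1
      ext ω
      simp only [mem_preimage, mem_ofPred_eq]
      rw [e1]
  refine ⟨?_, ?_, ?_⟩
  · rw [← tendsto_add_atTop_iff_nat 2]
    exact k1.congr fun i => (hmeas (i + 2) (by omega)).1
  · rw [← tendsto_add_atTop_iff_nat 2]
    exact k2.congr fun i => (hmeas (i + 2) (by omega)).2.1
  · rw [← tendsto_add_atTop_iff_nat 2]
    exact k3.congr fun i => (hmeas (i + 2) (by omega)).2.2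

end Pool.Agent.U403.MX
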