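import Mathlib

/-! # A sequence which satisfies a linear recurrence and tends to infinity does not grow like `o(n)` -/

set_option autoImplicit false

open Filter Topology Finset

namespace Pool.Agent.U403.FS

/-- `∑ a n x^n` converges for `0 ≤ x < 1` when `a n = O(n)` -/
lemma summ {a : ℕ → ℝ} {C : ℝ} (ha : ∀ n, |a n| ≤ C * (n + 1)) {x : ℝ} (hx0 : 0 ≤ x) (hx1 : x < 1) :
    Summable (fun n => a n * x ^ n) := by
  have h1 : Summable (fun n : ℕ => ((n : ℝ) + 1) * x ^ n) := by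
    have h2 := summable_pow_mul_geometric_of_norm_lt_one (R := ℝ) 1 (r := x) (by
      rw [Real.norm_eq_abs, abs_of_nonneg hx0]; exact hx1)
    have h3 := summable_geometric_of_lt_one hx0 hx1
    refine (h2.add h3).congr fun n => ?_
    simp only [pow_one]
    ring
  refine Summable.of_norm_bounded (h1.mul_left C) fun n => ?_
  rw [Real.norm_eq_abs, abs_mul, abs_of_nonneg (pow_nonneg hx0 n), ← mul_assoc]
  exact mul_le_mul_of_nonneg_right (ha n) (pow_nonneg hx0 n)

lemma tsum_lin {x : ℝ} (hx0 : 0 ≤ x) (hx1 : x < 1) :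
    ∑' n : ℕ, ((n : ℝ) + 1) * x ^ n = 1 / (1 - x) ^ 2 := by
  have h1 := tsum_coe_mul_geometric_of_norm_lt_one (𝕜 := ℝ) (r := x) (by
    rw [Real.norm_eq_abs, abs_of_nonneg hx0]; exact hx1)
  have h2 := tsum_geometric_of_lt_one hx0 hx1
  have s1 : Summable (fun n : ℕ => (n : ℝ) * x ^ n) := by
    have := summable_pow_mul_geometric_of_norm_lt_one (R := ℝ) 1 (r := x) (by
      rw [Real.norm_eq_abs, abs_of_nonneg hx0]; exact hx1)
    simpa using this
  have s2 := summable_geometric_of_lt_one hx0 hx1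
  have e1 : (fun n : ℕ => ((n : ℝ) + 1) * x ^ n) = fun n : ℕ => (n : ℝ) * x ^ n + x ^ n := by
    ext n; ring
  rw [e1, s1.tsum_add s2, h1, h2]
  have : (1 - x) ≠ 0 := by linarith
  field_simp
  ring

/-- `(1 - x) ∑ a n x ^ n → ∞` -/
lemma abel_top {a : ℕ → ℝ} {C : ℝ} (ha : ∀ n, |a n| ≤ C * (n + 1)) (hC : 0 ≤ C)
    (ht : Tendsto a atTop atTop) :
    Tendsto (fun x : ℝ => (1 - x) * ∑' n, a n * x ^ n) (𝓝[<] 1) atTop := by
  rw [tendsto_atTop]
  intro K
  obtain ⟨K1, hK1⟩ : ∃ K1 : ℝ, K1 = |K| + 2 := ⟨_, rfl⟩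
  have hK1' : 0 < K1 := by rw [hK1]; positivity
  obtain ⟨n0, hn0⟩ := (ht.eventually_ge_atTop K1).exists_forall_of_atTop
  -- `a n ≥ K1 - D [n < n0]`
  obtain ⟨D, hD⟩ : ∃ D : ℝ, D = K1 + C * (n0 + 1) := ⟨_, rfl⟩
  have hD0 : 0 ≤ D := by rw [hD]; positivity
  have hlow : ∀ n, K1 - (if n < n0 then D else 0) ≤ a n := by
    intro n
    split_ifs with h
    · have h1 := (abs_le.1 (ha n)).1
      have h2 : C * ((n : ℝ) + 1) ≤ C * (n0 + 1) := by
        apply mul_le_mul_of_nonneg_left _ hC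
        have : (n : ℝ) ≤ n0 := by exact_mod_cast h.le
        linarith
      rw [hD]
      linarith
    · rw [sub_zero]
      exact hn0 n (not_lt.1 h)
  have hev : ∀ᶠ x : ℝ in 𝓝[<] 1, 0 < x ∧ x < 1 ∧ (1 - x) * (D * n0) ≤ 1 := by
    have h1 : ∀ᶠ x : ℝ in 𝓝[<] 1, x < 1 := self_mem_nhdsWithin
    have h2 : ∀ᶠ x : ℝ in 𝓝[<] 1, 0 < x := by
      apply mem_nhdsWithin_of_mem_nhds
      exact lt_mem_nhds zero_lt_one
    have h3 : ∀ᶠ x : ℝ in 𝓝[<] 1, (1 - x) * (D * n0) < 1 := by
      have h4 : Tendsto (fun x : ℝ => (1 - x) * (D * n0)) (𝓝[<] 1) (𝓝 0) := by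
        have : Tendsto (fun x : ℝ => (1 - x) * (D * n0)) (𝓝 1) (𝓝 ((1 - 1) * (D * n0))) :=
          ((continuous_const.sub continuous_id).mul continuous_const).tendsto 1
        rw [sub_self, zero_mul] at this
        exact this.mono_left nhdsWithin_le_nhds
      exact h4.eventually (gt_mem_nhds zero_lt_one)
    filter_upwards [h1, h2, h3] with x a1 a2 a3
    exact ⟨a2, a1, a3.le⟩
  filter_upwards [hev] with x ⟨hx0, hx1, hx2⟩
  have hs := summ ha hx0.le hx1
  have hg := summable_geometric_of_lt_one hx0.le hx1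
  have hfin : Summable (fun n => (if n < n0 then D else 0) * x ^ n) := by
    apply summable_of_hasFiniteSupport
    refine (Set.finite_lt_nat n0).subset fun n hn => ?_
    by_contra h
    rw [Function.mem_support] at hn
    apply hn
    have : ¬ n < n0 := h
    simp [this]
  have h1 : K1 * (1 - x)⁻¹ - D * n0 ≤ ∑' n, a n * x ^ n := by
    have h2 : ∑' n, (K1 * x ^ n - (if n < n0 then D else 0) * x ^ n) ≤ ∑' n, a n * x ^ n := by
      refine ((hg.mul_left K1).sub hfin).tsum_le_tsum (fun n => ?_) hs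
      rw [← sub_mul]
      exact mul_le_mul_of_nonneg_right (hlow n) (pow_nonneg hx0.le n)
    rw [(hg.mul_left K1).tsum_sub hfin, tsum_mul_left, tsum_geometric_of_lt_one hx0.le hx1] at h2
    have h3 : ∑' n, (if n < n0 then D else 0) * x ^ n ≤ D * n0 := by
      rw [tsum_eq_sum (s := range n0) (fun n hn => by
        rw [mem_range] at hn; simp [hn])]
      calc _ ≤ ∑ n ∈ range n0, D := by
            apply sum_le_sum
            intro n hn
            rw [mem_range] at hn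
            rw [if_pos hn]
            exact mul_le_of_le_one_right hD0 (pow_le_one₀ hx0.le hx1.le)
        _ = D * n0 := by rw [sum_const, card_range, nsmul_eq_mul]; ring
    linarith
  have h4 : 0 < 1 - x := by linarith
  have h5 := mul_le_mul_of_nonneg_left h1 h4.le
  have h6 : (1 - x) * (K1 * (1 - x)⁻¹ - D * n0) = K1 - (1 - x) * (D * n0) := by
    field_simp
  rw [h6] at h5
  have : K ≤ |K| := le_abs_self K
  linarith

/-- `(1 - x)² ∑ a n x ^ n → 0` -/
lemma abel_zero {a : ℕ → ℝ} {C : ℝ} (ha : ∀ n, |a n| ≤ C * (n + 1)) (hC : 0 ≤ C)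
    (ht : Tendsto (fun n : ℕ => a n / n) atTop (𝓝 0)) :
    Tendsto (fun x : ℝ => (1 - x) ^ 2 * ∑' n, a n * x ^ n) (𝓝[<] 1) (𝓝 0) := by
  rw [Metric.tendsto_nhds]
  intro ε hε
  have h0 := (Metric.tendsto_nhds.1 ht (ε / 2) (by positivity)).exists_forall_of_atTop
  obtain ⟨n0', hn0'⟩ := h0
  obtain ⟨n0, hn0e⟩ : ∃ n0, n0 = max n0' 1 := ⟨_, rfl⟩
  have hn0 : ∀ n, n0 ≤ n → |a n| ≤ ε / 2 * (n + 1) := by
    intro n hn
    have hn1 : 1 ≤ n := by rw [hn0e] at hn; exact (le_max_right _ _).trans hn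
    have h1 := hn0' n (by rw [hn0e] at hn; exact (le_max_left _ _).trans hn)
    rw [Real.dist_eq, sub_zero, abs_div, Nat.abs_cast, div_lt_iff₀ (by exact_mod_cast hn1)] at h1
    nlinarith
  obtain ⟨D, hD⟩ : ∃ D : ℝ, D = C * (n0 + 1) := ⟨_, rfl⟩
  have hD0 : 0 ≤ D := by rw [hD]; positivity
  have hup : ∀ n, |a n| ≤ ε / 2 * (n + 1) + (if n < n0 then D else 0) := by
    intro n
    split_ifs with h
    · have h2 : C * ((n : ℝ) + 1) ≤ C * (n0 + 1) := by
        apply mul_le_mul_of_nonneg_left _ hC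
        have : (n : ℝ) ≤ n0 := by exact_mod_cast h.le
        linarith
      have h3 : 0 ≤ ε / 2 * ((n : ℝ) + 1) := by positivity
      rw [hD]
      linarith [ha n]
    · rw [add_zero]
      exact hn0 n (not_lt.1 h)
  have hev : ∀ᶠ x : ℝ in 𝓝[<] 1, 0 < x ∧ x < 1 ∧ (1 - x) ^ 2 * (D * n0) < ε / 2 := by
    have h1 : ∀ᶠ x : ℝ in 𝓝[<] 1, x < 1 := self_mem_nhdsWithin
    have h2 : ∀ᶠ x : ℝ in 𝓝[<] 1, 0 < x := by
      apply mem_nhdsWithin_of_mem_nhds
      exact lt_mem_nhds zero_lt_one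
    have h3 : ∀ᶠ x : ℝ in 𝓝[<] 1, (1 - x) ^ 2 * (D * n0) < ε / 2 := by
      have h4 : Tendsto (fun x : ℝ => (1 - x) ^ 2 * (D * n0)) (𝓝[<] 1) (𝓝 0) := by
        have : Tendsto (fun x : ℝ => (1 - x) ^ 2 * (D * n0)) (𝓝 1) (𝓝 ((1 - 1) ^ 2 * (D * n0))) :=
          (((continuous_const.sub continuous_id).pow 2).mul continuous_const).tendsto 1
        rw [sub_self, zero_pow two_ne_zero, zero_mul] at this
        exact this.mono_left nhdsWithin_le_nhds
      exact h4.eventually (gt_mem_nhds (by positivity))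
    filter_upwards [h1, h2, h3] with x a1 a2 a3
    exact ⟨a2, a1, a3⟩
  filter_upwards [hev] with x ⟨hx0, hx1, hx2⟩
  have hs := summ ha hx0.le hx1
  have hl : Summable (fun n : ℕ => ((n : ℝ) + 1) * x ^ n) := by
    have := summ (a := fun n : ℕ => (n : ℝ) + 1) (C := 1) (fun n => by
      rw [one_mul, abs_of_nonneg (by positivity)]) hx0.le hx1
    exact this
  have hfin : Summable (fun n => (if n < n0 then D else 0) * x ^ n) := by
    apply summable_of_hasFiniteSupport
    refine (Set.finite_lt_nat n0).subset fun n hn => ?_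
    by_contra h
    rw [Function.mem_support] at hn
    apply hn
    have : ¬ n < n0 := h
    simp [this]
  have h3 : ∑' n, (if n < n0 then D else 0) * x ^ n ≤ D * n0 := by
    rw [tsum_eq_sum (s := range n0) (fun n hn => by
      rw [mem_range] at hn; simp [hn])]
    calc _ ≤ ∑ n ∈ range n0, D := by
          apply sum_le_sum
          intro n hn
          rw [mem_range] at hn
          rw [if_pos hn]
          exact mul_le_of_le_one_right hD0 (pow_le_one₀ hx0.le hx1.le)
      _ = D * n0 := by rw [sum_const, card_range, nsmul_eq_mul]; ring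
  have h4 : |∑' n, a n * x ^ n| ≤ ε / 2 * (1 / (1 - x) ^ 2) + D * n0 := by
    have h5 : |∑' n, a n * x ^ n| ≤ ∑' n, |a n * x ^ n| := by
      have := norm_tsum_le_tsum_norm (f := fun n => a n * x ^ n) hs.norm
      simpa [Real.norm_eq_abs] using this
    have h6 : ∑' n, |a n * x ^ n| ≤
        ∑' n : ℕ, (ε / 2 * (((n : ℝ) + 1) * x ^ n) + (if n < n0 then D else 0) * x ^ n) := by
      refine hs.abs.tsum_le_tsum (fun n => ?_) ((hl.mul_left _).add hfin)
      rw [abs_mul, abs_of_nonneg (pow_nonneg hx0.le n), ← mul_assoc, ← add_mul]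
      exact mul_le_mul_of_nonneg_right (hup n) (pow_nonneg hx0.le n)
    rw [(hl.mul_left _).tsum_add hfin, tsum_mul_left, tsum_lin hx0.le hx1] at h6
    linarith
  have h7 : 0 < (1 - x) ^ 2 := by
    have : 0 < 1 - x := by linarith
    positivity
  rw [Real.dist_eq, sub_zero, abs_mul, abs_of_pos h7]
  have h8 := mul_le_mul_of_nonneg_left h4 h7.le
  have h9 : (1 - x) ^ 2 * (ε / 2 * (1 / (1 - x) ^ 2) + D * n0) = ε / 2 + (1 - x) ^ 2 * (D * n0) := by
    rw [mul_add, mul_left_comm, mul_one_div_cancel h7.ne', mul_one]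
  rw [h9] at h8
  linarith

open Polynomial in
/-- the functional equation of the generating function -/
lemma rational {a : ℕ → ℝ} {C : ℝ} (ha : ∀ n, |a n| ≤ C * (n + 1)) (p : ℝ[X])
    (h : ∀ n, ∑ j ∈ range (p.natDegree + 1), p.coeff j * a (n + j) = 0) :
    ∃ r : ℝ[X], ∀ x : ℝ, 0 < x → x < 1 →
      (p.reverse).eval x * ∑' n, a n * x ^ n = r.eval x := by
  classical
  obtain ⟨d, hd⟩ : ∃ d, d = p.natDegree := ⟨_, rfl⟩
  refine ⟨∑ j ∈ range (d + 1), Polynomial.C (p.coeff j) * Polynomial.X ^ (d - j) *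
    ∑ i ∈ range j, Polynomial.C (a i) * Polynomial.X ^ i, fun x hx0 hx1 => ?_⟩
  have hs := summ ha hx0.le hx1
  have hrev : (p.reverse).eval x = ∑ j ∈ range (d + 1), p.coeff j * x ^ (d - j) := by
    rw [Polynomial.eval_eq_sum_range' (n := d + 1) (lt_of_le_of_lt (Polynomial.reverse_natDegree_le p)
      (by omega)), ← Finset.sum_range_reflect]
    apply sum_congr rfl
    intro j hj
    rw [mem_range] at hj
    have hjd : j ≤ d := by omega
    rw [Polynomial.coeff_reverse, ← hd]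
    have e1 : d + 1 - 1 - j = d - j := by omega
    rw [e1, Polynomial.revAt_le (by omega : d - j ≤ d)]
    congr 2
    omega
  have hj : ∀ j, ∑' n, a (n + j) * x ^ (n + j) = ∑' n, a n * x ^ n - ∑ i ∈ range j, a i * x ^ i := by
    intro j
    have := hs.sum_add_tsum_nat_add j
    linarith
  have key : ∑ j ∈ range (d + 1), p.coeff j * x ^ (d - j) * ∑' n, a (n + j) * x ^ (n + j) = 0 := by
    have hsj : ∀ j, Summable (fun n => p.coeff j * x ^ (d - j) * (a (n + j) * x ^ (n + j))) := by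
      intro j
      exact ((summable_nat_add_iff j).2 hs).mul_left _
    have e2 : ∑ j ∈ range (d + 1), p.coeff j * x ^ (d - j) * ∑' n, a (n + j) * x ^ (n + j) =
        ∑ j ∈ range (d + 1), ∑' n, p.coeff j * x ^ (d - j) * (a (n + j) * x ^ (n + j)) := by
      apply sum_congr rfl
      intro j _
      rw [tsum_mul_left]
    rw [e2, ← Summable.tsum_finsetSum (fun j _ => hsj j)]
    have e3 : ∀ n, ∑ j ∈ range (d + 1), p.coeff j * x ^ (d - j) * (a (n + j) * x ^ (n + j)) = 0 := by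
      intro n
      have e4 : ∑ j ∈ range (d + 1), p.coeff j * x ^ (d - j) * (a (n + j) * x ^ (n + j)) =
          x ^ (n + d) * ∑ j ∈ range (d + 1), p.coeff j * a (n + j) := by
        rw [mul_sum]
        apply sum_congr rfl
        intro j hj
        rw [mem_range] at hj
        have : x ^ (n + d) = x ^ (d - j) * x ^ (n + j) := by
          rw [← pow_add]
          congr 1
          omega
        rw [this]
        ring
      rw [e4, hd, h n, mul_zero]
    simp only [e3, tsum_zero]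
  rw [hrev, sum_mul]
  rw [Polynomial.eval_finsetSum]
  simp only [Polynomial.eval_mul, Polynomial.eval_C, Polynomial.eval_pow, Polynomial.eval_X,
    Polynomial.eval_finsetSum]
  have e5 : ∑ j ∈ range (d + 1), p.coeff j * x ^ (d - j) * ∑' n, a (n + j) * x ^ (n + j) =
      ∑ j ∈ range (d + 1), p.coeff j * x ^ (d - j) * ∑' n, a n * x ^ n -
      ∑ j ∈ range (d + 1), p.coeff j * x ^ (d - j) * ∑ i ∈ range j, a i * x ^ i := by
    rw [← sum_sub_distrib]
    apply sum_congr rfl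
    intro j _
    rw [hj j]
    ring
  rw [key] at e5
  linarith

/-- the behaviour of a polynomial near `1` -/
lemma near_one (q : Polynomial ℝ) (hq : q ≠ 0) : ∃ (e : ℕ) (q1 : Polynomial ℝ), q1.eval 1 ≠ 0 ∧
    ∀ x : ℝ, q.eval x = (1 - x) ^ e * q1.eval x := by
  obtain ⟨q1, h1, h2⟩ := Polynomial.exists_eq_pow_rootMultiplicity_mul_and_not_dvd q hq 1
  refine ⟨q.rootMultiplicity 1, (-1) ^ (q.rootMultiplicity 1) * q1, ?_, fun x => ?_⟩
  · rw [Polynomial.eval_mul]
    apply mul_ne_zero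
    · simp
    · intro h
      exact h2 (Polynomial.dvd_iff_isRoot.2 h)
  · conv_lhs => rw [h1]
    simp only [Polynomial.eval_mul, Polynomial.eval_pow, Polynomial.eval_sub, Polynomial.eval_X,
      Polynomial.eval_C, Polynomial.eval_neg, Polynomial.eval_one]
    rw [← mul_assoc, ← mul_pow]
    congr 2
    ring

/-- **No linear recurrence.**  A sequence with a linear recurrence that tends to infinity is not `o(n)`. -/
theorem no_rec {a : ℕ → ℝ} (ht : Tendsto a atTop atTop)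
    (hz : Tendsto (fun n : ℕ => a n / n) atTop (𝓝 0)) (p : Polynomial ℝ) (hp : p ≠ 0) (n0 : ℕ)
    (h : ∀ n, n0 ≤ n → ∑ j ∈ range (p.natDegree + 1), p.coeff j * a (n + j) = 0) : False := by
  -- shift
  obtain ⟨b, hb⟩ : ∃ b : ℕ → ℝ, b = fun n => a (n + n0) := ⟨_, rfl⟩
  have hbt : Tendsto b atTop atTop := by
    rw [hb]
    exact ht.comp (tendsto_add_atTop_nat n0)
  have hbz : Tendsto (fun n : ℕ => b n / n) atTop (𝓝 0) := by
    have h1 : Tendsto (fun n : ℕ => a (n + n0) / ((n + n0 : ℕ) : ℝ)) atTop (𝓝 0) :=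
      hz.comp (tendsto_add_atTop_nat n0)
    have h2 : Tendsto (fun n : ℕ => ((n + n0 : ℕ) : ℝ) / n) atTop (𝓝 1) := by
      have h3 : Tendsto (fun n : ℕ => 1 + (n0 : ℝ) / n) atTop (𝓝 (1 + 0)) :=
        tendsto_const_nhds.add (tendsto_const_div_atTop_nhds_zero_nat _)
      rw [add_zero] at h3
      refine h3.congr' ?_
      filter_upwards [eventually_gt_atTop 0] with n hn
      have : (n : ℝ) ≠ 0 := by exact_mod_cast hn.ne'
      push_cast
      field_simp
    have h4 := h1.mul h2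
    rw [zero_mul] at h4
    refine h4.congr' ?_
    filter_upwards [eventually_gt_atTop 0] with n hn
    have hn1 : (n : ℝ) ≠ 0 := by exact_mod_cast hn.ne'
    have hn2 : ((n + n0 : ℕ) : ℝ) ≠ 0 := by
      have : 0 < n + n0 := by omega
      exact_mod_cast this.ne'
    rw [hb]
    field_simp
  obtain ⟨C, hC0, hC⟩ : ∃ C : ℝ, 0 ≤ C ∧ ∀ n, |b n| ≤ C * (n + 1) := by
    have h1 := (Metric.tendsto_nhds.1 hbz 1 one_pos).exists_forall_of_atTop
    obtain ⟨n1, hn1⟩ := h1
    refine ⟨1 + ∑ i ∈ range (n1 + 1), |b i|, by positivity, fun n => ?_⟩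
    have hS : 0 ≤ ∑ i ∈ range (n1 + 1), |b i| := sum_nonneg fun _ _ => abs_nonneg _
    have hn' : (0 : ℝ) ≤ n := Nat.cast_nonneg n
    by_cases hc : n < n1 + 1
    · have h2 : |b n| ≤ ∑ i ∈ range (n1 + 1), |b i| :=
        single_le_sum (f := fun i => |b i|) (fun _ _ => abs_nonneg _) (mem_range.2 hc)
      nlinarith
    · have hn0 : 0 < n := by omega
      have h2 := hn1 n (by omega)
      rw [Real.dist_eq, sub_zero, abs_div, Nat.abs_cast, div_lt_iff₀ (by exact_mod_cast hn0)] at h2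
      nlinarith
  have hrec : ∀ n, ∑ j ∈ range (p.natDegree + 1), p.coeff j * b (n + j) = 0 := by
    intro n
    rw [hb]
    have := h (n + n0) (by omega)
    refine Eq.trans (sum_congr rfl fun j _ => ?_) this
    have e1 : n + j + n0 = n + n0 + j := by omega
    show p.coeff j * a (n + j + n0) = _
    rw [e1]
  obtain ⟨r, hr⟩ := rational hC p hrec
  have h1 := abel_top hC hC0 hbt
  have h2 := abel_zero hC hC0 hbz
  obtain ⟨F, hF⟩ : ∃ F : ℝ → ℝ, F = fun x => ∑' n, b n * x ^ n := ⟨_, rfl⟩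
  have h1' : Tendsto (fun x => (1 - x) * F x) (𝓝[<] 1) atTop := by rw [hF]; exact h1
  have h2' : Tendsto (fun x => (1 - x) ^ 2 * F x) (𝓝[<] 1) (𝓝 0) := by rw [hF]; exact h2
  have hqF : ∀ x : ℝ, 0 < x → x < 1 → (p.reverse).eval x * F x = r.eval x := by
    intro x a1 a2
    rw [hF]
    exact hr x a1 a2
  have hq : p.reverse ≠ 0 := by
    rw [Ne, Polynomial.reverse_eq_zero]
    exact hp
  obtain ⟨e, q1, hq1, hqe⟩ := near_one p.reverse hq
  have hIoo : ∀ᶠ x : ℝ in 𝓝[<] 1, 0 < x ∧ x < 1 := by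
    have a1 : ∀ᶠ x : ℝ in 𝓝[<] 1, x < 1 := self_mem_nhdsWithin
    have a2 : ∀ᶠ x : ℝ in 𝓝[<] 1, 0 < x := by
      apply mem_nhdsWithin_of_mem_nhds
      exact lt_mem_nhds zero_lt_one
    exact a2.and a1
  have hpos : ∀ᶠ x : ℝ in 𝓝[<] 1, 1 ≤ (1 - x) * F x := h1'.eventually_ge_atTop 1
  haveI : (𝓝[<] (1 : ℝ)).NeBot := inferInstance
  have hq1c : Tendsto (fun x => q1.eval x) (𝓝[<] 1) (𝓝 (q1.eval 1)) :=
    (q1.continuous.tendsto 1).mono_left nhdsWithin_le_nhds
  have hq1n : ∀ᶠ x : ℝ in 𝓝[<] 1, q1.eval x ≠ 0 := hq1c.eventually_ne hq1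
  by_cases hr0 : r = 0
  · obtain ⟨x, ⟨hx0, hx1⟩, hx2, hx3⟩ := (hIoo.and (hpos.and hq1n)).exists
    have h3 := hqF x hx0 hx1
    rw [hr0, Polynomial.eval_zero, hqe x] at h3
    have h4 : F x ≠ 0 := by
      intro h5
      rw [h5, mul_zero] at hx2
      linarith
    have h5 : (1 - x) ^ e ≠ 0 := pow_ne_zero _ (by linarith)
    exact (mul_ne_zero (mul_ne_zero h5 hx3) h4) h3
  · obtain ⟨g, r1, hr1, hre⟩ := near_one r hr0
    have hr1c : Tendsto (fun x => r1.eval x) (𝓝[<] 1) (𝓝 (r1.eval 1)) :=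
      (r1.continuous.tendsto 1).mono_left nhdsWithin_le_nhds
    -- `(1 - x)^e q1 F = (1 - x)^g r1`
    have hId : ∀ x : ℝ, 0 < x → x < 1 → (1 - x) ^ e * q1.eval x * F x = (1 - x) ^ g * r1.eval x := by
      intro x a1 a2
      have := hqF x a1 a2
      rwa [hqe x, hre x] at this
    rcases Nat.lt_or_ge (g + 1) e with hge | hge
    · -- `g + 2 ≤ e`: `(1 - x)² F` does not tend to zero
      obtain ⟨k, hk⟩ : ∃ k, e = g + 2 + k := ⟨e - (g + 2), by omega⟩
      have h5 : Tendsto (fun x => (1 - x) ^ k * q1.eval x * ((1 - x) ^ 2 * F x)) (𝓝[<] 1) (𝓝 0) := by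
        have a1 : Tendsto (fun x : ℝ => (1 - x) ^ k * q1.eval x) (𝓝[<] 1)
            (𝓝 ((1 - 1) ^ k * q1.eval 1)) :=
          ((((continuous_const.sub continuous_id).pow k).tendsto 1).mono_left
            nhdsWithin_le_nhds).mul hq1c
        have a2 := a1.mul h2'
        rwa [mul_zero] at a2
      have h6 : Tendsto (fun x => r1.eval x) (𝓝[<] 1) (𝓝 0) := by
        refine h5.congr' ?_
        filter_upwards [hIoo] with x ⟨hx0, hx1⟩
        have h7 := hId x hx0 hx1
        rw [hk] at h7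
        have h8 : (1 - x) ^ g ≠ 0 := pow_ne_zero _ (by linarith)
        have h9 : (1 - x) ^ (g + 2 + k) = (1 - x) ^ g * ((1 - x) ^ k * (1 - x) ^ 2) := by ring
        rw [h9] at h7
        have h10 : (1 - x) ^ g * ((1 - x) ^ k * q1.eval x * ((1 - x) ^ 2 * F x)) =
            (1 - x) ^ g * r1.eval x := by
          rw [← h7]
          ring
        exact mul_left_cancel₀ h8 h10
      exact hr1 (tendsto_nhds_unique hr1c h6)
    · -- `e ≤ g + 1`: `(1 - x) F` is bounded
      obtain ⟨k, hk⟩ : ∃ k, g + 1 = e + k := ⟨g + 1 - e, by omega⟩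
      have h5 : Tendsto (fun x => (1 - x) * F x) (𝓝[<] 1) (𝓝 ((1 - 1) ^ k * r1.eval 1 / q1.eval 1)) := by
        have a1 : Tendsto (fun x : ℝ => (1 - x) ^ k * r1.eval x / q1.eval x) (𝓝[<] 1)
            (𝓝 ((1 - 1) ^ k * r1.eval 1 / q1.eval 1)) :=
          (((((continuous_const.sub continuous_id).pow k).tendsto 1).mono_left
            nhdsWithin_le_nhds).mul hr1c).div hq1c hq1
        refine a1.congr' ?_
        filter_upwards [hIoo, hq1n] with x ⟨hx0, hx1⟩ hxq
        have h7 := hId x hx0 hx1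
        have h8 : (1 - x) ^ e ≠ 0 := pow_ne_zero _ (by linarith)
        rw [div_eq_iff hxq]
        have h9 : (1 - x) ^ e * ((1 - x) ^ k * r1.eval x) =
            (1 - x) ^ e * ((1 - x) * F x * q1.eval x) := by
          calc (1 - x) ^ e * ((1 - x) ^ k * r1.eval x) = (1 - x) ^ (e + k) * r1.eval x := by ring
            _ = (1 - x) ^ (g + 1) * r1.eval x := by rw [hk]
            _ = (1 - x) * ((1 - x) ^ g * r1.eval x) := by ring
            _ = (1 - x) * ((1 - x) ^ e * q1.eval x * F x) := by rw [h7]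
            _ = _ := by ring
        exact mul_left_cancel₀ h8 h9
      exact not_tendsto_nhds_of_tendsto_atTop h1' _ h5

end Pool.Agent.U403.FS
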