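import Mathlib

/-! # Second moments pass to the limit when third moments are bounded -/

set_option autoImplicit false

open Filter Topology Finset MeasureTheory
open scoped NNReal ENNReal

namespace Pool.Agent.U403.FS

lemma sq_le_min_add {y K : ℝ} (hK : 0 < K) : y ^ 2 ≤ min (y ^ 2) K + |y| ^ 3 / Real.sqrt K := by
  have hs : 0 < Real.sqrt K := Real.sqrt_pos.2 hK
  rcases le_or_gt (y ^ 2) K with h | h
  · rw [min_eq_left h]
    have : 0 ≤ |y| ^ 3 / Real.sqrt K := by positivity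
    linarith
  · rw [min_eq_right h.le]
    have h1 : Real.sqrt K ≤ |y| := by
      rw [← Real.sqrt_sq_eq_abs]
      exact Real.sqrt_le_sqrt h.le
    have h2 : y ^ 2 ≤ |y| ^ 3 / Real.sqrt K := by
      rw [le_div_iff₀ hs]
      calc y ^ 2 * Real.sqrt K = |y| ^ 2 * Real.sqrt K := by rw [sq_abs]
        _ ≤ |y| ^ 2 * |y| := by gcongr
        _ = |y| ^ 3 := by ring
    linarith

variable {d : ℕ}

/-- averages over `n ≤ M` -/
noncomputable def av (M : ℕ) (u : ℕ → ℝ) : ℝ := (1 / M : ℝ) * ∑ n ∈ Icc 1 M, u n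

lemma av_mono {M : ℕ} {u w : ℕ → ℝ} (h : ∀ n, u n ≤ w n) : av M u ≤ av M w := by
  unfold av
  apply mul_le_mul_of_nonneg_left _ (by positivity)
  exact sum_le_sum fun n _ => h n

lemma av_add (M : ℕ) (u w : ℕ → ℝ) : av M (fun n => u n + w n) = av M u + av M w := by
  unfold av
  rw [sum_add_distrib, mul_add]

lemma av_div (M : ℕ) (u : ℕ → ℝ) (c : ℝ) : av M (fun n => u n / c) = av M u / c := by
  unfold av
  rw [← sum_div, mul_div_assoc]

/-- truncated squares are Lipschitz -/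
lemma lip_min {K : ℝ} (hK : 0 ≤ K) (a b : ℝ) :
    |min (a ^ 2) K - min (b ^ 2) K| ≤ 2 * Real.sqrt K * |a - b| := by
  have key : ∀ t : ℝ, min (t ^ 2) K = (min |t| (Real.sqrt K)) ^ 2 := by
    intro t
    rcases le_total |t| (Real.sqrt K) with h | h
    · rw [min_eq_left h, sq_abs, min_eq_left]
      rw [← sq_abs, ← Real.sq_sqrt hK]
      exact pow_le_pow_left₀ (abs_nonneg _) h 2
    · rw [min_eq_right h, Real.sq_sqrt hK, min_eq_right]
      rw [← sq_abs, ← Real.sq_sqrt hK]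
      exact pow_le_pow_left₀ (Real.sqrt_nonneg _) h 2
  rw [key a, key b]
  have h1 : |min |a| (Real.sqrt K) - min |b| (Real.sqrt K)| ≤ |a - b| :=
    (abs_min_sub_min_le_max _ _ _ _).trans (by
      rw [sub_self, abs_zero, max_eq_left (abs_nonneg _)]
      exact abs_abs_sub_abs_le_abs_sub _ _)
  have h2 : |min |a| (Real.sqrt K) + min |b| (Real.sqrt K)| ≤ 2 * Real.sqrt K := by
    rw [abs_of_nonneg (add_nonneg (le_min (abs_nonneg _) (Real.sqrt_nonneg _))
      (le_min (abs_nonneg _) (Real.sqrt_nonneg _)))]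
    linarith [min_le_right |a| (Real.sqrt K), min_le_right |b| (Real.sqrt K)]
  rw [sq_sub_sq, abs_mul]
  exact mul_le_mul h2 h1 (abs_nonneg _) (by positivity)

theorem moment_limit {lam : Measure (Fin d → ℝ)} [IsFiniteMeasure lam] {y : (Fin d → ℝ) → ℝ}
    {Cy : ℝ≥0} (hyL : LipschitzWith Cy y) {blk : ℕ → Fin d → ℝ} {N : ℕ → ℕ}
    (hN : Tendsto N atTop atTop)
    (hconv : ∀ g : (Fin d → ℝ) → ℝ, (∃ C : ℝ≥0, LipschitzWith C g) → (∃ B, ∀ x, |g x| ≤ B) →
      Tendsto (fun k => av (N k) (fun n => g (blk n))) atTop (𝓝 (∫ x, g x ∂lam)))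
    {B lo hi : ℝ} (hB : ∀ᶠ M in atTop, av M (fun n => |y (blk n)| ^ 3) ≤ B)
    (hlo : ∀ᶠ M in atTop, lo ≤ av M (fun n => y (blk n) ^ 2))
    (hhi : ∀ᶠ M in atTop, av M (fun n => y (blk n) ^ 2) ≤ hi) :
    Integrable (fun x => y x ^ 2) lam ∧ lo ≤ ∫ x, y x ^ 2 ∂lam ∧ ∫ x, y x ^ 2 ∂lam ≤ hi := by
  obtain ⟨g, hg⟩ : ∃ g : ℕ → (Fin d → ℝ) → ℝ, g = fun (j : ℕ) x => min (y x ^ 2) ((j : ℝ) + 1) := ⟨_, rfl⟩
  have hy : Continuous y := hyL.continuous
  have hgc : ∀ j, Continuous (g j) := by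
    intro j
    rw [hg]
    exact (hy.pow 2).min continuous_const
  have hgL : ∀ j, ∃ C : ℝ≥0, LipschitzWith C (g j) := by
    intro j
    have hj : (0 : ℝ) ≤ (j : ℝ) + 1 := by positivity
    refine ⟨(2 * Real.sqrt ((j : ℝ) + 1)).toNNReal * Cy, LipschitzWith.of_dist_le_mul fun x x' => ?_⟩
    have h1 := lip_min hj (y x) (y x')
    have h2 := hyL.dist_le_mul x x'
    rw [Real.dist_eq] at h2
    rw [hg, Real.dist_eq, NNReal.coe_mul, Real.coe_toNNReal _ (by positivity), mul_assoc]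
    refine h1.trans ?_
    gcongr
  have hg0 : ∀ j x, 0 ≤ g j x := by
    intro j x
    rw [hg]
    exact le_min (sq_nonneg _) (by positivity)
  have hgle : ∀ j x, g j x ≤ (j : ℝ) + 1 := by
    intro j x
    rw [hg]
    exact min_le_right _ _
  have hgy : ∀ j x, g j x ≤ y x ^ 2 := by
    intro j x
    rw [hg]
    exact min_le_left _ _
  have hgb : ∀ j, ∃ B, ∀ x, |g j x| ≤ B := by
    intro j
    refine ⟨(j : ℝ) + 1, fun x => ?_⟩
    rw [abs_of_nonneg (hg0 j x)]
    exact hgle j x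
  have hgi : ∀ j, Integrable (g j) lam := by
    intro j
    refine (integrable_const ((j : ℝ) + 1)).mono' (hgc j).aestronglyMeasurable
      (Eventually.of_forall fun x => ?_)
    rw [Real.norm_eq_abs, abs_of_nonneg (hg0 j x)]
    exact hgle j x
  have hup : ∀ j, ∫ x, g j x ∂lam ≤ hi := by
    intro j
    refine le_of_tendsto (hconv (g j) (hgL j) (hgb j)) ?_
    filter_upwards [hN.eventually hhi] with k hk
    exact (av_mono fun n => hgy j _).trans hk
  have hdown : ∀ j : ℕ, lo - B / Real.sqrt ((j : ℝ) + 1) ≤ ∫ x, g j x ∂lam := by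
    intro j
    have hj : (0 : ℝ) < (j : ℝ) + 1 := by positivity
    refine ge_of_tendsto (hconv (g j) (hgL j) (hgb j)) ?_
    filter_upwards [hN.eventually hlo, hN.eventually hB] with k hk1 hk2
    have h1 : av (N k) (fun n => y (blk n) ^ 2) ≤
        av (N k) (fun n => g j (blk n) + |y (blk n)| ^ 3 / Real.sqrt ((j : ℝ) + 1)) := by
      apply av_mono
      intro n
      rw [hg]
      exact sq_le_min_add hj
    rw [av_add, av_div] at h1
    have h2 : av (N k) (fun n => |y (blk n)| ^ 3) / Real.sqrt ((j : ℝ) + 1) ≤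
        B / Real.sqrt ((j : ℝ) + 1) := by gcongr
    linarith
  have hmono : ∀ x, Monotone fun j => g j x := by
    intro x i j hij
    rw [hg]
    apply min_le_min le_rfl
    have : (i : ℝ) ≤ j := by exact_mod_cast hij
    linarith
  have htend : ∀ x, Tendsto (fun j => g j x) atTop (𝓝 (y x ^ 2)) := by
    intro x
    apply tendsto_const_nhds.congr'
    obtain ⟨j0, hj0⟩ := exists_nat_ge (y x ^ 2)
    filter_upwards [eventually_ge_atTop j0] with j hj
    rw [hg]
    have : (j0 : ℝ) ≤ j := by exact_mod_cast hj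
    exact (min_eq_left (by linarith)).symm
  have hlin : ∫⁻ x, ENNReal.ofReal (y x ^ 2) ∂lam ≤ ENNReal.ofReal hi := by
    have h1 := lintegral_tendsto_of_tendsto_of_monotone (μ := lam)
      (f := fun j x => ENNReal.ofReal (g j x)) (F := fun x => ENNReal.ofReal (y x ^ 2))
      (fun j => ((hgc j).measurable.ennreal_ofReal).aemeasurable)
      (Eventually.of_forall fun x => fun i j hij => ENNReal.ofReal_le_ofReal (hmono x hij))
      (Eventually.of_forall fun x => (ENNReal.continuous_ofReal.tendsto _).comp (htend x))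
    refine le_of_tendsto h1 (Eventually.of_forall fun j => ?_)
    rw [← ofReal_integral_eq_lintegral_ofReal (hgi j) (Eventually.of_forall (hg0 j))]
    exact ENNReal.ofReal_le_ofReal (hup j)
  have hint : Integrable (fun x => y x ^ 2) lam := by
    refine ⟨(hy.pow 2).aestronglyMeasurable, ?_⟩
    rw [hasFiniteIntegral_iff_ofReal (Eventually.of_forall fun x => sq_nonneg _)]
    exact lt_of_le_of_lt hlin ENNReal.ofReal_lt_top
  have hlim : Tendsto (fun j => ∫ x, g j x ∂lam) atTop (𝓝 (∫ x, y x ^ 2 ∂lam)) :=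
    integral_tendsto_of_tendsto_of_monotone hgi hint (Eventually.of_forall hmono)
      (Eventually.of_forall htend)
  refine ⟨hint, ?_, le_of_tendsto hlim (Eventually.of_forall hup)⟩
  have h3 : Tendsto (fun j : ℕ => lo - B / Real.sqrt ((j : ℝ) + 1)) atTop (𝓝 (lo - 0)) := by
    apply tendsto_const_nhds.sub
    apply Tendsto.const_div_atTop
    apply Real.tendsto_sqrt_atTop.comp
    exact tendsto_atTop_add_const_right _ _ tendsto_natCast_atTop_atTop
  rw [sub_zero] at h3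
  exact le_of_tendsto_of_tendsto' h3 hlim hdown

/-- averages of a null sequence -/
lemma av_null {u : ℕ → ℝ} (hu : Tendsto u atTop (𝓝 0)) : Tendsto (fun M => av M u) atTop (𝓝 0) := by
  have h1 : Tendsto (fun n : ℕ => u (n + 1)) atTop (𝓝 0) := hu.comp (tendsto_add_atTop_nat 1)
  have h2 := h1.cesaro
  refine h2.congr fun M => ?_
  unfold av
  rw [one_div]
  congr 1
  rw [range_eq_Ico, sum_Ico_add' (fun x => u x) 0 M 1]
  apply sum_congr _ fun _ _ => rfl
  ext n
  rw [mem_Ico, mem_Icc]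
  omega

/-- third powers of sums -/
lemma cube_sum {m : ℕ} (z : ℕ → ℝ) : |∑ i ∈ range m, z i| ^ 3 ≤ (m : ℝ) ^ 2 * ∑ i ∈ range m, |z i| ^ 3 := by
  rcases Nat.eq_zero_or_pos m with rfl | hm
  · simp
  have h1 := pow_sum_div_card_le_sum_pow (s := range m) (f := fun i => |z i|)
    (fun i _ => abs_nonneg _) 2
  rw [card_range, div_le_iff₀ (by positivity)] at h1
  have h2 : |∑ i ∈ range m, z i| ^ 3 ≤ (∑ i ∈ range m, |z i|) ^ 3 :=
    pow_le_pow_left₀ (abs_nonneg _) (abs_sum_le_sum_abs _ _) 3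
  calc _ ≤ _ := h2
    _ ≤ _ := h1
    _ = _ := by ring

lemma cube_sub_one {t : ℝ} (ht : 0 ≤ t) : |t - 1| ^ 3 ≤ (max t 0) ^ 3 + 1 := by
  rw [max_eq_left ht]
  rcases le_or_gt 1 t with h | h
  · rw [abs_of_nonneg (by linarith)]
    have : (t - 1) ^ 3 ≤ t ^ 3 := pow_le_pow_left₀ (by linarith) (by linarith) 3
    linarith
  · rw [abs_of_neg (by linarith)]
    have h1 : (-(t - 1)) ^ 3 ≤ 1 ^ 3 := pow_le_pow_left₀ (by linarith) (by linarith) 3
    have h2 : 0 ≤ t ^ 3 := by positivity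
    linarith

/-- bounded third moments of sums of `m` consecutive terms -/
theorem third {δ : ℕ → ℝ} {n0 : ℕ} (h0 : ∀ n, n0 ≤ n → 0 ≤ δ n) {C : ℝ} (hC : 0 < C)
    (h : ∀ N : ℕ, ∑ n ∈ Icc 1 N, (max (δ n) 0) ^ 3 ≤ C * N) (m : ℕ) : ∃ B : ℝ, ∀ᶠ M : ℕ in atTop,
      av M (fun n => |∑ i ∈ range m, (δ (n + i) - 1)| ^ 3) ≤ B := by
  obtain ⟨D, hD⟩ : ∃ D : ℝ, D = ∑ n ∈ range n0, |δ n - 1| ^ 3 := ⟨_, rfl⟩
  have hD0 : 0 ≤ D := by rw [hD]; exact sum_nonneg fun _ _ => by positivity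
  have h1 : ∀ N : ℕ, ∑ n ∈ Icc 1 N, |δ n - 1| ^ 3 ≤ (C + 1) * N + D := by
    intro N
    have h2 : ∀ n ∈ Icc 1 N, |δ n - 1| ^ 3 ≤ ((max (δ n) 0) ^ 3 + 1) +
        (if n < n0 then |δ n - 1| ^ 3 else 0) := by
      intro n _
      split_ifs with hc
      · have : 0 ≤ (max (δ n) 0) ^ 3 + 1 := by positivity
        linarith
      · rw [add_zero]
        exact cube_sub_one (h0 n (not_lt.1 hc))
    refine (sum_le_sum h2).trans ?_
    rw [sum_add_distrib, sum_add_distrib, sum_const, Nat.card_Icc, nsmul_eq_mul, ← sum_filter]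
    have h3 : ∑ n ∈ (Icc 1 N).filter (fun n => n < n0), |δ n - 1| ^ 3 ≤ D := by
      rw [hD]
      apply sum_le_sum_of_subset_of_nonneg
      · intro n hn
        rw [mem_filter] at hn
        exact mem_range.2 hn.2
      · intro _ _ _
        positivity
    have h4 := h N
    simp only [Nat.add_sub_cancel, mul_one]
    linarith
  refine ⟨(m : ℝ) ^ 2 * (m * ((C + 1) * (1 + m) + D)), ?_⟩
  filter_upwards [eventually_ge_atTop 1] with M hM
  have hM0 : (0 : ℝ) < M := by exact_mod_cast hM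
  have hM1 : (1 : ℝ) ≤ M := by exact_mod_cast hM
  have h5 : ∀ i ∈ range m, ∑ n ∈ Icc 1 M, |δ (n + i) - 1| ^ 3 ≤ ((C + 1) * (1 + m) + D) * M := by
    intro i hi
    rw [mem_range] at hi
    have h6 : ∑ n ∈ Icc 1 M, |δ (n + i) - 1| ^ 3 ≤ ∑ n ∈ Icc 1 (M + i), |δ n - 1| ^ 3 := by
      have h7 : ∑ n ∈ Icc 1 M, |δ (n + i) - 1| ^ 3 = ∑ n ∈ (Icc 1 M).image (fun n => n + i), |δ n - 1| ^ 3 := by
        rw [sum_image]
        intro a _ b _ hab
        simpa using hab
      rw [h7]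
      apply sum_le_sum_of_subset_of_nonneg
      · intro n hn
        rw [mem_image] at hn
        obtain ⟨a, ha, rfl⟩ := hn
        rw [mem_Icc] at ha ⊢
        omega
      · intro _ _ _
        positivity
    have h8 := h1 (M + i)
    have hi' : (i : ℝ) ≤ m := by exact_mod_cast hi.le
    have hi0 : (0 : ℝ) ≤ i := Nat.cast_nonneg i
    push_cast at h8
    have h9 : (C + 1) * ((M : ℝ) + i) + D ≤ ((C + 1) * (1 + m) + D) * M := by
      have e1 : (C + 1) * ((M : ℝ) + i) ≤ (C + 1) * (M + m * M) := by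
        apply mul_le_mul_of_nonneg_left _ (by linarith)
        nlinarith
      nlinarith
    linarith
  have h10 : ∑ n ∈ Icc 1 M, |∑ i ∈ range m, (δ (n + i) - 1)| ^ 3 ≤
      (m : ℝ) ^ 2 * (m * (((C + 1) * (1 + m) + D) * M)) := by
    calc _ ≤ ∑ n ∈ Icc 1 M, (m : ℝ) ^ 2 * ∑ i ∈ range m, |δ (n + i) - 1| ^ 3 :=
          sum_le_sum fun n _ => cube_sum _
      _ = (m : ℝ) ^ 2 * ∑ i ∈ range m, ∑ n ∈ Icc 1 M, |δ (n + i) - 1| ^ 3 := by
          rw [← mul_sum, sum_comm]
      _ ≤ (m : ℝ) ^ 2 * ∑ i ∈ range m, ((C + 1) * (1 + m) + D) * M := by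
          apply mul_le_mul_of_nonneg_left _ (by positivity)
          exact sum_le_sum h5
      _ = _ := by rw [sum_const, card_range, nsmul_eq_mul]
  unfold av
  rw [one_div, inv_mul_le_iff₀ hM0]
  calc _ ≤ _ := h10
    _ = _ := by ring

end Pool.Agent.U403.FS
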