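import Pool.Agent.U403.Hmm

/-! # Weakly stationary processes with linearly recurrent covariances -/

set_option autoImplicit false

open Filter Topology Finset MeasureTheory ProbabilityTheory Polynomial

namespace Pool.Agent.U403.FS

/-- the shift of sequences -/
def T : Module.End ℝ (ℕ → ℝ) where
  toFun a n := a (n + 1)
  map_add' _ _ := rfl
  map_smul' _ _ := rfl

lemma T_pow (j : ℕ) (a : ℕ → ℝ) (n : ℕ) : (T ^ j) a n = a (n + j) := by
  induction j generalizing n with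
  | zero => rfl
  | succ j ih =>
    rw [pow_succ', Module.End.mul_apply]
    show (T ^ j) a (n + 1) = _
    rw [ih]
    congr 1
    omega

lemma aeval_T (p : ℝ[X]) (a : ℕ → ℝ) (n : ℕ) :
    (aeval T p) a n = ∑ j ∈ range (p.natDegree + 1), p.coeff j * a (n + j) := by
  rw [aeval_eq_sum_range, LinearMap.sum_apply, Finset.sum_apply]
  apply sum_congr rfl
  intro j _
  rw [LinearMap.smul_apply, Pi.smul_apply, T_pow, smul_eq_mul]

lemma linRec_iff {a : ℕ → ℝ} : LinRec a ↔
    ∃ (p : ℝ[X]) (n0 : ℕ), p ≠ 0 ∧ ∀ n, n0 ≤ n → (aeval T p) a n = 0 := by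
  unfold LinRec
  simp only [aeval_T]

/-- the double sums of the covariances -/
noncomputable def S (c : ℕ → ℝ) (n : ℕ) : ℝ := ∑ i ∈ range n, ∑ j ∈ range n, c ((i - j) + (j - i))

lemma S_succ (c : ℕ → ℝ) (n : ℕ) : S c (n + 1) = S c n + c 0 + 2 * ∑ k ∈ range n, c (k + 1) := by
  unfold S
  rw [sum_range_succ]
  have h1 : ∀ i ∈ range n, ∑ j ∈ range (n + 1), c ((i - j) + (j - i)) =
      ∑ j ∈ range n, c ((i - j) + (j - i)) + c (n - i) := by
    intro i hi
    rw [mem_range] at hi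
    rw [sum_range_succ]
    congr 2
    omega
  rw [sum_congr rfl h1, sum_add_distrib, sum_range_succ]
  have h2 : ∑ j ∈ range n, c ((n - j) + (j - n)) = ∑ k ∈ range n, c (k + 1) := by
    rw [← sum_range_reflect]
    apply sum_congr rfl
    intro j hj
    rw [mem_range] at hj
    congr 1
    omega
  have h3 : ∑ i ∈ range n, c (n - i) = ∑ k ∈ range n, c (k + 1) := by
    rw [← sum_range_reflect]
    apply sum_congr rfl
    intro j hj
    rw [mem_range] at hj
    congr 1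
    omega
  rw [h2, h3]
  have h4 : c (n - n + (n - n)) = c 0 := by congr 1; omega
  rw [h4]
  ring

/-- linearly recurrent covariances give linearly recurrent second moments of block sums -/
theorem cov_linRec {c : ℕ → ℝ} (hc : LinRec c) (κ : ℝ) :
    LinRec (fun m => S c (m + 1) + κ * ((m : ℝ) + 1) ^ 2) := by
  rw [linRec_iff] at hc ⊢
  obtain ⟨q, n0, hq, h⟩ := hc
  obtain ⟨a, ha⟩ : ∃ a : ℕ → ℝ, a = fun m : ℕ => S c (m + 1) + κ * ((m : ℝ) + 1) ^ 2 := ⟨_, rfl⟩
  rw [← ha]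
  have hX : (X - 1 : ℝ[X]) ≠ 0 := X_sub_C_ne_zero 1
  refine ⟨q * (X - 1) ^ 3, n0, mul_ne_zero hq (pow_ne_zero _ hX), fun n hn => ?_⟩
  have h1 : (aeval T ((X - 1 : ℝ[X]) ^ 3)) a = (2 : ℝ) • ((T ^ 3) c - (T ^ 2) c) := by
    funext m
    have e1 : (X - 1 : ℝ[X]) ^ 3 = X ^ 3 - 3 * X ^ 2 + 3 * X - 1 := by ring
    have e2 : aeval T ((X - 1 : ℝ[X]) ^ 3) = T ^ 3 - 3 * T ^ 2 + 3 * T - 1 := by
      rw [e1]
      simp only [map_sub, map_add, map_mul, map_pow, aeval_X, map_one, map_ofNat]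
    rw [e2]
    have e3 : ((T ^ 3 - 3 * T ^ 2 + 3 * T - 1 : Module.End ℝ (ℕ → ℝ)) a) m =
        a (m + 3) - 3 * a (m + 2) + 3 * a (m + 1) - a m := by
      have f3 : (3 : Module.End ℝ (ℕ → ℝ)) = (3 : ℝ) • 1 := by
        rw [← map_ofNat (algebraMap ℝ (Module.End ℝ (ℕ → ℝ))) 3, Algebra.algebraMap_eq_smul_one]
      rw [f3]
      simp only [LinearMap.sub_apply, LinearMap.add_apply, Module.End.mul_apply, LinearMap.smul_apply,
        Module.End.one_apply, Pi.sub_apply, Pi.add_apply, Pi.smul_apply, smul_eq_mul, T_pow]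
      rfl
    rw [e3, Pi.smul_apply, Pi.sub_apply, T_pow, T_pow, smul_eq_mul, ha]
    simp only
    have s1 := S_succ c (m + 1)
    have s2 := S_succ c (m + 2)
    have s3 := S_succ c (m + 3)
    rw [sum_range_succ] at s2
    rw [sum_range_succ, sum_range_succ] at s3
    have e4 : m + 3 + 1 = m + 4 := rfl
    have e5 : m + 2 + 1 = m + 3 := rfl
    have e6 : m + 1 + 1 = m + 2 := rfl
    rw [e4, e5, e6] at s3
    rw [e5, e6] at s2
    rw [e6] at s1
    rw [e4, e5, e6, s3, s2, s1]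
    push_cast
    ring
  rw [map_mul, Module.End.mul_apply, h1, map_smul, map_sub, Pi.smul_apply, Pi.sub_apply]
  have h2 : ∀ j, (aeval T q) ((T ^ j) c) n = 0 ∨ True := fun _ => Or.inr trivial
  have h3 : ∀ j, (aeval T q) ((T ^ j) c) n = (aeval T q) c (n + j) := by
    intro j
    rw [aeval_T, aeval_T]
    apply sum_congr rfl
    intro i _
    rw [T_pow]
    congr 2
    omega
  rw [h3, h3, h (n + 3) (by omega), h (n + 2) (by omega)]
  simp

/-- `lam m` is the law of `m + 1` consecutive values of a weakly stationary process with mean `μ` and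
covariances `c 0, c 1, …` -/
structure WeaklyStationary (lam : ∀ m : ℕ, Measure (Fin (m + 1) → ℝ)) (μ : ℝ) (c : ℕ → ℝ) : Prop where
  sq : ∀ m (i : Fin (m + 1)), MemLp (fun x : Fin (m + 1) → ℝ => x i) 2 (lam m)
  mean : ∀ m (i : Fin (m + 1)), ∫ x, x i ∂(lam m) = μ
  cov : ∀ m (i j : Fin (m + 1)), i ≤ j → ∫ x, (x i - μ) * (x j - μ) ∂(lam m) = c (j - i)

lemma ws_sq {lam : ∀ m : ℕ, Measure (Fin (m + 1) → ℝ)} [∀ m, IsProbabilityMeasure (lam m)] {μ : ℝ}
    {c : ℕ → ℝ} (h : WeaklyStationary lam μ c) (m : ℕ) :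
    ∫ x : Fin (m + 1) → ℝ, (∑ i, (x i - 1)) ^ 2 ∂(lam m) = S c (m + 1) + (μ - 1) ^ 2 * ((m : ℝ) + 1) ^ 2 := by
  have hx : ∀ i : Fin (m + 1), MemLp (fun x : Fin (m + 1) → ℝ => x i - μ) 2 (lam m) := fun i =>
    (h.sq m i).sub (memLp_const μ)
  have hc : ∀ i j : Fin (m + 1), ∫ x, (x i - μ) * (x j - μ) ∂(lam m) = c (((i : ℕ) - j) + (j - i)) := by
    intro i j
    rcases le_total i j with hij | hij
    · rw [h.cov m i j hij]
      congr 1
      have : (i : ℕ) ≤ j := hij
      omega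
    · have : (j : ℕ) ≤ i := hij
      rw [show (fun x : Fin (m + 1) → ℝ => (x i - μ) * (x j - μ)) = fun x => (x j - μ) * (x i - μ) from by
        funext x; ring, h.cov m j i hij]
      congr 1
      omega
  have hint : ∀ i j : Fin (m + 1), Integrable (fun x : Fin (m + 1) → ℝ => (x i - μ) * (x j - μ)) (lam m) :=
    fun i j => (hx i).integrable_mul (hx j)
  have h1 : ∀ x : Fin (m + 1) → ℝ, (∑ i, (x i - 1)) ^ 2 =
      (∑ i, ∑ j, (x i - μ) * (x j - μ)) + 2 * ((μ - 1) * ((m : ℝ) + 1)) * ∑ i, (x i - μ) +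
        (μ - 1) ^ 2 * ((m : ℝ) + 1) ^ 2 := by
    intro x
    have e1 : ∑ i, (x i - 1) = ∑ i, (x i - μ) + (μ - 1) * ((m : ℝ) + 1) := by
      rw [show (fun i : Fin (m + 1) => x i - 1) = fun i => (x i - μ) + (μ - 1) from by funext i; ring]
      rw [sum_add_distrib, sum_const, card_univ, Fintype.card_fin, nsmul_eq_mul]
      push_cast
      ring
    have e2 : ∑ i, ∑ j, (x i - μ) * (x j - μ) = (∑ i, (x i - μ)) ^ 2 := by
      rw [sq, Finset.sum_mul_sum]
    rw [e1, e2]
    ring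
  simp only [h1]
  have i1 : Integrable (fun x : Fin (m + 1) → ℝ => ∑ i, ∑ j, (x i - μ) * (x j - μ)) (lam m) :=
    integrable_finsetSum _ fun i _ => integrable_finsetSum _ fun j _ => hint i j
  have i2 : Integrable (fun x : Fin (m + 1) → ℝ => ∑ i, (x i - μ)) (lam m) :=
    integrable_finsetSum _ fun i _ => (hx i).integrable (by norm_num)
  have i3 : Integrable (fun x : Fin (m + 1) → ℝ =>
      2 * ((μ - 1) * ((m : ℝ) + 1)) * ∑ i, (x i - μ)) (lam m) := i2.const_mul _
  have i4 : Integrable (fun x : Fin (m + 1) → ℝ => ∑ i, ∑ j, (x i - μ) * (x j - μ) +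
      2 * ((μ - 1) * ((m : ℝ) + 1)) * ∑ i, (x i - μ)) (lam m) := i1.add i3
  rw [integral_add i4 (integrable_const _), integral_add i1 i3,
    integral_finsetSum _ (fun i _ => integrable_finsetSum _ fun j _ => hint i j), integral_const_mul,
    integral_finsetSum _ (fun i _ => (hx i).integrable (by norm_num)), integral_const]
  have e3 : ∀ i : Fin (m + 1), ∫ x, (x i - μ) ∂(lam m) = 0 := by
    intro i
    rw [integral_sub ((h.sq m i).integrable (by norm_num)) (integrable_const _), h.mean, integral_const]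
    simp
  have e4 : ∀ i : Fin (m + 1), ∫ x, ∑ j, (x i - μ) * (x j - μ) ∂(lam m) =
      ∑ j : Fin (m + 1), c (((i : ℕ) - j) + (j - i)) := by
    intro i
    rw [integral_finsetSum _ (fun j _ => hint i j)]
    exact sum_congr rfl fun j _ => hc i j
  simp only [e3, e4, sum_const_zero, mul_zero, add_zero]
  unfold S
  rw [← Fin.sum_univ_eq_sum_range (fun i => ∑ j ∈ range (m + 1), c ((i - j) + (j - i)))]
  congr 1
  · apply sum_congr rfl
    intro i _
    rw [← Fin.sum_univ_eq_sum_range (fun j => c (((i : ℕ) - j) + (j - i)))]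
  · simp

theorem ws_linRec {lam : ∀ m : ℕ, Measure (Fin (m + 1) → ℝ)} [∀ m, IsProbabilityMeasure (lam m)] {μ : ℝ}
    {c : ℕ → ℝ} (h : WeaklyStationary lam μ c) (hc : LinRec c) :
    LinRec (fun m => ∫ x : Fin (m + 1) → ℝ, (∑ i, (x i - 1)) ^ 2 ∂(lam m)) := by
  have := cov_linRec hc ((μ - 1) ^ 2)
  simp only [ws_sq h]
  exact this

/-- covariances that vanish from some index on -/
lemma linRec_zero {c : ℕ → ℝ} {k : ℕ} (h : ∀ n, k ≤ n → c n = 0) : LinRec c :=
  ⟨1, k, one_ne_zero, fun n hn => by simp [h n hn]⟩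

end Pool.Agent.U403.FS
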