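import Pool.Agent.U403.Abel
import Pool.Agent.U403.MLim
import Pool.Agent.U403.Rat
import Pool.Agent.U139.GC.Zeta

/-! # The limits of the block laws of the gaps between zeta zeros have no finite model -/

set_option autoImplicit false

open Filter Topology Finset MeasureTheory ProbabilityTheory
open scoped NNReal ENNReal

namespace Pool.Agent.U403.FS

open LG (dlt)

/-- the laws `lam m` are the limits of the laws of the blocks `e n, …, e (n + m)`, `n ≤ N k` -/
def Limit (e : ℕ → ℝ) (N : ℕ → ℕ) (lam : ∀ m : ℕ, Measure (Fin (m + 1) → ℝ)) : Prop :=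
  Tendsto N atTop atTop ∧ ∀ (m : ℕ) (g : (Fin (m + 1) → ℝ) → ℝ), (∃ C : ℝ≥0, LipschitzWith C g) →
    (∃ B, ∀ x, |g x| ≤ B) →
    Tendsto (fun k => (1 / (N k : ℝ)) * ∑ n ∈ Icc 1 (N k), g (fun i => e (n + i))) atTop
      (𝓝 (∫ x, g x ∂(lam m)))

lemma sum_lip (m : ℕ) : LipschitzWith ((m : ℝ≥0) + 1) (fun x : Fin (m + 1) → ℝ => ∑ i, (x i - 1)) := by
  refine LipschitzWith.of_dist_le_mul fun x x' => ?_
  rw [Real.dist_eq, ← sum_sub_distrib]
  refine (abs_sum_le_sum_abs _ _).trans ?_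
  have h1 : ∀ i ∈ (univ : Finset (Fin (m + 1))), |x i - 1 - (x' i - 1)| ≤ dist x x' := by
    intro i _
    have := dist_le_pi_dist x x' i
    rw [Real.dist_eq] at this
    refine le_trans (le_of_eq ?_) this
    congr 1
    ring
  refine (sum_le_sum h1).trans (le_of_eq ?_)
  rw [sum_const, card_univ, Fintype.card_fin, nsmul_eq_mul]
  push_cast
  rfl

lemma limit_transfer {d e : ℕ → ℝ} (h : Tendsto (fun j => d j - e j) atTop (𝓝 0)) {N : ℕ → ℕ}
    {lam : ∀ m : ℕ, Measure (Fin (m + 1) → ℝ)} (hl : Limit e N lam) : Limit d N lam := by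
  refine ⟨hl.1, fun m g hg hb => ?_⟩
  obtain ⟨C, hC⟩ := hg
  have h1 := hl.2 m g ⟨C, hC⟩ hb
  have h2 : Tendsto (fun n : ℕ => g (fun i : Fin (m + 1) => d (n + i)) - g (fun i => e (n + i))) atTop
      (𝓝 0) := by
    have h3 : Tendsto (fun n : ℕ => (C : ℝ) * dist (fun i : Fin (m + 1) => d (n + i))
        (fun i => e (n + i))) atTop (𝓝 0) := by
      have h4 : Tendsto (fun n : ℕ => ∑ i : Fin (m + 1), |d (n + i) - e (n + i)|) atTop (𝓝 0) := by
        rw [show (0 : ℝ) = ∑ i : Fin (m + 1), |(0 : ℝ)| from by simp]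
        apply tendsto_finsetSum
        intro i _
        exact (h.comp (tendsto_add_atTop_nat (i : ℕ))).abs
      have h5 : Tendsto (fun n : ℕ => dist (fun i : Fin (m + 1) => d (n + i)) (fun i => e (n + i)))
          atTop (𝓝 0) := by
        refine squeeze_zero (fun n => dist_nonneg) (fun n => ?_) h4
        rw [dist_pi_le_iff (sum_nonneg fun _ _ => abs_nonneg _)]
        intro i
        rw [Real.dist_eq]
        exact single_le_sum (f := fun i : Fin (m + 1) => |d (n + i) - e (n + i)|)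
          (fun _ _ => abs_nonneg _) (mem_univ i)
      have h6 := h5.const_mul (C : ℝ)
      rwa [mul_zero] at h6
    refine squeeze_zero_norm (fun n => ?_) h3
    rw [← dist_eq_norm]
    exact hC.dist_le_mul _ _
  have h7 := (av_null h2).comp hl.1
  have h8 := h7.add h1
  rw [zero_add] at h8
  refine h8.congr fun k => ?_
  show av (N k) _ + _ = _
  unfold av
  rw [← mul_add, ← sum_add_distrib]
  simp only [sub_add_cancel]

theorem limit_var (hRH : SP.RHs) {N : ℕ → ℕ} {lam : ∀ m : ℕ, Measure (Fin (m + 1) → ℝ)}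
    [∀ m, IsFiniteMeasure (lam m)] (hl : Limit dlt N lam) (ε : ℝ) (hε : 0 < ε) :
    ∃ m0 : ℕ, ∀ m, m0 ≤ m →
      Integrable (fun x : Fin (m + 1) → ℝ => (∑ i, (x i - 1)) ^ 2) (lam m) ∧
      |∫ x : Fin (m + 1) → ℝ, (∑ i, (x i - 1)) ^ 2 ∂(lam m) - Real.log ((m : ℝ) + 1) / Real.pi ^ 2| ≤
        ε * Real.log ((m : ℝ) + 1) := by
  obtain ⟨m0, hm0⟩ := (Pool.Agent.U139.GC.second_zeta hRH ε hε).exists_forall_of_atTop
  have hP := Pool.Agent.U139.GC.pair_zeta hRH
  obtain ⟨C0, n0, hC0, hn0⟩ := hP.ex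
  obtain ⟨C, hC, hcube⟩ := hP.cube
  refine ⟨m0, fun m hm => ?_⟩
  obtain ⟨B, hB⟩ := third (fun n hn => (hn0 n hn).1) hC hcube (m + 1)
  have hsum : ∀ n : ℕ, ∑ i : Fin (m + 1), (dlt (n + i) - 1) = ∑ i ∈ range (m + 1), (dlt (n + i) - 1) :=
    fun n => Fin.sum_univ_eq_sum_range (fun i => dlt (n + i) - 1) (m + 1)
  have hN2 : ∀ᶠ M : ℕ in atTop, 1 ≤ M ∧ ((m + 1 : ℕ) : ℝ) * Real.log ((m + 1 : ℕ) : ℝ) ≤ Real.log M := by
    have h1 : Tendsto (fun M : ℕ => Real.log (M : ℝ)) atTop atTop :=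
      Real.tendsto_log_atTop.comp tendsto_natCast_atTop_atTop
    exact (eventually_ge_atTop 1).and (h1.eventually_ge_atTop _)
  have hkey : ∀ᶠ M : ℕ in atTop,
      |av M (fun n => (∑ i : Fin (m + 1), (dlt (n + i) - 1)) ^ 2) -
        Real.log ((m : ℝ) + 1) / Real.pi ^ 2| ≤ ε * Real.log ((m : ℝ) + 1) := by
    filter_upwards [hN2] with M ⟨hM1, hM2⟩
    have h1 := (hm0 (m + 1) (by omega) M hM1 hM2).1
    have e1 : 1 / Real.pi ^ 2 * Real.log ((m + 1 : ℕ) : ℝ) = Real.log ((m : ℝ) + 1) / Real.pi ^ 2 := by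
      push_cast
      ring
    rw [e1] at h1
    push_cast at h1
    unfold av
    simp only [hsum]
    exact h1
  have h := moment_limit (lam := lam m) (sum_lip m) (blk := fun n i => dlt (n + i)) hl.1
    (fun g hg hb => hl.2 m g hg hb) (B := B)
    (lo := Real.log ((m : ℝ) + 1) / Real.pi ^ 2 - ε * Real.log ((m : ℝ) + 1))
    (hi := Real.log ((m : ℝ) + 1) / Real.pi ^ 2 + ε * Real.log ((m : ℝ) + 1))
    (by
      filter_upwards [hB] with M hM
      simp only [hsum]
      exact hM)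
    (by
      filter_upwards [hkey] with M hM
      linarith [(abs_le.1 hM).1])
    (by
      filter_upwards [hkey] with M hM
      linarith [(abs_le.1 hM).2])
  refine ⟨h.1, ?_⟩
  rw [abs_le]
  constructor <;> linarith [h.2.1, h.2.2]

theorem limit_not_linRec (hRH : SP.RHs) {N : ℕ → ℕ} {lam : ∀ m : ℕ, Measure (Fin (m + 1) → ℝ)}
    [∀ m, IsFiniteMeasure (lam m)] (hl : Limit dlt N lam) :
    ¬ LinRec (fun m => ∫ x : Fin (m + 1) → ℝ, (∑ i, (x i - 1)) ^ 2 ∂(lam m)) := by
  rintro ⟨p, n0, hp, hrec⟩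
  have hpi := Real.pi_pos
  obtain ⟨a, ha⟩ : ∃ a : ℕ → ℝ, a = fun m => ∫ x : Fin (m + 1) → ℝ, (∑ i, (x i - 1)) ^ 2 ∂(lam m) :=
    ⟨_, rfl⟩
  rw [← ha] at hrec
  have hπ : 0 < 1 / Real.pi ^ 2 := by positivity
  obtain ⟨m0, hm0⟩ := limit_var hRH hl (1 / (2 * Real.pi ^ 2)) (by positivity)
  have hlog : Tendsto (fun m : ℕ => Real.log ((m : ℝ) + 1)) atTop atTop :=
    Real.tendsto_log_atTop.comp (tendsto_atTop_add_const_right _ _ tendsto_natCast_atTop_atTop)
  have h1 : ∀ m, m0 ≤ m → 1 / (2 * Real.pi ^ 2) * Real.log ((m : ℝ) + 1) ≤ a m ∧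
      a m ≤ 2 / Real.pi ^ 2 * Real.log ((m : ℝ) + 1) := by
    intro m hm
    have h2 := abs_le.1 (hm0 m hm).2
    have hl0 : 0 ≤ Real.log ((m : ℝ) + 1) := Real.log_nonneg (by
      have : (0 : ℝ) ≤ m := Nat.cast_nonneg m
      linarith)
    have e1 : Real.log ((m : ℝ) + 1) / Real.pi ^ 2 =
        2 * (1 / (2 * Real.pi ^ 2) * Real.log ((m : ℝ) + 1)) := by
      field_simp
    have e2 : 2 / Real.pi ^ 2 * Real.log ((m : ℝ) + 1) =
        4 * (1 / (2 * Real.pi ^ 2) * Real.log ((m : ℝ) + 1)) := by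
      field_simp
      ring
    have e3 : 0 ≤ 1 / (2 * Real.pi ^ 2) * Real.log ((m : ℝ) + 1) := by positivity
    rw [e1] at h2
    rw [ha, e2]
    constructor <;> linarith [h2.1, h2.2]
  have ht : Tendsto a atTop atTop := by
    have h2 : Tendsto (fun m : ℕ => 1 / (2 * Real.pi ^ 2) * Real.log ((m : ℝ) + 1)) atTop atTop :=
      hlog.const_mul_atTop (by positivity)
    refine tendsto_atTop_mono' _ ?_ h2
    filter_upwards [eventually_ge_atTop m0] with m hm
    exact (h1 m hm).1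
  have hz : Tendsto (fun m : ℕ => a m / m) atTop (𝓝 0) := by
    have h2 : Tendsto (fun m : ℕ => 2 / Real.pi ^ 2 * (2 * (Real.sqrt ((m : ℝ) + 1) / m))) atTop
        (𝓝 (2 / Real.pi ^ 2 * (2 * 0))) := by
      apply Tendsto.const_mul
      apply Tendsto.const_mul
      have h3 : Tendsto (fun m : ℕ => 2 / Real.sqrt (m : ℝ)) atTop (𝓝 0) := by
        apply Tendsto.const_div_atTop
        exact Real.tendsto_sqrt_atTop.comp tendsto_natCast_atTop_atTop
      refine squeeze_zero' (Eventually.of_forall fun m => by positivity) ?_ h3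
      filter_upwards [eventually_ge_atTop 1] with m hm
      have hm1 : (1 : ℝ) ≤ m := by exact_mod_cast hm
      have hs : 0 < Real.sqrt (m : ℝ) := Real.sqrt_pos.2 (by linarith)
      rw [div_le_div_iff₀ (by linarith) hs]
      have h4 : Real.sqrt ((m : ℝ) + 1) ≤ 2 * Real.sqrt m := by
        rw [Real.sqrt_le_left (by positivity), mul_pow, Real.sq_sqrt (by linarith)]
        linarith
      calc Real.sqrt ((m : ℝ) + 1) * Real.sqrt m ≤ 2 * Real.sqrt m * Real.sqrt m := by gcongr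
        _ = 2 * m := by rw [mul_assoc, Real.mul_self_sqrt (by linarith)]
    rw [mul_zero, mul_zero] at h2
    refine squeeze_zero' ?_ ?_ h2
    · filter_upwards [eventually_ge_atTop m0] with m hm
      have hl0 : 0 ≤ Real.log ((m : ℝ) + 1) := Real.log_nonneg (by
        have : (0 : ℝ) ≤ m := Nat.cast_nonneg m
        linarith)
      have h3 : 0 ≤ a m := le_trans (by positivity) (h1 m hm).1
      positivity
    · filter_upwards [eventually_ge_atTop m0, eventually_ge_atTop 1] with m hm hm1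
      have hm0' : (0 : ℝ) < m := by exact_mod_cast hm1
      have hl0 : Real.log ((m : ℝ) + 1) ≤ 2 * Real.sqrt ((m : ℝ) + 1) := by
        have h3 : (0 : ℝ) < Real.sqrt ((m : ℝ) + 1) := Real.sqrt_pos.2 (by positivity)
        have h4 := Real.log_le_sub_one_of_pos h3
        have h5 : Real.log ((m : ℝ) + 1) = 2 * Real.log (Real.sqrt ((m : ℝ) + 1)) := by
          rw [Real.log_sqrt (by positivity)]
          ring
        rw [h5]
        linarith
      calc a m / m ≤ (2 / Real.pi ^ 2 * Real.log ((m : ℝ) + 1)) / m := by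
            gcongr
            exact (h1 m hm).2
        _ ≤ (2 / Real.pi ^ 2 * (2 * Real.sqrt ((m : ℝ) + 1))) / m := by gcongr
        _ = _ := by ring
  exact no_rec ht hz p hp n0 hrec

end Pool.Agent.U403.FS
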