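import Mathlib

/-! # Hidden Markov processes with finitely many states: block sums -/

set_option autoImplicit false

open Filter Topology Finset MeasureTheory ProbabilityTheory
open scoped NNReal ENNReal

namespace Pool.Agent.U403.FS

/-- `a` satisfies a linear recurrence with constant coefficients, not all zero, from some index on -/
def LinRec (a : ℕ → ℝ) : Prop :=
  ∃ (p : Polynomial ℝ) (n0 : ℕ), p ≠ 0 ∧
    ∀ n, n0 ≤ n → ∑ j ∈ range (p.natDegree + 1), p.coeff j * a (n + j) = 0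

/-- linear functionals of the orbit of a linear map of a finite-dimensional space -/
lemma linRec_orbit {E : Type*} [AddCommGroup E] [Module ℝ E] [FiniteDimensional ℝ E]
    (L : E →ₗ[ℝ] E) (φ : E →ₗ[ℝ] ℝ) (z : E) : LinRec (fun n => φ ((L ^ n) z)) := by
  refine ⟨L.charpoly, 0, (LinearMap.charpoly_monic L).ne_zero, fun n _ => ?_⟩
  have h1 : Polynomial.aeval L L.charpoly = 0 := LinearMap.aeval_self_charpoly L
  rw [Polynomial.aeval_eq_sum_range] at h1
  have h2 : φ ((L ^ n) ((∑ j ∈ range (L.charpoly.natDegree + 1), L.charpoly.coeff j • L ^ j) z)) = 0 := by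
    rw [h1]
    simp
  rw [LinearMap.sum_apply, map_sum, map_sum] at h2
  rw [← h2]
  apply sum_congr rfl
  intro j _
  rw [LinearMap.smul_apply, map_smul, map_smul, smul_eq_mul]
  show L.charpoly.coeff j * φ ((L ^ (n + j)) z) = _
  rw [pow_add]
  rfl

/-- A hidden Markov process with `s` hidden states. -/
structure HMM (s : ℕ) where
  /-- initial distribution of the hidden chain -/
  init : Fin s → ℝ≥0
  /-- transition probabilities of the hidden chain -/
  trans : Fin s → Fin s → ℝ≥0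
  /-- distribution of the observed value in each hidden state -/
  em : Fin s → Measure ℝ
  init_sum : ∑ x, init x = 1
  trans_sum : ∀ x, ∑ y, trans x y = 1
  em_prob : ∀ x, IsProbabilityMeasure (em x)
  em_sq : ∀ x, MemLp (fun t : ℝ => t) 2 (em x)

variable {s : ℕ} (H : HMM s)

/-- the law of the first `m + 1` observed values -/
noncomputable def HMM.law (m : ℕ) : Measure (Fin (m + 1) → ℝ) :=
  ∑ y : Fin (m + 1) → Fin s, (H.init (y 0) * ∏ i : Fin m, H.trans (y i.castSucc) (y i.succ)) •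
    Measure.pi (fun i => H.em (y i))

instance (m : ℕ) : IsFiniteMeasure (H.law m) := by
  have := H.em_prob
  unfold HMM.law
  infer_instance

/-- centred mean -/
noncomputable def HMM.f (x : Fin s) : ℝ := ∫ t, (t - 1) ∂(H.em x)

/-- variance -/
noncomputable def HMM.v (x : Fin s) : ℝ := Var[fun t : ℝ => t - 1; H.em x]

lemma pi_sq {n : ℕ} (y : Fin n → Fin s) :
    Integrable (fun x : Fin n → ℝ => (∑ i, (x i - 1)) ^ 2) (Measure.pi (fun i => H.em (y i))) ∧
    ∫ x : Fin n → ℝ, (∑ i, (x i - 1)) ^ 2 ∂(Measure.pi (fun i => H.em (y i))) =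
      (∑ i, H.f (y i)) ^ 2 + ∑ i, H.v (y i) := by
  have := H.em_prob
  have hm : ∀ i : Fin n, MemLp (fun t : ℝ => t - 1) 2 (H.em (y i)) := fun i =>
    (H.em_sq (y i)).sub (memLp_const 1)
  have hm2 : ∀ i : Fin n, MemLp (fun x : Fin n → ℝ => x i - 1) 2 (Measure.pi (fun i => H.em (y i))) :=
    fun i => (hm i).comp_measurePreserving (measurePreserving_eval (fun i => H.em (y i)) i)
  have hsum : MemLp (∑ i, fun x : Fin n → ℝ => x i - 1) 2 (Measure.pi (fun i => H.em (y i))) :=
    memLp_finsetSum' _ fun i _ => hm2 i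
  have e0 : (fun x : Fin n → ℝ => (∑ i, (x i - 1)) ^ 2) = (∑ i, fun x : Fin n → ℝ => x i - 1) ^ 2 := by
    ext x
    simp
  have hv := variance_sum_pi (μ := fun i => H.em (y i)) (X := fun _ t => t - 1) hm
  have h2 := variance_eq_sub hsum
  have e1 : ∫ x, (∑ i, fun x : Fin n → ℝ => x i - 1) x ∂(Measure.pi (fun i => H.em (y i))) =
      ∑ i, H.f (y i) := by
    have e2 : (fun x : Fin n → ℝ => (∑ i, fun x : Fin n → ℝ => x i - 1) x) =
        fun x => ∑ i, (x i - 1) := by
      ext x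
      simp
    rw [e2, integral_finsetSum _ (fun i _ => (hm2 i).integrable (by norm_num))]
    apply sum_congr rfl
    intro i _
    exact integral_comp_eval (μ := fun i => H.em (y i)) (i := i) (f := fun t : ℝ => t - 1)
      (by fun_prop)
  constructor
  · rw [e0]
    exact hsum.integrable_sq
  · rw [e0]
    have h3 : ∑ i, H.v (y i) = Var[∑ i, fun x : Fin n → ℝ => x i - 1; Measure.pi (fun i => H.em (y i))] :=
      hv.symm
    rw [h3, h2, e1]
    ring

/-- weight of a path -/
noncomputable def HMM.w (m : ℕ) (y : Fin (m + 1) → Fin s) : ℝ :=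
  ∏ i : Fin m, (H.trans (y i.castSucc) (y i.succ) : ℝ)

noncomputable def HMM.F (m : ℕ) (y : Fin (m + 1) → Fin s) : ℝ := ∑ i, H.f (y i)

noncomputable def HMM.V (m : ℕ) (y : Fin (m + 1) → Fin s) : ℝ := ∑ i, H.v (y i)

lemma law_sq (m : ℕ) : ∫ x : Fin (m + 1) → ℝ, (∑ i, (x i - 1)) ^ 2 ∂(H.law m) =
    ∑ y : Fin (m + 1) → Fin s, (H.init (y 0) : ℝ) * (H.w m y * (H.F m y ^ 2 + H.V m y)) := by
  unfold HMM.law
  rw [integral_finsetSum_measure]
  · apply sum_congr rfl
    intro y _
    rw [integral_smul_nnreal_measure, (pi_sq H y).2, NNReal.smul_def, smul_eq_mul, NNReal.coe_mul,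
      NNReal.coe_prod]
    unfold HMM.w HMM.F HMM.V
    ring
  · intro y _
    exact (pi_sq H y).1.smul_measure_nnreal

/-- the vector of the path sums -/
noncomputable def HMM.z (m : ℕ) : Fin 3 → Fin s → ℝ :=
  ![fun x => ∑ y : Fin m → Fin s, H.w m (Fin.cons x y),
    fun x => ∑ y : Fin m → Fin s, H.w m (Fin.cons x y) * H.F m (Fin.cons x y),
    fun x => ∑ y : Fin m → Fin s, H.w m (Fin.cons x y) *
      (H.F m (Fin.cons x y) ^ 2 + H.V m (Fin.cons x y))]

/-- the transfer operator -/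
noncomputable def HMM.L : (Fin 3 → Fin s → ℝ) →ₗ[ℝ] (Fin 3 → Fin s → ℝ) where
  toFun z := ![fun x => ∑ x', (H.trans x x' : ℝ) * z 0 x',
    fun x => ∑ x', (H.trans x x' : ℝ) * (H.f x * z 0 x' + z 1 x'),
    fun x => ∑ x', (H.trans x x' : ℝ) * ((H.f x ^ 2 + H.v x) * z 0 x' + 2 * H.f x * z 1 x' + z 2 x')]
  map_add' z z' := by
    funext k x
    fin_cases k <;>
    · simp only [Fin.zero_eta, Fin.mk_one, Fin.reduceFinMk, Matrix.cons_val_zero, Matrix.cons_val_one,
        Matrix.cons_val, Pi.add_apply]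
      rw [← sum_add_distrib]
      apply sum_congr rfl
      intro x' _
      ring
  map_smul' c z := by
    funext k x
    fin_cases k <;>
    · simp only [Fin.zero_eta, Fin.mk_one, Fin.reduceFinMk, Matrix.cons_val_zero, Matrix.cons_val_one,
        Matrix.cons_val, Pi.smul_apply, smul_eq_mul, RingHom.id_apply]
      rw [mul_sum]
      apply sum_congr rfl
      intro x' _
      ring

lemma w_cons (m : ℕ) (x x' : Fin s) (y : Fin m → Fin s) :
    H.w (m + 1) (Fin.cons x (Fin.cons x' y : Fin (m + 1) → Fin s)) =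
      H.trans x x' * H.w m (Fin.cons x' y) := by
  unfold HMM.w
  rw [Fin.prod_univ_succ]
  congr 1

lemma F_cons (m : ℕ) (x : Fin s) (y : Fin (m + 1) → Fin s) :
    H.F (m + 1) (Fin.cons x y) = H.f x + H.F m y := by
  unfold HMM.F
  rw [Fin.sum_univ_succ]
  rfl

lemma V_cons (m : ℕ) (x : Fin s) (y : Fin (m + 1) → Fin s) :
    H.V (m + 1) (Fin.cons x y) = H.v x + H.V m y := by
  unfold HMM.V
  rw [Fin.sum_univ_succ]
  rfl

lemma sum_cons {n : ℕ} (g : (Fin (n + 1) → Fin s) → ℝ) :
    ∑ y : Fin (n + 1) → Fin s, g y = ∑ x, ∑ y : Fin n → Fin s, g (Fin.cons x y) := by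
  rw [← Fintype.sum_prod_type']
  exact ((Fin.consEquiv (fun _ => Fin s)).sum_comp g).symm

lemma z_succ (m : ℕ) : H.z (m + 1) = H.L (H.z m) := by
  funext k x
  fin_cases k
  · show ∑ y : Fin (m + 1) → Fin s, H.w (m + 1) (Fin.cons x y) =
      ∑ x', (H.trans x x' : ℝ) * ∑ y : Fin m → Fin s, H.w m (Fin.cons x' y)
    rw [sum_cons]
    apply sum_congr rfl
    intro x' _
    rw [mul_sum]
    exact sum_congr rfl fun y _ => w_cons H m x x' y
  · show ∑ y : Fin (m + 1) → Fin s, H.w (m + 1) (Fin.cons x y) * H.F (m + 1) (Fin.cons x y) =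
      ∑ x', (H.trans x x' : ℝ) * (H.f x * ∑ y : Fin m → Fin s, H.w m (Fin.cons x' y) +
        ∑ y : Fin m → Fin s, H.w m (Fin.cons x' y) * H.F m (Fin.cons x' y))
    rw [sum_cons]
    apply sum_congr rfl
    intro x' _
    rw [mul_sum, ← sum_add_distrib, mul_sum]
    refine sum_congr rfl fun y _ => ?_
    rw [w_cons, F_cons]
    ring
  · show ∑ y : Fin (m + 1) → Fin s, H.w (m + 1) (Fin.cons x y) *
        (H.F (m + 1) (Fin.cons x y) ^ 2 + H.V (m + 1) (Fin.cons x y)) =
      ∑ x', (H.trans x x' : ℝ) * ((H.f x ^ 2 + H.v x) * ∑ y : Fin m → Fin s, H.w m (Fin.cons x' y) +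
        2 * H.f x * ∑ y : Fin m → Fin s, H.w m (Fin.cons x' y) * H.F m (Fin.cons x' y) +
        ∑ y : Fin m → Fin s, H.w m (Fin.cons x' y) *
          (H.F m (Fin.cons x' y) ^ 2 + H.V m (Fin.cons x' y)))
    rw [sum_cons]
    apply sum_congr rfl
    intro x' _
    rw [mul_sum, mul_sum, ← sum_add_distrib, ← sum_add_distrib, mul_sum]
    refine sum_congr rfl fun y _ => ?_
    rw [w_cons, F_cons, V_cons]
    ring

lemma z_eq (m : ℕ) : H.z m = (H.L ^ m) (H.z 0) := by
  induction m with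
  | zero => rfl
  | succ m ih => rw [z_succ, ih, pow_succ', Module.End.mul_apply]

/-- the functional -/
noncomputable def HMM.phi : (Fin 3 → Fin s → ℝ) →ₗ[ℝ] ℝ where
  toFun z := ∑ x, (H.init x : ℝ) * z 2 x
  map_add' z z' := by
    rw [← sum_add_distrib]
    exact sum_congr rfl fun x _ => by simp only [Pi.add_apply]; ring
  map_smul' c z := by
    rw [RingHom.id_apply, smul_eq_mul, mul_sum]
    exact sum_congr rfl fun x _ => by simp only [Pi.smul_apply, smul_eq_mul]; ring

/-- **The second moments of the block sums of a hidden Markov process satisfy a linear recurrence.** -/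
theorem hmm_linRec : LinRec (fun m => ∫ x : Fin (m + 1) → ℝ, (∑ i, (x i - 1)) ^ 2 ∂(H.law m)) := by
  have h : (fun m => ∫ x : Fin (m + 1) → ℝ, (∑ i, (x i - 1)) ^ 2 ∂(H.law m)) =
      fun m => H.phi ((H.L ^ m) (H.z 0)) := by
    funext m
    rw [law_sq, ← z_eq, sum_cons]
    show _ = ∑ x, (H.init x : ℝ) * ∑ y : Fin m → Fin s, H.w m (Fin.cons x y) *
      (H.F m (Fin.cons x y) ^ 2 + H.V m (Fin.cons x y))
    apply sum_congr rfl
    intro x _
    rw [mul_sum]
    exact sum_congr rfl fun y _ => by rw [Fin.cons_zero]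
  rw [h]
  exact linRec_orbit H.L H.phi (H.z 0)

end Pool.Agent.U403.FS
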