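import Mathlib

/-! # The orthant probabilities of the normal law in the plane -/

set_option autoImplicit false

open MeasureTheory ProbabilityTheory Filter Topology Set

namespace Pool.Agent.U403.OR

/-- the plane -/
abbrev E2 := EuclideanSpace ℝ (Fin 2)

/-- the standard normal law in the plane -/
noncomputable def g2 : Measure (ℝ × ℝ) := (gaussianReal 0 1).prod (gaussianReal 0 1)

instance : IsProbabilityMeasure g2 := by unfold g2; infer_instance

/-- the density in polar coordinates -/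
noncomputable def dd (r : ℝ) : ENNReal :=
  ENNReal.ofReal r * ENNReal.ofReal ((2 * Real.pi)⁻¹ * Real.exp (-(r ^ 2) / 2))

lemma dd_meas : Measurable dd := by
  unfold dd
  fun_prop

lemma pdf_mul (x y : ℝ) : gaussianPDF 0 1 x * gaussianPDF 0 1 y =
    ENNReal.ofReal ((2 * Real.pi)⁻¹ * Real.exp (-(x ^ 2 + y ^ 2) / 2)) := by
  unfold gaussianPDF
  rw [← ENNReal.ofReal_mul (gaussianPDFReal_nonneg _ _ _)]
  congr 1
  unfold gaussianPDFReal
  have hs : (Real.sqrt (2 * Real.pi * ((1 : NNReal) : ℝ)))⁻¹ * (Real.sqrt (2 * Real.pi * ((1 : NNReal) : ℝ)))⁻¹ =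
      (2 * Real.pi)⁻¹ := by
    rw [← mul_inv, Real.mul_self_sqrt (by positivity)]
    norm_num
  have he : Real.exp (-(x - 0) ^ 2 / (2 * ((1 : NNReal) : ℝ))) *
      Real.exp (-(y - 0) ^ 2 / (2 * ((1 : NNReal) : ℝ))) = Real.exp (-(x ^ 2 + y ^ 2) / 2) := by
    rw [← Real.exp_add]
    congr 1
    push_cast
    ring
  rw [← hs, ← he]
  ring

lemma g2_dens : g2 = (volume : Measure (ℝ × ℝ)).withDensity
    (fun z => ENNReal.ofReal ((2 * Real.pi)⁻¹ * Real.exp (-(z.1 ^ 2 + z.2 ^ 2) / 2))) := by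
  unfold g2
  rw [gaussianReal_of_var_ne_zero 0 one_ne_zero,
    prod_withDensity (measurable_gaussianPDF 0 1) (measurable_gaussianPDF 0 1)]
  congr 1
  funext z
  exact pdf_mul z.1 z.2

/-- the mass of a cone -/
lemma cone (S : Set (ℝ × ℝ)) (hS : MeasurableSet S) (T : Set ℝ) (hT : MeasurableSet T)
    (h : ∀ r θ : ℝ, 0 < r → θ ∈ Ioo (-Real.pi) Real.pi →
      ((r * Real.cos θ, r * Real.sin θ) ∈ S ↔ θ ∈ T)) :
    g2 S = (∫⁻ r in Ioi (0 : ℝ), dd r) * volume (T ∩ Ioo (-Real.pi) Real.pi) := by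
  classical
  rw [g2_dens, withDensity_apply _ hS, ← lintegral_indicator hS, ← lintegral_comp_polarCoord_symm]
  have e1 : ∀ p ∈ polarCoord.target, ENNReal.ofReal p.1 • S.indicator
      (fun z : ℝ × ℝ => ENNReal.ofReal ((2 * Real.pi)⁻¹ * Real.exp (-(z.1 ^ 2 + z.2 ^ 2) / 2)))
      (polarCoord.symm p) = dd p.1 * T.indicator (fun _ => (1 : ENNReal)) p.2 := by
    intro p hp
    rw [polarCoord_target] at hp
    obtain ⟨h1, h2⟩ := hp
    rw [polarCoord_symm_apply]
    have h3 := h p.1 p.2 h1 h2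
    by_cases h4 : p.2 ∈ T
    · rw [indicator_of_mem (h3.2 h4), indicator_of_mem h4, mul_one, smul_eq_mul]
      unfold dd
      congr 4
      have := Real.sin_sq_add_cos_sq p.2
      linear_combination (-(p.1 ^ 2) / 2) * this
    · rw [indicator_of_notMem (fun h5 => h4 (h3.1 h5)), indicator_of_notMem h4, mul_zero, smul_zero]
  rw [setLIntegral_congr_fun polarCoord.open_target.measurableSet e1, polarCoord_target,
    Measure.volume_eq_prod, ← Measure.prod_restrict,
    lintegral_prod_mul dd_meas.aemeasurable (measurable_const.indicator hT).aemeasurable]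
  congr 1
  rw [lintegral_indicator hT, setLIntegral_const, one_mul, Measure.restrict_apply hT]

lemma total : (∫⁻ r in Ioi (0 : ℝ), dd r) = ENNReal.ofReal (1 / (2 * Real.pi)) := by
  have h := cone univ MeasurableSet.univ univ MeasurableSet.univ (fun r θ _ _ => by simp)
  rw [measure_univ, univ_inter, Real.volume_Ioo, show Real.pi - -Real.pi = 2 * Real.pi by ring] at h
  have hpi := Real.pi_pos
  have h1 : ENNReal.ofReal (1 / (2 * Real.pi)) * ENNReal.ofReal (2 * Real.pi) = 1 := by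
    rw [← ENNReal.ofReal_mul (by positivity)]
    rw [one_div, inv_mul_cancel₀ (by positivity), ENNReal.ofReal_one]
  have h2 : ENNReal.ofReal (2 * Real.pi) ≠ 0 := by
    rw [Ne, ENNReal.ofReal_eq_zero, not_le]
    positivity
  rw [← h1] at h
  exact ((ENNReal.mul_left_inj h2 ENNReal.ofReal_ne_top).1 h).symm

/-- the sector -/
lemma sector (ρ : ℝ) (h1 : -1 < ρ) (h2 : ρ < 1) :
    g2.real {z : ℝ × ℝ | 0 < z.1 ∧ 0 < ρ * z.1 + Real.sqrt (1 - ρ ^ 2) * z.2} =
      1 / 4 + Real.arcsin ρ / (2 * Real.pi) := by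
  have hpi := Real.pi_pos
  obtain ⟨φ, hφ⟩ : ∃ φ : ℝ, φ = Real.arcsin ρ := ⟨_, rfl⟩
  have hsin : Real.sin φ = ρ := by rw [hφ]; exact Real.sin_arcsin h1.le h2.le
  have hcos : Real.cos φ = Real.sqrt (1 - ρ ^ 2) := by rw [hφ]; exact Real.cos_arcsin ρ
  have hφ1 : -(Real.pi / 2) < φ := by rw [hφ]; exact Real.neg_pi_div_two_lt_arcsin.2 h1
  have hφ2 : φ < Real.pi / 2 := by rw [hφ]; exact Real.arcsin_lt_pi_div_two.2 h2
  have hS : MeasurableSet {z : ℝ × ℝ | 0 < z.1 ∧ 0 < ρ * z.1 + Real.sqrt (1 - ρ ^ 2) * z.2} := by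
    apply MeasurableSet.inter
    · exact measurableSet_lt measurable_const measurable_fst
    · exact measurableSet_lt measurable_const ((measurable_fst.const_mul ρ).add (measurable_snd.const_mul _))
  have h := cone _ hS (Ioo (-φ) (Real.pi / 2)) measurableSet_Ioo (by
    intro r θ hr hθ
    rw [mem_ofPred_eq]
    have e1 : ρ * (r * Real.cos θ) + Real.sqrt (1 - ρ ^ 2) * (r * Real.sin θ) = r * Real.sin (θ + φ) := by
      rw [Real.sin_add, hsin, hcos]; ring
    dsimp only
    rw [e1, mul_pos_iff_of_pos_left hr, mul_pos_iff_of_pos_left hr]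
    constructor
    · rintro ⟨c1, c2⟩
      have d1 : -(Real.pi / 2) < θ ∧ θ < Real.pi / 2 := by
        constructor
        · by_contra hc
          push Not at hc
          have := Real.cos_nonpos_of_pi_div_two_le_of_le (x := -θ) (by linarith) (by linarith [hθ.1])
          rw [Real.cos_neg] at this
          linarith
        · by_contra hc
          push Not at hc
          have := Real.cos_nonpos_of_pi_div_two_le_of_le (x := θ) (by linarith) (by linarith [hθ.2])
          linarith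
      refine ⟨?_, d1.2⟩
      by_contra hc
      push Not at hc
      have := Real.sin_nonpos_of_nonpos_of_neg_pi_le (x := θ + φ) (by linarith) (by linarith [d1.1])
      linarith
    · rintro ⟨c1, c2⟩
      refine ⟨Real.cos_pos_of_mem_Ioo ⟨by linarith, c2⟩, Real.sin_pos_of_pos_of_lt_pi (by linarith) (by linarith)⟩)
  have hin : Ioo (-φ) (Real.pi / 2) ∩ Ioo (-Real.pi) Real.pi = Ioo (-φ) (Real.pi / 2) := by
    apply inter_eq_left.2
    intro x hx
    exact ⟨by linarith [hx.1], by linarith [hx.2]⟩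
  rw [total, hin, Real.volume_Ioo,
    ← ENNReal.ofReal_mul (by positivity)] at h
  rw [Measure.real, h, ENNReal.toReal_ofReal (by
    apply mul_nonneg (by positivity)
    linarith), ← hφ]
  field_simp
  ring

/-- the linear map -/
noncomputable def LL (s ρ : ℝ) (z : ℝ × ℝ) : E2 :=
  !₂[s * z.1, s * (ρ * z.1 + Real.sqrt (1 - ρ ^ 2) * z.2)]

lemma LL_meas (s ρ : ℝ) : Measurable (LL s ρ) := by
  unfold LL
  apply (WithLp.measurable_toLp 2 (Fin 2 → ℝ)).comp
  rw [measurable_pi_iff]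
  intro i
  fin_cases i
  · exact measurable_fst.const_mul s
  · exact ((measurable_fst.const_mul ρ).add (measurable_snd.const_mul _)).const_mul s

/-- the normal law in the plane with variances `s ^ 2` and correlation `ρ` -/
noncomputable def ga (s ρ : ℝ) : Measure E2 := g2.map (LL s ρ)

instance (s ρ : ℝ) : IsProbabilityMeasure (ga s ρ) := by
  unfold ga
  exact Measure.isProbabilityMeasure_map (LL_meas s ρ).aemeasurable

lemma g2_char (a b : ℝ) : ∫ z : ℝ × ℝ, Complex.exp (((a * z.1 + b * z.2 : ℝ) : ℂ) * Complex.I) ∂g2 =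
    (Real.exp (-(a ^ 2 + b ^ 2) / 2) : ℂ) := by
  have e1 : ∀ z : ℝ × ℝ, Complex.exp (((a * z.1 + b * z.2 : ℝ) : ℂ) * Complex.I) =
      Complex.exp ((a : ℂ) * z.1 * Complex.I) * Complex.exp ((b : ℂ) * z.2 * Complex.I) := by
    intro z
    rw [← Complex.exp_add]
    congr 1
    push_cast
    ring
  simp_rw [e1]
  unfold g2
  rw [integral_prod_mul (fun x : ℝ => Complex.exp ((a : ℂ) * x * Complex.I))
    (fun x : ℝ => Complex.exp ((b : ℂ) * x * Complex.I)), ← charFun_apply_real, ← charFun_apply_real,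
    charFun_gaussianReal, charFun_gaussianReal, ← Complex.exp_add]
  push_cast
  congr 1
  ring

lemma ga_char (s ρ : ℝ) (h1 : ρ ^ 2 ≤ 1) (t : E2) : charFun (ga s ρ) t =
    (Real.exp (-(s ^ 2 * ((t 0) ^ 2 + (t 1) ^ 2 + 2 * ρ * (t 0 * t 1))) / 2) : ℂ) := by
  unfold ga
  rw [charFun_apply, integral_map (LL_meas s ρ).aemeasurable (by
    apply Measurable.aestronglyMeasurable
    fun_prop)]
  have e1 : ∀ z : ℝ × ℝ, inner ℝ (LL s ρ z) t = (s * (t 0 + ρ * t 1)) * z.1 +
      (s * Real.sqrt (1 - ρ ^ 2) * t 1) * z.2 := by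
    intro z
    unfold LL
    rw [PiLp.inner_apply, Fin.sum_univ_two]
    simp
    ring
  simp_rw [e1]
  rw [g2_char]
  congr 2
  have h2 : Real.sqrt (1 - ρ ^ 2) ^ 2 = 1 - ρ ^ 2 := Real.sq_sqrt (by linarith)
  linear_combination (-(s ^ 2 * t 1 ^ 2) / 2) * h2

lemma g2_neg : g2.map (fun z => -z) = g2 := by
  have h : (gaussianReal 0 1).map (fun x : ℝ => -x) = gaussianReal 0 1 := by
    rw [gaussianReal_map_neg, neg_zero]
  have h2 := Measure.map_prod_map (gaussianReal 0 1) (gaussianReal 0 1) (f := fun x : ℝ => -x)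
    (g := fun x : ℝ => -x) measurable_neg measurable_neg
  rw [h] at h2
  exact h2.symm

/-- the lines through `0` -/
lemma line (φ : ℝ) : g2 {z : ℝ × ℝ | Real.sin φ * z.1 + Real.cos φ * z.2 = 0} = 0 := by
  have hm : Measurable fun z : ℝ × ℝ => Real.sin φ * z.1 + Real.cos φ * z.2 :=
    (measurable_fst.const_mul _).add (measurable_snd.const_mul _)
  have hc : ({θ : ℝ | Real.sin (θ + φ) = 0}).Countable := by
    refine (countable_range (fun n : ℤ => (n : ℝ) * Real.pi - φ)).mono ?_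
    intro θ hθ
    obtain ⟨n, hn⟩ := Real.sin_eq_zero_iff.1 hθ
    exact ⟨n, by simp only; linarith⟩
  rw [cone _ (measurableSet_eq_fun hm measurable_const) {θ : ℝ | Real.sin (θ + φ) = 0}
    (measurableSet_eq_fun (by fun_prop) measurable_const) (by
      intro r θ hr _
      rw [mem_ofPred_eq, mem_ofPred_eq]
      dsimp only
      have e1 : Real.sin φ * (r * Real.cos θ) + Real.cos φ * (r * Real.sin θ) = r * Real.sin (θ + φ) := by
        rw [Real.sin_add]; ring
      rw [e1, mul_eq_zero, or_iff_right hr.ne']),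
    measure_mono_null inter_subset_left (hc.measure_zero volume), mul_zero]

/-- the half planes -/
lemma half (φ : ℝ) : g2.real {z : ℝ × ℝ | 0 < Real.sin φ * z.1 + Real.cos φ * z.2} = 1 / 2 := by
  have hm : Measurable fun z : ℝ × ℝ => Real.sin φ * z.1 + Real.cos φ * z.2 :=
    (measurable_fst.const_mul _).add (measurable_snd.const_mul _)
  obtain ⟨P, hP⟩ : ∃ P : Set (ℝ × ℝ), P = {z : ℝ × ℝ | 0 < Real.sin φ * z.1 + Real.cos φ * z.2} := ⟨_, rfl⟩
  obtain ⟨Q, hQ⟩ : ∃ Q : Set (ℝ × ℝ), Q = {z : ℝ × ℝ | Real.sin φ * z.1 + Real.cos φ * z.2 < 0} := ⟨_, rfl⟩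
  have hPm : MeasurableSet P := by rw [hP]; exact measurableSet_lt measurable_const hm
  have hQm : MeasurableSet Q := by rw [hQ]; exact measurableSet_lt hm measurable_const
  have e1 : g2.real P = g2.real Q := by
    have h1 : g2.real P = (g2.map (fun z => -z)).real P := by rw [g2_neg]
    rw [h1, map_measureReal_apply measurable_neg hPm]
    congr 1
    ext z
    rw [hP, hQ, mem_preimage, mem_ofPred_eq, mem_ofPred_eq, Prod.fst_neg, Prod.snd_neg]
    constructor <;> intro h <;> linarith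
  have e2 : g2.real (P ∪ Q) = 1 := by
    have h0 : g2.real (P ∪ Q)ᶜ = 0 := by
      rw [Measure.real, ENNReal.toReal_eq_zero_iff]
      left
      refine measure_mono_null ?_ (line φ)
      intro z hz
      rw [hP, hQ, mem_compl_iff, mem_union, not_or, mem_ofPred_eq, mem_ofPred_eq, not_lt, not_lt] at hz
      exact le_antisymm hz.1 hz.2
    have h1 := probReal_compl_eq_one_sub (μ := g2) (hPm.union hQm)
    linarith
  rw [measureReal_union (by
    rw [Set.disjoint_left]
    intro z h1 h2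
    rw [hP, mem_ofPred_eq] at h1
    rw [hQ, mem_ofPred_eq] at h2
    exact lt_asymm h1 h2) hQm] at e2
  rw [← hP]
  linarith

/-- the frontiers are null sets -/
lemma ga_null (s ρ : ℝ) (hs : 0 < s) (h1 : -1 < ρ) (h2 : ρ < 1) :
    ga s ρ {x : E2 | x 0 = 0} = 0 ∧ ga s ρ {x : E2 | x 1 = 0} = 0 := by
  have hm0 : MeasurableSet {x : E2 | x 0 = 0} := measurableSet_eq_fun (by fun_prop) measurable_const
  have hm1 : MeasurableSet {x : E2 | x 1 = 0} := measurableSet_eq_fun (by fun_prop) measurable_const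
  constructor
  · rw [ga, Measure.map_apply (LL_meas s ρ) hm0]
    refine measure_mono_null ?_ (line (Real.pi / 2))
    intro z hz
    rw [mem_preimage, mem_ofPred_eq] at hz
    rw [mem_ofPred_eq, Real.sin_pi_div_two, Real.cos_pi_div_two]
    have : s * z.1 = 0 := hz
    rcases mul_eq_zero.1 this with h | h
    · exact absurd h hs.ne'
    · rw [h]; ring
  · rw [ga, Measure.map_apply (LL_meas s ρ) hm1]
    refine measure_mono_null ?_ (line (Real.arcsin ρ))
    intro z hz
    rw [mem_preimage, mem_ofPred_eq] at hz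
    rw [mem_ofPred_eq, Real.sin_arcsin h1.le h2.le, Real.cos_arcsin]
    have : s * (ρ * z.1 + Real.sqrt (1 - ρ ^ 2) * z.2) = 0 := hz
    exact (mul_eq_zero.1 this).resolve_left hs.ne'

lemma ga_orth (s ρ : ℝ) (hs : 0 < s) (h1 : -1 < ρ) (h2 : ρ < 1) :
    (ga s ρ).real {x : E2 | 0 < x 0 ∧ 0 < x 1} = 1 / 4 + Real.arcsin ρ / (2 * Real.pi) ∧
    (ga s ρ).real {x : E2 | 0 < x 0} = 1 / 2 ∧ (ga s ρ).real {x : E2 | 0 < x 1} = 1 / 2 := by
  have hm0 : MeasurableSet {x : E2 | 0 < x 0} := measurableSet_lt measurable_const (by fun_prop)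
  have hm1 : MeasurableSet {x : E2 | 0 < x 1} := measurableSet_lt measurable_const (by fun_prop)
  refine ⟨?_, ?_, ?_⟩
  · have hm2 : MeasurableSet {x : E2 | 0 < x 0 ∧ 0 < x 1} := hm0.inter hm1
    rw [← sector ρ h1 h2, ga, map_measureReal_apply (LL_meas s ρ) hm2]
    congr 1
    ext z
    rw [mem_preimage, mem_ofPred_eq, mem_ofPred_eq]
    change (0 < s * z.1 ∧ 0 < s * (ρ * z.1 + Real.sqrt (1 - ρ ^ 2) * z.2)) ↔ _
    rw [mul_pos_iff_of_pos_left hs, mul_pos_iff_of_pos_left hs]
  · rw [← half (Real.pi / 2), ga, map_measureReal_apply (LL_meas s ρ) hm0]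
    congr 1
    ext z
    rw [mem_preimage, mem_ofPred_eq, mem_ofPred_eq, Real.sin_pi_div_two, Real.cos_pi_div_two]
    change (0 < s * z.1) ↔ _
    rw [mul_pos_iff_of_pos_left hs, one_mul, zero_mul, add_zero]
  · rw [← half (Real.arcsin ρ), ga, map_measureReal_apply (LL_meas s ρ) hm1]
    congr 1
    ext z
    rw [mem_preimage, mem_ofPred_eq, mem_ofPred_eq, Real.sin_arcsin h1.le h2.le, Real.cos_arcsin]
    change (0 < s * (ρ * z.1 + Real.sqrt (1 - ρ ^ 2) * z.2)) ↔ _
    rw [mul_pos_iff_of_pos_left hs]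

/-- **the limits of the orthant probabilities** -/
theorem lim (μ : ℕ → ProbabilityMeasure E2) (s ρ : ℝ) (hs : 0 < s) (h1 : -1 < ρ) (h2 : ρ < 1)
    (h : ∀ t : E2, Tendsto (fun n => charFun (μ n : Measure E2) t) atTop
      (𝓝 (Real.exp (-(s ^ 2 * ((t 0) ^ 2 + (t 1) ^ 2 + 2 * ρ * (t 0 * t 1))) / 2) : ℂ))) :
    Tendsto (fun n => (μ n : Measure E2).real {x : E2 | 0 < x 0 ∧ 0 < x 1}) atTop
      (𝓝 (1 / 4 + Real.arcsin ρ / (2 * Real.pi))) ∧
    Tendsto (fun n => (μ n : Measure E2).real {x : E2 | 0 < x 0}) atTop (𝓝 (1 / 2)) ∧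
    Tendsto (fun n => (μ n : Measure E2).real {x : E2 | 0 < x 1}) atTop (𝓝 (1 / 2)) := by
  obtain ⟨ν, hν⟩ : ∃ ν : ProbabilityMeasure E2, (ν : Measure E2) = ga s ρ := ⟨⟨ga s ρ, inferInstance⟩, rfl⟩
  have hρ : ρ ^ 2 ≤ 1 := by nlinarith
  have hconv : Tendsto μ atTop (𝓝 ν) := by
    apply ProbabilityMeasure.tendsto_of_tendsto_charFun
    intro t
    rw [hν, ga_char s ρ hρ t]
    exact h t
  obtain ⟨n0, n1⟩ := ga_null s ρ hs h1 h2
  obtain ⟨o1, o2, o3⟩ := ga_orth s ρ hs h1 h2
  have c0 : Continuous fun x : E2 => x 0 := by fun_prop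
  have c1 : Continuous fun x : E2 => x 1 := by fun_prop
  have f0 : (ν : Measure E2) (frontier {x : E2 | 0 < x 0}) = 0 := by
    rw [hν]
    refine measure_mono_null (fun x hx => ?_) n0
    exact (frontier_lt_subset_eq continuous_const c0 hx).symm
  have f1 : (ν : Measure E2) (frontier {x : E2 | 0 < x 1}) = 0 := by
    rw [hν]
    refine measure_mono_null (fun x hx => ?_) n1
    exact (frontier_lt_subset_eq continuous_const c1 hx).symm
  have f2 : (ν : Measure E2) (frontier {x : E2 | 0 < x 0 ∧ 0 < x 1}) = 0 := by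
    refine measure_mono_null ?_ (measure_union_null f0 f1)
    refine (frontier_inter_subset {x : E2 | 0 < x 0} {x : E2 | 0 < x 1}).trans ?_
    exact union_subset_union inter_subset_left inter_subset_right
  have key : ∀ S : Set E2, (ν : Measure E2) (frontier S) = 0 →
      Tendsto (fun n => (μ n : Measure E2).real S) atTop (𝓝 ((ν : Measure E2).real S)) := by
    intro S hS
    have := ProbabilityMeasure.tendsto_measure_of_null_frontier_of_tendsto' hconv hS
    exact (ENNReal.tendsto_toReal (measure_ne_top _ _)).comp this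
  have k0 := key _ f2
  have k1 := key _ f0
  have k2 := key _ f1
  rw [hν] at k0 k1 k2
  rw [o1] at k0
  rw [o2] at k1
  rw [o3] at k2
  exact ⟨k0, k1, k2⟩

end Pool.Agent.U403.OR
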