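import Pool.Agent.U403.Mix

/-! # Fluctuations at many scales -/

set_option autoImplicit false

open MeasureTheory Filter Topology Set ProbabilityTheory

namespace Pool.Agent.U403.SC

open Pool.Agent.U403.OR
open Pool.Agent.U403.MX (bs qf)

/-- the joint central limit theorem for two blocks -/
def Joint2 (d : ℕ → ℝ) : Prop := ∀ (c : Fin 2 → ℝ) (ε : ℝ), 0 < ε → ∀ᶠ r : ℕ in atTop, ∀ N : ℕ, 1 ≤ N →
    r * Real.log r ≤ Real.log N → ∀ b : Fin 2 → ℕ, (∀ i, 1 ≤ b i ∧ b i ≤ r) →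
    ‖∑ n ∈ Finset.Icc 1 N, (Complex.exp (Complex.I *
      (((∑ i, c i * (bs d (b i) n - b i)) / (Real.sqrt (Real.log r) / Real.pi) : ℝ) : ℂ)) -
      (Real.exp (-(qf c r b / 2)) : ℂ))‖ ≤ ε * N

/-- the empirical law -/
lemma emp2 (v : ℕ → E2) (N : ℕ) (hN : 1 ≤ N) : ∃ μ : ProbabilityMeasure E2,
    (∀ t : E2, charFun (μ : Measure E2) t =
      (∑ n ∈ Finset.Icc 1 N, Complex.exp (Complex.I * ((inner ℝ (v n) t : ℝ) : ℂ))) / N) ∧
    ∀ F : E2 → ℝ, ∫ x, F x ∂(μ : Measure E2) = (∑ n ∈ Finset.Icc 1 N, F (v n)) / N := by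
  classical
  have hN0 : (N : ENNReal) ≠ 0 := by
    have : N ≠ 0 := by omega
    exact_mod_cast this
  have hNt : (N : ENNReal) ≠ ⊤ := ENNReal.natCast_ne_top N
  obtain ⟨m, hm⟩ : ∃ m : Measure E2, m = (N : ENNReal)⁻¹ • ∑ n ∈ Finset.Icc 1 N, Measure.dirac (v n) :=
    ⟨_, rfl⟩
  have hp : IsProbabilityMeasure m := by
    constructor
    rw [hm, Measure.smul_apply, Measure.finsetSum_apply, smul_eq_mul]
    have e1 : ∀ n ∈ Finset.Icc 1 N, Measure.dirac (v n) (univ : Set E2) = (1 : ENNReal) := by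
      intro n _
      exact measure_univ
    rw [Finset.sum_congr rfl e1, Finset.sum_const, nsmul_eq_mul, mul_one, Nat.card_Icc, Nat.add_sub_cancel]
    exact ENNReal.inv_mul_cancel hN0 hNt
  refine ⟨⟨m, hp⟩, ?_, ?_⟩
  · intro t
    change charFun m t = _
    rw [charFun_apply, hm, integral_smul_measure, integral_finsetSum_measure (by
      intro n _
      exact integrable_dirac (by simp))]
    rw [ENNReal.toReal_inv, ENNReal.toReal_natCast]
    have e1 : ∀ n ∈ Finset.Icc 1 N, ∫ x : E2, Complex.exp (((inner ℝ x t : ℝ) : ℂ) * Complex.I)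
        ∂(Measure.dirac (v n)) = Complex.exp (Complex.I * ((inner ℝ (v n) t : ℝ) : ℂ)) := by
      intro n _
      rw [integral_dirac, mul_comm]
    rw [Finset.sum_congr rfl e1, Complex.real_smul]
    push_cast
    rw [div_eq_inv_mul]
  · intro F
    change ∫ x, F x ∂m = _
    rw [hm, integral_smul_measure, integral_finsetSum_measure (by
      intro n _
      exact integrable_dirac (by simp))]
    rw [ENNReal.toReal_inv, ENNReal.toReal_natCast]
    have e1 : ∀ n ∈ Finset.Icc 1 N, ∫ x : E2, F x ∂(Measure.dirac (v n)) = F (v n) := by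
      intro n _
      exact integral_dirac _ _
    rw [Finset.sum_congr rfl e1, smul_eq_mul, div_eq_inv_mul]

/-- the pair of normalised block sums -/
noncomputable def ww (d : ℕ → ℝ) (r a b : ℕ) (s t : ℝ) (j : ℕ) : E2 :=
  !₂[(bs d a j - a) / (Real.sqrt (Real.log r) / Real.pi * Real.sqrt s),
    (bs d b j - b) / (Real.sqrt (Real.log r) / Real.pi * Real.sqrt t)]

lemma inner_ww (d : ℕ → ℝ) (r a b : ℕ) (s t : ℝ) (j : ℕ) (x : E2) :
    inner ℝ (ww d r a b s t j) x =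
    (∑ i, (![x 0 / Real.sqrt s, x 1 / Real.sqrt t] : Fin 2 → ℝ) i * (bs d ((![a, b] : Fin 2 → ℕ) i) j -
      ((![a, b] : Fin 2 → ℕ) i : ℕ))) / (Real.sqrt (Real.log r) / Real.pi) := by
  unfold ww
  rw [PiLp.inner_apply, Fin.sum_univ_two, Fin.sum_univ_two]
  simp only [Matrix.cons_val_zero, Matrix.cons_val_one]
  simp only [RCLike.inner_apply, conj_trivial]
  ring

/-- the limit of the pair law -/
lemma pair_lim {d : ℕ → ℝ} (hd : Joint2 d) (r N a b : ℕ → ℕ) (hr : Tendsto r atTop atTop)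
    (hN : ∀ q, 1 ≤ N q) (hNr : ∀ q, r q * Real.log (r q) ≤ Real.log (N q))
    (hab : ∀ q, 1 ≤ a q ∧ a q ≤ r q ∧ 1 ≤ b q ∧ b q ≤ r q) (s t : ℝ) (ht : 0 < t) (hts : t < s)
    (h1 : Tendsto (fun q => Real.log (a q) / Real.log (r q)) atTop (𝓝 s))
    (h2 : Tendsto (fun q => Real.log (b q) / Real.log (r q)) atTop (𝓝 t))
    (h3 : Tendsto (fun q => Real.log (|((a q : ℕ) : ℝ) - (b q : ℕ)|) / Real.log (r q)) atTop (𝓝 s))
    (F : E2 → ℝ) (hF : Continuous F) (hb : ∃ C : ℝ, ∀ x, |F x| ≤ C) :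
    Tendsto (fun q => (∑ j ∈ Finset.Icc 1 (N q), F (ww d (r q) (a q) (b q) s t j)) / N q) atTop
      (𝓝 (∫ x, F x ∂(ga 1 (Real.sqrt (t / s) / 2)))) := by
  have hs : 0 < s := ht.trans hts
  have hss : 0 < Real.sqrt s := Real.sqrt_pos.2 hs
  have hst : 0 < Real.sqrt t := Real.sqrt_pos.2 ht
  choose μ hμ1 hμ2 using fun q => emp2 (ww d (r q) (a q) (b q) s t) (N q) (hN q)
  obtain ⟨ρ, hρ⟩ : ∃ ρ : ℝ, ρ = Real.sqrt (t / s) / 2 := ⟨_, rfl⟩
  have hρ0 : 0 ≤ ρ := by rw [hρ]; positivity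
  have hρ1 : ρ ^ 2 ≤ 1 := by
    rw [hρ, div_pow, Real.sq_sqrt (by positivity)]
    have : t / s ≤ 1 := by rw [div_le_one hs]; exact hts.le
    linarith
  obtain ⟨ν, hν⟩ : ∃ ν : ProbabilityMeasure E2, (ν : Measure E2) = ga 1 ρ := ⟨⟨ga 1 ρ, inferInstance⟩, rfl⟩
  have hconv : Tendsto μ atTop (𝓝 ν) := by
    apply ProbabilityMeasure.tendsto_of_tendsto_charFun
    intro x
    rw [hν, ga_char 1 ρ hρ1 x]
    have hq : Tendsto (fun q => qf (![x 0 / Real.sqrt s, x 1 / Real.sqrt t] : Fin 2 → ℝ) (r q)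
        (![a q, b q] : Fin 2 → ℕ)) atTop (𝓝 (x 0 ^ 2 + x 1 ^ 2 + 2 * ρ * (x 0 * x 1))) := by
      have e : ∀ q, qf (![x 0 / Real.sqrt s, x 1 / Real.sqrt t] : Fin 2 → ℝ) (r q)
          (![a q, b q] : Fin 2 → ℕ) = x 0 ^ 2 / (Real.sqrt s) ^ 2 * (Real.log (a q) / Real.log (r q)) +
          x 1 ^ 2 / (Real.sqrt t) ^ 2 * (Real.log (b q) / Real.log (r q)) +
          x 0 * x 1 / (Real.sqrt s * Real.sqrt t) * ((Real.log (a q) / Real.log (r q)) +
            (Real.log (b q) / Real.log (r q)) -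
            Real.log (|((a q : ℕ) : ℝ) - (b q : ℕ)|) / Real.log (r q)) := by
        intro q
        unfold qf
        simp only [Fin.sum_univ_two, Matrix.cons_val_zero, Matrix.cons_val_one]
        rw [sub_self, sub_self, abs_zero, Real.log_zero, abs_sub_comm ((b q : ℕ) : ℝ)]
        ring
      have e2 : x 0 ^ 2 + x 1 ^ 2 + 2 * ρ * (x 0 * x 1) = x 0 ^ 2 / (Real.sqrt s) ^ 2 * s +
          x 1 ^ 2 / (Real.sqrt t) ^ 2 * t +
          x 0 * x 1 / (Real.sqrt s * Real.sqrt t) * (s + t - s) := by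
        have f1 : Real.sqrt s ^ 2 = s := Real.sq_sqrt hs.le
        have f2 : Real.sqrt t ^ 2 = t := Real.sq_sqrt ht.le
        have f3 : ρ = Real.sqrt t / Real.sqrt s / 2 := by rw [hρ, Real.sqrt_div ht.le]
        have g1 : x 0 ^ 2 / (Real.sqrt s) ^ 2 * s = x 0 ^ 2 := by rw [f1]; field_simp
        have g2 : x 1 ^ 2 / (Real.sqrt t) ^ 2 * t = x 1 ^ 2 := by rw [f2]; field_simp
        have g3 : x 0 * x 1 / (Real.sqrt s * Real.sqrt t) * (s + t - s) =
            2 * (Real.sqrt t / Real.sqrt s / 2) * (x 0 * x 1) := by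
          rw [show s + t - s = Real.sqrt t ^ 2 by rw [f2]; ring]
          field_simp
        rw [g1, g2, g3, f3]
      rw [e2]
      simp_rw [e]
      exact ((h1.const_mul _).add (h2.const_mul _)).add (((h1.add h2).sub h3).const_mul _)
    have hq2 : Tendsto (fun q => (Real.exp (-(qf (![x 0 / Real.sqrt s, x 1 / Real.sqrt t] : Fin 2 → ℝ) (r q)
        (![a q, b q] : Fin 2 → ℕ) / 2)) : ℂ)) atTop
        (𝓝 (Real.exp (-(1 ^ 2 * ((x 0) ^ 2 + (x 1) ^ 2 + 2 * ρ * (x 0 * x 1))) / 2) : ℂ)) := by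
      have hc : Continuous fun y : ℝ => (Real.exp (-(y / 2)) : ℂ) := by fun_prop
      have := (hc.tendsto _).comp hq
      have e : -((x 0 ^ 2 + x 1 ^ 2 + 2 * ρ * (x 0 * x 1)) / 2) =
          -(1 ^ 2 * ((x 0) ^ 2 + (x 1) ^ 2 + 2 * ρ * (x 0 * x 1))) / 2 := by ring
      rw [e] at this
      exact this
    have hdif : Tendsto (fun q => charFun (μ q : Measure E2) x -
        (Real.exp (-(qf (![x 0 / Real.sqrt s, x 1 / Real.sqrt t] : Fin 2 → ℝ) (r q)
        (![a q, b q] : Fin 2 → ℕ) / 2)) : ℂ)) atTop (𝓝 0) := by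
      rw [Metric.tendsto_atTop]
      intro ε hε
      have hev := hr.eventually (hd (![x 0 / Real.sqrt s, x 1 / Real.sqrt t] : Fin 2 → ℝ) (ε / 2)
        (by positivity))
      obtain ⟨i0, hi0⟩ := eventually_atTop.1 hev
      refine ⟨i0, fun q hq' => ?_⟩
      rw [dist_zero_right, hμ1 q x]
      have h4 := hi0 q hq' (N q) (hN q) (hNr q) (![a q, b q] : Fin 2 → ℕ) (by
        intro l
        obtain ⟨g1, g2, g3, g4⟩ := hab q
        fin_cases l
        · exact ⟨g1, g2⟩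
        · exact ⟨g3, g4⟩)
      have hN0 : (0 : ℝ) < N q := by exact_mod_cast hN q
      have hNc : ((N q : ℕ) : ℂ) ≠ 0 := by exact_mod_cast hN0.ne'
      rw [Finset.sum_sub_distrib, Finset.sum_const, Nat.card_Icc, Nat.add_sub_cancel, nsmul_eq_mul] at h4
      simp_rw [inner_ww]
      have e2 : ∀ y z : ℂ, y / (N q : ℂ) - z = (y - (N q : ℂ) * z) / (N q : ℂ) := by
        intro y z
        field_simp
      rw [e2, norm_div, Complex.norm_natCast, div_lt_iff₀ hN0]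
      refine h4.trans_lt ?_
      nlinarith
    have := hdif.add hq2
    simpa using this
  obtain ⟨C, hC⟩ := hb
  have h5 := (ProbabilityMeasure.tendsto_iff_forall_integral_tendsto.1 hconv)
    (BoundedContinuousFunction.ofNormedAddCommGroup F hF C hC)
  rw [hν] at h5
  rw [← hρ]
  refine h5.congr fun q => ?_
  exact hμ2 q F

/-- the correlation tends to zero -/
lemma decor (h : ℝ → ℝ) (hc : Continuous h) (h0 : ∀ x, 0 ≤ h x) (h1 : ∀ x, h x ≤ 1) (ε : ℝ) (hε : 0 < ε) :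
    ∃ κ : ℝ, 0 < κ ∧ κ < 1 ∧ ∀ ρ : ℝ, 0 ≤ ρ → ρ ≤ κ →
      |∫ x, h (x 0) * h (x 1) ∂(ga 1 ρ) - (∫ y, h y ∂(gaussianReal 0 1)) ^ 2| ≤ ε := by
  by_contra hcon
  push Not at hcon
  have hex : ∀ q : ℕ, ∃ ρ : ℝ, 0 ≤ ρ ∧ ρ ≤ 1 / ((q : ℝ) + 2) ∧
      ε < |∫ x, h (x 0) * h (x 1) ∂(ga 1 ρ) - (∫ y, h y ∂(gaussianReal 0 1)) ^ 2| := by
    intro q
    have hq : (0 : ℝ) ≤ q := Nat.cast_nonneg q
    exact hcon (1 / ((q : ℝ) + 2)) (by positivity) (by
      rw [div_lt_one (by linarith)]; linarith)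
  choose ρ hρ0 hρ1 hbad using hex
  have hρt : Tendsto ρ atTop (𝓝 0) := by
    refine squeeze_zero hρ0 hρ1 ?_
    have : Tendsto (fun q : ℕ => (q : ℝ) + 2) atTop atTop :=
      tendsto_atTop_add_const_right _ _ tendsto_natCast_atTop_atTop
    exact tendsto_const_nhds.div_atTop this
  have hρl : ∀ q, ρ q ^ 2 ≤ 1 := by
    intro q
    have hq : (0 : ℝ) ≤ q := Nat.cast_nonneg q
    have h2 : 1 / ((q : ℝ) + 2) ≤ 1 := by rw [div_le_one (by linarith)]; linarith
    have h3 := hρ0 q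
    have h4 := (hρ1 q).trans h2
    nlinarith
  obtain ⟨μ, hμ⟩ : ∃ μ : ℕ → ProbabilityMeasure E2, ∀ q, (μ q : Measure E2) = ga 1 (ρ q) :=
    ⟨fun q => ⟨ga 1 (ρ q), inferInstance⟩, fun q => rfl⟩
  obtain ⟨ν, hν⟩ : ∃ ν : ProbabilityMeasure E2, (ν : Measure E2) = ga 1 0 := ⟨⟨ga 1 0, inferInstance⟩, rfl⟩
  have hconv : Tendsto μ atTop (𝓝 ν) := by
    apply ProbabilityMeasure.tendsto_of_tendsto_charFun
    intro x
    rw [hν, ga_char 1 0 (by norm_num) x]
    have hc2 : Continuous fun y : ℝ =>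
        (Real.exp (-(1 ^ 2 * ((x 0) ^ 2 + (x 1) ^ 2 + 2 * y * (x 0 * x 1))) / 2) : ℂ) := by fun_prop
    refine ((hc2.tendsto 0).comp hρt).congr fun q => ?_
    rw [hμ q, ga_char 1 (ρ q) (hρl q) x]
    rfl
  have hFc : Continuous fun x : E2 => h (x 0) * h (x 1) := by fun_prop
  have h5 := (ProbabilityMeasure.tendsto_iff_forall_integral_tendsto.1 hconv)
    (BoundedContinuousFunction.ofNormedAddCommGroup (fun x : E2 => h (x 0) * h (x 1)) hFc 1 (by
      intro x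
      rw [Real.norm_eq_abs, abs_of_nonneg (mul_nonneg (h0 _) (h0 _))]
      exact mul_le_one₀ (h1 _) (h0 _) (h1 _)))
  rw [hν] at h5
  have h6 : ∫ x, (BoundedContinuousFunction.ofNormedAddCommGroup (fun x : E2 => h (x 0) * h (x 1)) hFc 1 (by
      intro x
      rw [Real.norm_eq_abs, abs_of_nonneg (mul_nonneg (h0 _) (h0 _))]
      exact mul_le_one₀ (h1 _) (h0 _) (h1 _))) x ∂(ga 1 0) = (∫ y, h y ∂(gaussianReal 0 1)) ^ 2 := by
    change ∫ x, h (x 0) * h (x 1) ∂(ga 1 0) = _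
    unfold ga
    rw [integral_map (LL_meas 1 0).aemeasurable hFc.aestronglyMeasurable]
    have e : ∀ z : ℝ × ℝ, h (LL 1 0 z 0) * h (LL 1 0 z 1) = h z.1 * h z.2 := by
      intro z
      have e0 : LL 1 0 z 0 = z.1 := by
        change 1 * z.1 = z.1
        ring
      have e1 : LL 1 0 z 1 = z.2 := by
        change 1 * (0 * z.1 + Real.sqrt (1 - 0 ^ 2) * z.2) = z.2
        norm_num
      rw [e0, e1]
    simp_rw [e]
    unfold g2
    rw [integral_prod_mul (μ := gaussianReal 0 1) (ν := gaussianReal 0 1) (fun y => h y) (fun y => h y), sq]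
  rw [h6] at h5
  have h7 := (h5.sub_const ((∫ y, h y ∂(gaussianReal 0 1)) ^ 2)).abs
  rw [sub_self, abs_zero] at h7
  have h8 := h7.eventually_lt_const hε
  obtain ⟨q, hq⟩ := h8.exists
  rw [hμ q] at hq
  exact lt_asymm hq (hbad q)

/-- a logarithmic squeeze -/
lemma log_sq (f : ℕ → ℝ) (s : ℝ) (h : ∀ᶠ r : ℕ in atTop, (r : ℝ) ^ s / 4 ≤ f r ∧ f r ≤ (r : ℝ) ^ s) :
    Tendsto (fun r : ℕ => Real.log (f r) / Real.log r) atTop (𝓝 s) := by
  have hlog : Tendsto (fun r : ℕ => Real.log (r : ℝ)) atTop atTop :=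
    Real.tendsto_log_atTop.comp tendsto_natCast_atTop_atTop
  have hz : Tendsto (fun r : ℕ => s - Real.log 4 / Real.log (r : ℝ)) atTop (𝓝 s) := by
    have := (tendsto_const_nhds (x := Real.log 4)).div_atTop hlog |>.const_sub s
    rwa [sub_zero] at this
  refine tendsto_of_tendsto_of_tendsto_of_le_of_le' hz tendsto_const_nhds ?_ ?_
  · filter_upwards [h, hlog.eventually_gt_atTop 0, eventually_gt_atTop 0] with r h1 h2 h3
    have hr : (0 : ℝ) < r := by exact_mod_cast h3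
    have hp : 0 < (r : ℝ) ^ s := Real.rpow_pos_of_pos hr s
    have h4 := Real.log_le_log (by positivity) h1.1
    rw [Real.log_div hp.ne' (by norm_num), Real.log_rpow hr] at h4
    rw [le_div_iff₀ h2, sub_mul, div_mul_cancel₀ _ h2.ne']
    exact h4
  · filter_upwards [h, hlog.eventually_gt_atTop 0, eventually_gt_atTop 0] with r h1 h2 h3
    have hr : (0 : ℝ) < r := by exact_mod_cast h3
    have hp : 0 < (r : ℝ) ^ s := Real.rpow_pos_of_pos hr s
    have h4 := Real.log_le_log (by linarith [h1.1, div_pos hp (by norm_num : (0 : ℝ) < 4)]) h1.2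
    rw [Real.log_rpow hr] at h4
    rw [div_le_iff₀ h2]
    exact h4

lemma pow_big (s : ℝ) (hs : 0 < s) (M : ℝ) : ∀ᶠ r : ℕ in atTop, M ≤ (r : ℝ) ^ s :=
  ((tendsto_rpow_atTop hs).comp tendsto_natCast_atTop_atTop).eventually_ge_atTop M

lemma floor_bd (s : ℝ) (hs : 0 < s) : ∀ᶠ r : ℕ in atTop,
    (r : ℝ) ^ s / 2 ≤ (⌊(r : ℝ) ^ s⌋₊ : ℝ) ∧ (⌊(r : ℝ) ^ s⌋₊ : ℝ) ≤ (r : ℝ) ^ s := by
  filter_upwards [pow_big s hs 2] with r hr
  have h1 := Nat.lt_floor_add_one ((r : ℝ) ^ s)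
  exact ⟨by linarith, Nat.floor_le (by linarith)⟩

lemma floor_log (s : ℝ) (hs : 0 < s) :
    Tendsto (fun r : ℕ => Real.log (⌊(r : ℝ) ^ s⌋₊ : ℝ) / Real.log r) atTop (𝓝 s) := by
  refine log_sq (fun r => (⌊(r : ℝ) ^ s⌋₊ : ℝ)) s ?_
  filter_upwards [floor_bd s hs, pow_big s hs 2] with r hr h2
  exact ⟨by linarith [hr.1], hr.2⟩

lemma diff_log (s t : ℝ) (ht : 0 < t) (hts : t < s) :
    Tendsto (fun r : ℕ => Real.log (|(⌊(r : ℝ) ^ s⌋₊ : ℝ) - (⌊(r : ℝ) ^ t⌋₊ : ℝ)|) / Real.log r)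
      atTop (𝓝 s) := by
  refine log_sq (fun r => |(⌊(r : ℝ) ^ s⌋₊ : ℝ) - (⌊(r : ℝ) ^ t⌋₊ : ℝ)|) s ?_
  filter_upwards [floor_bd s (ht.trans hts), floor_bd t ht, pow_big (s - t) (by linarith) 4,
    eventually_gt_atTop 0] with r h1 h2 h3 h4
  have hr : (0 : ℝ) < r := by exact_mod_cast h4
  have h5 : (r : ℝ) ^ s = (r : ℝ) ^ t * (r : ℝ) ^ (s - t) := by
    rw [← Real.rpow_add hr]; congr 1; ring
  have h6 : 0 < (r : ℝ) ^ t := Real.rpow_pos_of_pos hr t
  have h7 : (r : ℝ) ^ t ≤ (r : ℝ) ^ s / 4 := by rw [h5]; nlinarith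
  have h8 : 0 ≤ (⌊(r : ℝ) ^ t⌋₊ : ℝ) := Nat.cast_nonneg _
  rw [abs_of_nonneg (by linarith [h1.1, h2.2])]
  constructor <;> linarith [h1.1, h1.2, h2.2]

/-- the scales -/
noncomputable def sc (η : ℝ) (r i : ℕ) : ℕ := ⌊(r : ℝ) ^ (η ^ i)⌋₊

lemma sc_rng {η : ℝ} (h0 : 0 < η) (h1 : η < 1) {r : ℕ} (hr : 1 ≤ r) (i : ℕ) : 1 ≤ sc η r i ∧ sc η r i ≤ r := by
  have hr' : (1 : ℝ) ≤ r := by exact_mod_cast hr
  have hs0 : 0 < η ^ i := pow_pos h0 i
  have hs1 : η ^ i ≤ 1 := pow_le_one₀ h0.le h1.le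
  unfold sc
  constructor
  · apply Nat.le_floor
    push_cast
    exact Real.one_le_rpow hr' hs0.le
  · have h2 : (r : ℝ) ^ (η ^ i) ≤ r := by
      calc (r : ℝ) ^ (η ^ i) ≤ (r : ℝ) ^ (1 : ℝ) := Real.rpow_le_rpow_of_exponent_le hr' hs1
        _ = r := Real.rpow_one _
    calc ⌊(r : ℝ) ^ (η ^ i)⌋₊ ≤ ⌊(r : ℝ)⌋₊ := Nat.floor_mono h2
      _ = r := Nat.floor_natCast r

/-- the normalised block sums -/
noncomputable def yb (d : ℕ → ℝ) (η : ℝ) (r i j : ℕ) : ℝ :=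
  (bs d (sc η r i) j - sc η r i) / (Real.sqrt (Real.log r) / Real.pi * Real.sqrt (η ^ i))

/-- **few places at which nothing happens at all scales** -/
theorem scales {d : ℕ → ℝ} (hd : Joint2 d) (h : ℝ → ℝ) (hc : Continuous h) (h0 : ∀ x, 0 ≤ h x)
    (h1 : ∀ x, h x ≤ 1) (hp : 0 < ∫ y, h y ∂(gaussianReal 0 1)) (ε : ℝ) (hε : 0 < ε) :
    ∃ (m : ℕ) (η : ℝ), 0 < η ∧ η < 1 ∧ ∀ᶠ r : ℕ in atTop, ∀ N : ℕ, 1 ≤ N →
      r * Real.log r ≤ Real.log N →
      ({j : ℕ | 1 ≤ j ∧ j ≤ N ∧ ∀ i < m, h (yb d η r i j) = 0}.ncard : ℝ) ≤ ε * N := by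
  classical
  obtain ⟨p, hpd⟩ : ∃ p : ℝ, p = ∫ y, h y ∂(gaussianReal 0 1) := ⟨_, rfl⟩
  rw [← hpd] at hp
  obtain ⟨m0, hm0⟩ : ∃ m : ℕ, 4 / (ε * p ^ 2) ≤ m := ⟨_, Nat.le_ceil _⟩
  obtain ⟨m, hm⟩ : ∃ m : ℕ, m = m0 + 2 := ⟨_, rfl⟩
  have hmr : 4 / (ε * p ^ 2) ≤ m := by
    rw [hm]; push_cast; linarith
  have hm2 : 2 ≤ m := by omega
  have hmp : (0 : ℝ) < m := by exact_mod_cast (by omega : 0 < m)
  have hm4 : 4 ≤ m * (ε * p ^ 2) := by rwa [div_le_iff₀ (by positivity)] at hmr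
  obtain ⟨κ, hκ0, hκ1, hκ⟩ := decor h hc h0 h1 (ε * p ^ 2 / 4) (by positivity)
  rw [← hpd] at hκ
  obtain ⟨η, hη⟩ : ∃ η : ℝ, η = κ ^ 2 := ⟨_, rfl⟩
  have hη0 : 0 < η := by rw [hη]; positivity
  have hη1 : η < 1 := by rw [hη]; nlinarith
  refine ⟨m, η, hη0, hη1, ?_⟩
  by_contra hcon
  rw [not_eventually] at hcon
  have hex : ∀ q : ℕ, ∃ r : ℕ, q + 1 ≤ r ∧ ∃ N : ℕ, 1 ≤ N ∧ r * Real.log r ≤ Real.log N ∧
      ε * N < ({j : ℕ | 1 ≤ j ∧ j ≤ N ∧ ∀ i < m, h (yb d η r i j) = 0}.ncard : ℝ) := by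
    intro q
    obtain ⟨r, hr, g⟩ := (frequently_atTop.1 hcon) (q + 1)
    push Not at g
    obtain ⟨N, hN, g1, g2⟩ := g
    exact ⟨r, hr, N, hN, g1, g2⟩
  choose r hr N hN hNr hbad using hex
  have hrt : Tendsto r atTop atTop := tendsto_atTop_mono (fun i => (by have := hr i; omega : i ≤ r i)) tendsto_id
  -- the averages
  obtain ⟨A, hA⟩ : ∃ A : ℕ → ℕ → ℝ, A = fun q i => (∑ j ∈ Finset.Icc 1 (N q), h (yb d η (r q) i j)) / N q :=
    ⟨_, rfl⟩
  obtain ⟨B, hB⟩ : ∃ B : ℕ → ℕ → ℕ → ℝ, B = fun q i l =>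
    (∑ j ∈ Finset.Icc 1 (N q), h (yb d η (r q) i j) * h (yb d η (r q) l j)) / N q := ⟨_, rfl⟩
  have hw : ∀ q i l j, ww d (r q) (sc η (r q) i) (sc η (r q) l) (η ^ i) (η ^ l) j 0 = yb d η (r q) i j ∧
      ww d (r q) (sc η (r q) i) (sc η (r q) l) (η ^ i) (η ^ l) j 1 = yb d η (r q) l j :=
    fun q i l j => ⟨rfl, rfl⟩
  have hpair : ∀ i l : ℕ, i < l → ∀ (F : E2 → ℝ), Continuous F → (∃ C : ℝ, ∀ x, |F x| ≤ C) →
      Tendsto (fun q => (∑ j ∈ Finset.Icc 1 (N q),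
        F (ww d (r q) (sc η (r q) i) (sc η (r q) l) (η ^ i) (η ^ l) j)) / N q) atTop
      (𝓝 (∫ x, F x ∂(ga 1 (Real.sqrt (η ^ l / η ^ i) / 2)))) := by
    intro i l hil F hF hFb
    have hpl : 0 < η ^ l := pow_pos hη0 l
    have hpil : η ^ l < η ^ i := pow_lt_pow_right_of_lt_one₀ hη0 hη1 hil
    refine pair_lim hd r N (fun q => sc η (r q) i) (fun q => sc η (r q) l) hrt hN hNr (fun q => ?_)
      (η ^ i) (η ^ l) hpl hpil ?_ ?_ ?_ F hF hFb
    · have e1 := sc_rng hη0 hη1 (by have := hr q; omega : 1 ≤ r q) i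
      have e2 := sc_rng hη0 hη1 (by have := hr q; omega : 1 ≤ r q) l
      exact ⟨e1.1, e1.2, e2.1, e2.2⟩
    · exact (floor_log (η ^ i) (pow_pos hη0 i)).comp hrt
    · exact (floor_log (η ^ l) hpl).comp hrt
    · exact (diff_log (η ^ i) (η ^ l) hpl hpil).comp hrt
  have hratio : ∀ i l : ℕ, i < l → 0 ≤ Real.sqrt (η ^ l / η ^ i) / 2 ∧ Real.sqrt (η ^ l / η ^ i) / 2 ≤ κ := by
    intro i l hil
    refine ⟨by positivity, ?_⟩
    have e1 : η ^ l / η ^ i ≤ η := by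
      obtain ⟨c, rfl⟩ : ∃ c, l = i + 1 + c := ⟨l - i - 1, by omega⟩
      rw [pow_add, pow_add, pow_one, mul_assoc, mul_div_assoc, mul_comm, div_mul_cancel₀ _ (pow_pos hη0 i).ne']
      have := pow_le_one₀ (n := c) hη0.le hη1.le
      nlinarith
    have e2 : Real.sqrt (η ^ l / η ^ i) ≤ κ := by
      rw [← Real.sqrt_sq hκ0.le, ← hη]
      exact Real.sqrt_le_sqrt e1
    linarith [Real.sqrt_nonneg (η ^ l / η ^ i)]
  have hF2 : Continuous fun x : E2 => h (x 0) * h (x 1) := by fun_prop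
  have hF2b : ∃ C : ℝ, ∀ x : E2, |h (x 0) * h (x 1)| ≤ C := ⟨1, fun x => by
    rw [abs_of_nonneg (mul_nonneg (h0 _) (h0 _))]
    exact mul_le_one₀ (h1 _) (h0 _) (h1 _)⟩
  obtain ⟨G, hG⟩ : ∃ G : ℕ → ℕ → ℝ, G = fun i l => if i < l then
      ∫ x, h (x 0) * h (x 1) ∂(ga 1 (Real.sqrt (η ^ l / η ^ i) / 2)) else
      ∫ x, h (x 0) * h (x 1) ∂(ga 1 (Real.sqrt (η ^ i / η ^ l) / 2)) := ⟨_, rfl⟩
  have hBlim : ∀ i l : ℕ, i ≠ l → Tendsto (fun q => B q i l) atTop (𝓝 (G i l)) := by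
    intro i l hil
    rcases lt_or_gt_of_ne hil with g | g
    · rw [hG]
      dsimp only
      rw [if_pos g, hB]
      exact hpair i l g _ hF2 hF2b
    · rw [hG]
      dsimp only
      rw [if_neg (by omega), hB]
      have := hpair l i g _ hF2 hF2b
      refine this.congr fun q => ?_
      congr 1
      apply Finset.sum_congr rfl
      intro j _
      rw [(hw q l i j).1, (hw q l i j).2, mul_comm]
  have hGb : ∀ i l : ℕ, i ≠ l → |G i l - p ^ 2| ≤ ε * p ^ 2 / 4 := by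
    intro i l hil
    rcases lt_or_gt_of_ne hil with g | g
    · rw [hG]
      dsimp only
      rw [if_pos g]
      exact hκ _ (hratio i l g).1 (hratio i l g).2
    · rw [hG]
      dsimp only
      rw [if_neg (by omega)]
      exact hκ _ (hratio l i g).1 (hratio l i g).2
  have hAlim : ∀ i : ℕ, Tendsto (fun q => A q i) atTop (𝓝 p) := by
    intro i
    have hF1 : Continuous fun x : E2 => h (x 0) := by fun_prop
    have := hpair i (i + 1) (by omega) (fun x => h (x 0)) hF1 ⟨1, fun x => by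
      rw [abs_of_nonneg (h0 _)]; exact h1 _⟩
    have e : ∀ ρ : ℝ, ∫ x, h (x 0) ∂(ga 1 ρ) = p := by
      intro ρ
      unfold ga
      rw [integral_map (LL_meas 1 ρ).aemeasurable hF1.aestronglyMeasurable]
      have e0 : ∀ z : ℝ × ℝ, h (LL 1 ρ z 0) = h z.1 * 1 := by
        intro z
        have e0 : LL 1 ρ z 0 = z.1 := by
          change 1 * z.1 = z.1
          ring
        rw [e0, mul_one]
      simp_rw [e0]
      unfold g2
      rw [integral_prod_mul (μ := gaussianReal 0 1) (ν := gaussianReal 0 1) (fun y => h y) (fun _ => (1 : ℝ)),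
        hpd]
      simp
    rw [e] at this
    rw [hA]
    exact this
  -- the second moment
  have hR : Tendsto (fun q => ∑ i ∈ Finset.range m, ∑ l ∈ Finset.range m, (if i = l then 1 else B q i l) -
      2 * m * p * ∑ i ∈ Finset.range m, A q i + (m * p) ^ 2) atTop
      (𝓝 (∑ i ∈ Finset.range m, ∑ l ∈ Finset.range m, (if i = l then 1 else G i l) -
      2 * m * p * ∑ i ∈ Finset.range m, p + (m * p) ^ 2)) := by
    refine (Tendsto.sub ?_ ((tendsto_finsetSum _ fun i _ => hAlim i).const_mul _)).add_const _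
    refine tendsto_finsetSum _ fun i _ => tendsto_finsetSum _ fun l _ => ?_
    by_cases g : i = l
    · simp only [g, if_true]
      exact tendsto_const_nhds
    · simp only [g, if_false]
      exact hBlim i l g
  have hlow : ∀ q, ε * (m * p) ^ 2 ≤ ∑ i ∈ Finset.range m, ∑ l ∈ Finset.range m,
      (if i = l then 1 else B q i l) - 2 * m * p * ∑ i ∈ Finset.range m, A q i + (m * p) ^ 2 := by
    intro q
    have hN0 : (0 : ℝ) < N q := by exact_mod_cast hN q
    obtain ⟨Z, hZ⟩ : ∃ Z : ℕ → ℝ, Z = fun j => ∑ i ∈ Finset.range m, h (yb d η (r q) i j) := ⟨_, rfl⟩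
    have e1 : ∑ j ∈ Finset.Icc 1 (N q), (Z j - m * p) ^ 2 = (∑ i ∈ Finset.range m, ∑ l ∈ Finset.range m,
        B q i l - 2 * m * p * ∑ i ∈ Finset.range m, A q i + (m * p) ^ 2) * N q := by
      have f1 : ∀ j, (Z j - m * p) ^ 2 = ∑ i ∈ Finset.range m, ∑ l ∈ Finset.range m,
          h (yb d η (r q) i j) * h (yb d η (r q) l j) - 2 * m * p * Z j + (m * p) ^ 2 := by
        intro j
        rw [← Finset.sum_mul_sum, hZ]
        ring
      simp_rw [f1]
      rw [Finset.sum_add_distrib, Finset.sum_sub_distrib, Finset.sum_const, Nat.card_Icc,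
        Nat.add_sub_cancel, nsmul_eq_mul, ← Finset.mul_sum]
      have f2 : ∑ j ∈ Finset.Icc 1 (N q), ∑ i ∈ Finset.range m, ∑ l ∈ Finset.range m,
          h (yb d η (r q) i j) * h (yb d η (r q) l j) =
          (∑ i ∈ Finset.range m, ∑ l ∈ Finset.range m, B q i l) * N q := by
        rw [Finset.sum_comm, Finset.sum_mul]
        apply Finset.sum_congr rfl
        intro i _
        rw [Finset.sum_comm, Finset.sum_mul]
        apply Finset.sum_congr rfl
        intro l _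
        rw [hB]
        dsimp only
        rw [div_mul_cancel₀ _ hN0.ne']
      have f3 : ∑ j ∈ Finset.Icc 1 (N q), Z j = (∑ i ∈ Finset.range m, A q i) * N q := by
        rw [hZ, Finset.sum_comm, Finset.sum_mul]
        apply Finset.sum_congr rfl
        intro i _
        rw [hA]
        dsimp only
        rw [div_mul_cancel₀ _ hN0.ne']
      rw [f2, f3]
      ring
    have e2 : ({j : ℕ | 1 ≤ j ∧ j ≤ N q ∧ ∀ i < m, h (yb d η (r q) i j) = 0}.ncard : ℝ) * (m * p) ^ 2 ≤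
        ∑ j ∈ Finset.Icc 1 (N q), (Z j - m * p) ^ 2 := by
      have g1 : {j : ℕ | 1 ≤ j ∧ j ≤ N q ∧ ∀ i < m, h (yb d η (r q) i j) = 0} =
          ((Finset.Icc 1 (N q)).filter (fun j => ∀ i < m, h (yb d η (r q) i j) = 0) : Set ℕ) := by
        ext j
        simp [and_assoc]
      rw [g1, Set.ncard_coe_finset]
      calc (((Finset.Icc 1 (N q)).filter (fun j => ∀ i < m, h (yb d η (r q) i j) = 0)).card : ℝ) * (m * p) ^ 2
          = ∑ j ∈ (Finset.Icc 1 (N q)).filter (fun j => ∀ i < m, h (yb d η (r q) i j) = 0), (m * p) ^ 2 := by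
            rw [Finset.sum_const, nsmul_eq_mul]
        _ = ∑ j ∈ (Finset.Icc 1 (N q)).filter (fun j => ∀ i < m, h (yb d η (r q) i j) = 0),
            (Z j - m * p) ^ 2 := by
            apply Finset.sum_congr rfl
            intro j hj
            have : Z j = 0 := by
              rw [hZ]
              exact Finset.sum_eq_zero fun i hi => (Finset.mem_filter.1 hj).2 i (Finset.mem_range.1 hi)
            rw [this]
            ring
        _ ≤ _ := Finset.sum_le_sum_of_subset_of_nonneg (Finset.filter_subset _ _) fun j _ _ => sq_nonneg _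
    rw [e1] at e2
    have e3 : ε * (m * p) ^ 2 * N q ≤ (∑ i ∈ Finset.range m, ∑ l ∈ Finset.range m,
        B q i l - 2 * m * p * ∑ i ∈ Finset.range m, A q i + (m * p) ^ 2) * N q := by
      refine le_trans ?_ e2
      have := mul_le_mul_of_nonneg_right (hbad q).le (sq_nonneg ((m : ℝ) * p))
      linarith
    have e4 := le_of_mul_le_mul_right e3 hN0
    have e5 : ∑ i ∈ Finset.range m, ∑ l ∈ Finset.range m, B q i l ≤
        ∑ i ∈ Finset.range m, ∑ l ∈ Finset.range m, (if i = l then 1 else B q i l) := by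
      apply Finset.sum_le_sum
      intro i _
      apply Finset.sum_le_sum
      intro l _
      by_cases g : i = l
      · rw [if_pos g, hB]
        dsimp only
        rw [div_le_one hN0]
        calc ∑ j ∈ Finset.Icc 1 (N q), h (yb d η (r q) i j) * h (yb d η (r q) l j)
            ≤ ∑ j ∈ Finset.Icc 1 (N q), (1 : ℝ) :=
              Finset.sum_le_sum fun j _ => mul_le_one₀ (h1 _) (h0 _) (h1 _)
          _ = N q := by rw [Finset.sum_const, Nat.card_Icc, Nat.add_sub_cancel, nsmul_eq_mul, mul_one]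
      · rw [if_neg g]
    linarith
  have hfin := ge_of_tendsto' hR hlow
  have hup : ∑ i ∈ Finset.range m, ∑ l ∈ Finset.range m, (if i = l then 1 else G i l) ≤
      m + m ^ 2 * (p ^ 2 + ε * p ^ 2 / 4) := by
    have f1 : ∀ i ∈ Finset.range m, ∑ l ∈ Finset.range m, (if i = l then 1 else G i l) ≤
        1 + m * (p ^ 2 + ε * p ^ 2 / 4) := by
      intro i hi
      calc ∑ l ∈ Finset.range m, (if i = l then 1 else G i l) ≤
          ∑ l ∈ Finset.range m, ((if i = l then 1 else 0) + (p ^ 2 + ε * p ^ 2 / 4)) := by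
            apply Finset.sum_le_sum
            intro l _
            by_cases g : i = l
            · rw [if_pos g, if_pos g]
              have : 0 ≤ p ^ 2 + ε * p ^ 2 / 4 := by positivity
              linarith
            · rw [if_neg g, if_neg g]
              have := (abs_le.1 (hGb i l g)).2
              linarith
        _ = _ := by
            rw [Finset.sum_add_distrib, Finset.sum_const, Finset.card_range, nsmul_eq_mul,
              Finset.sum_ite_eq, if_pos hi]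
    calc ∑ i ∈ Finset.range m, ∑ l ∈ Finset.range m, (if i = l then 1 else G i l) ≤
        ∑ i ∈ Finset.range m, (1 + m * (p ^ 2 + ε * p ^ 2 / 4)) := Finset.sum_le_sum f1
      _ = _ := by
        rw [Finset.sum_const, Finset.card_range, nsmul_eq_mul]
        ring
  rw [Finset.sum_const, Finset.card_range, nsmul_eq_mul] at hfin
  have h9 : 0 < ε * ((m : ℝ) * p) ^ 2 := by positivity
  nlinarith

/-- a bump -/
noncomputable def cl (x : ℝ) : ℝ := max 0 (min 1 x)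

lemma cl_cont : Continuous cl := by unfold cl; fun_prop
lemma cl_nonneg (x : ℝ) : 0 ≤ cl x := le_max_left _ _
lemma cl_le (x : ℝ) : cl x ≤ 1 := max_le zero_le_one (min_le_left _ _)
lemma cl_pos {x : ℝ} (h : 0 < x) : 0 < cl x := lt_max_of_lt_right (lt_min one_pos h)
lemma cl_zero {x : ℝ} (h : x ≤ 0) : cl x = 0 := max_eq_left (min_le_of_right_le h)
lemma cl_one {x : ℝ} (h : 1 ≤ x) : cl x = 1 := by
  unfold cl
  rw [min_eq_left h, max_eq_right zero_le_one]

lemma int_pos (h : ℝ → ℝ) (hc : Continuous h) (h0 : ∀ x, 0 ≤ h x) (h1 : ∀ x, h x ≤ 1) (x0 : ℝ)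
    (hx : 0 < h x0) : 0 < ∫ y, h y ∂(gaussianReal 0 1) := by
  have hint : Integrable h (gaussianReal 0 1) := Integrable.of_bound hc.aestronglyMeasurable 1
    (Eventually.of_forall fun x => by rw [Real.norm_eq_abs, abs_of_nonneg (h0 x)]; exact h1 x)
  rw [integral_pos_iff_support_of_nonneg h0 hint]
  have hopen : IsOpen (Function.support h) := hc.isOpen_support
  have hv : 0 < volume (Function.support h) := hopen.measure_pos volume ⟨x0, hx.ne'⟩
  rw [pos_iff_ne_zero] at hv ⊢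
  intro hz
  exact hv ((gaussianReal_absolutelyContinuous' 0 one_ne_zero) hz)

/-- the scales are at least `2` -/
lemma sc_two {η : ℝ} (h0 : 0 < η) (m : ℕ) : ∀ᶠ r : ℕ in atTop, ∀ i < m, 2 ≤ sc η r i := by
  induction m with
  | zero => exact Eventually.of_forall fun r i hi => absurd hi (by omega)
  | succ m ih =>
    filter_upwards [ih, pow_big (η ^ m) (pow_pos h0 m) 2] with r h1 h2 i hi
    rcases Nat.lt_succ_iff_lt_or_eq.1 hi with h3 | h3
    · exact h1 i h3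
    · rw [h3]
      unfold sc
      apply Nat.le_floor
      exact_mod_cast h2

lemma dev_of {η : ℝ} (h0 : 0 < η) {r i : ℕ} (hr : 2 ≤ r) (h2 : 2 ≤ sc η r i) (K : ℝ) (x : ℝ)
    (hx : Real.pi * |K| < x / (Real.sqrt (Real.log r) / Real.pi * Real.sqrt (η ^ i))) :
    K * Real.sqrt (Real.log (sc η r i)) < x := by
  have hpi := Real.pi_pos
  have hr' : (1 : ℝ) < r := by exact_mod_cast (by omega : 1 < r)
  have hlr : 0 < Real.log r := Real.log_pos hr'
  have hs : 0 < η ^ i := pow_pos h0 i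
  have hd : 0 < Real.sqrt (Real.log r) / Real.pi * Real.sqrt (η ^ i) := by positivity
  rw [lt_div_iff₀ hd] at hx
  have e1 : Real.pi * |K| * (Real.sqrt (Real.log r) / Real.pi * Real.sqrt (η ^ i)) =
      |K| * (Real.sqrt (Real.log r) * Real.sqrt (η ^ i)) := by field_simp
  rw [e1, ← Real.sqrt_mul hlr.le] at hx
  have e2 : Real.log (sc η r i) ≤ Real.log r * η ^ i := by
    have h3 : (0 : ℝ) < sc η r i := by exact_mod_cast (by omega : 0 < sc η r i)
    have h4 : ((sc η r i : ℕ) : ℝ) ≤ (r : ℝ) ^ (η ^ i) := Nat.floor_le (Real.rpow_nonneg (by linarith) _)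
    have h5 := Real.log_le_log h3 h4
    rw [Real.log_rpow (by linarith)] at h5
    linarith
  have e3 : Real.sqrt (Real.log (sc η r i)) ≤ Real.sqrt (Real.log r * η ^ i) := Real.sqrt_le_sqrt e2
  have e4 : K * Real.sqrt (Real.log (sc η r i)) ≤ |K| * Real.sqrt (Real.log r * η ^ i) :=
    (mul_le_mul_of_nonneg_right (le_abs_self K) (Real.sqrt_nonneg _)).trans
      (mul_le_mul_of_nonneg_left e3 (abs_nonneg K))
  linarith

/-- **large deviations at some scale** -/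
theorem up {d : ℕ → ℝ} (hd : Joint2 d) (K ε : ℝ) (hε : 0 < ε) : ∀ᶠ r : ℕ in atTop, ∀ N : ℕ, 1 ≤ N →
    r * Real.log r ≤ Real.log N →
    ({j : ℕ | 1 ≤ j ∧ j ≤ N ∧ ∀ b : ℕ, 2 ≤ b → b ≤ r → bs d b j ≤ b + K * Real.sqrt (Real.log b)}.ncard : ℝ) ≤
      ε * N := by
  have hc : Continuous fun x : ℝ => cl (x - Real.pi * |K|) := by
    have := cl_cont
    fun_prop
  obtain ⟨m, η, hη0, hη1, h⟩ := scales hd (fun x => cl (x - Real.pi * |K|)) hc (fun x => cl_nonneg _)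
    (fun x => cl_le _) (int_pos _ hc (fun x => cl_nonneg _) (fun x => cl_le _) (Real.pi * |K| + 1)
      (cl_pos (by linarith))) ε hε
  filter_upwards [h, sc_two hη0 m, eventually_ge_atTop 2] with r h1 h2 h3 N hN hNr
  refine le_trans ?_ (h1 N hN hNr)
  have hfin : {j : ℕ | 1 ≤ j ∧ j ≤ N ∧ ∀ i < m, cl (yb d η r i j - Real.pi * |K|) = 0}.Finite :=
    (Set.finite_Iic N).subset fun j hj => hj.2.1
  have hsub : {j : ℕ | 1 ≤ j ∧ j ≤ N ∧ ∀ b : ℕ, 2 ≤ b → b ≤ r → bs d b j ≤ b + K * Real.sqrt (Real.log b)} ⊆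
      {j : ℕ | 1 ≤ j ∧ j ≤ N ∧ ∀ i < m, cl (yb d η r i j - Real.pi * |K|) = 0} := by
    rintro j ⟨g1, g2, g3⟩
    refine ⟨g1, g2, fun i hi => ?_⟩
    apply cl_zero
    by_contra hcon
    push Not at hcon
    have g4 := g3 (sc η r i) (h2 i hi) (sc_rng hη0 hη1 (by omega) i).2
    have g5 := dev_of hη0 h3 (h2 i hi) K (bs d (sc η r i) j - sc η r i) (by
      unfold yb at hcon
      linarith)
    linarith
  exact_mod_cast Set.ncard_le_ncard hsub hfin

/-- **large deviations at some scale** -/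
theorem down {d : ℕ → ℝ} (hd : Joint2 d) (K ε : ℝ) (hε : 0 < ε) : ∀ᶠ r : ℕ in atTop, ∀ N : ℕ, 1 ≤ N →
    r * Real.log r ≤ Real.log N →
    ({j : ℕ | 1 ≤ j ∧ j ≤ N ∧ ∀ b : ℕ, 2 ≤ b → b ≤ r → b - K * Real.sqrt (Real.log b) ≤ bs d b j}.ncard : ℝ) ≤
      ε * N := by
  have hc : Continuous fun x : ℝ => cl (-x - Real.pi * |K|) := by
    have := cl_cont
    fun_prop
  obtain ⟨m, η, hη0, hη1, h⟩ := scales hd (fun x => cl (-x - Real.pi * |K|)) hc (fun x => cl_nonneg _)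
    (fun x => cl_le _) (int_pos _ hc (fun x => cl_nonneg _) (fun x => cl_le _) (-(Real.pi * |K| + 1))
      (cl_pos (by linarith))) ε hε
  filter_upwards [h, sc_two hη0 m, eventually_ge_atTop 2] with r h1 h2 h3 N hN hNr
  refine le_trans ?_ (h1 N hN hNr)
  have hfin : {j : ℕ | 1 ≤ j ∧ j ≤ N ∧ ∀ i < m, cl (-(yb d η r i j) - Real.pi * |K|) = 0}.Finite :=
    (Set.finite_Iic N).subset fun j hj => hj.2.1
  have hsub : {j : ℕ | 1 ≤ j ∧ j ≤ N ∧ ∀ b : ℕ, 2 ≤ b → b ≤ r → b - K * Real.sqrt (Real.log b) ≤ bs d b j} ⊆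
      {j : ℕ | 1 ≤ j ∧ j ≤ N ∧ ∀ i < m, cl (-(yb d η r i j) - Real.pi * |K|) = 0} := by
    rintro j ⟨g1, g2, g3⟩
    refine ⟨g1, g2, fun i hi => ?_⟩
    apply cl_zero
    by_contra hcon
    push Not at hcon
    have g4 := g3 (sc η r i) (h2 i hi) (sc_rng hη0 hη1 (by omega) i).2
    have g5 := dev_of hη0 h3 (h2 i hi) K (-(bs d (sc η r i) j - sc η r i)) (by
      unfold yb at hcon
      rw [neg_div]
      linarith)
    linarith
  exact_mod_cast Set.ncard_le_ncard hsub hfin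

/-- the averages of a function which vanishes at most places -/
lemma avg_le {N : ℕ} (hN : 1 ≤ N) (f : ℕ → ℝ) (P : ℕ → Prop) (h1 : ∀ j, f j ≤ 1) (h0 : ∀ j, ¬ P j → f j ≤ 0)
    {ε : ℝ} (h : ({j : ℕ | 1 ≤ j ∧ j ≤ N ∧ P j}.ncard : ℝ) ≤ ε * N) :
    (∑ j ∈ Finset.Icc 1 N, f j) / N ≤ ε := by
  classical
  have hN0 : (0 : ℝ) < N := by exact_mod_cast hN
  rw [div_le_iff₀ hN0]
  refine le_trans ?_ h
  have e : {j : ℕ | 1 ≤ j ∧ j ≤ N ∧ P j} = ((Finset.Icc 1 N).filter P : Set ℕ) := by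
    ext j
    simp [and_assoc]
  rw [e, Set.ncard_coe_finset]
  calc ∑ j ∈ Finset.Icc 1 N, f j ≤ ∑ j ∈ Finset.Icc 1 N, (if P j then (1 : ℝ) else 0) := by
        apply Finset.sum_le_sum
        intro j _
        by_cases hP : P j
        · rw [if_pos hP]; exact h1 j
        · rw [if_neg hP]; exact h0 j hP
    _ = _ := by
        rw [Finset.sum_ite, Finset.sum_const_zero, add_zero, Finset.sum_const, nsmul_eq_mul, mul_one]

open Pool.Agent.U403.MX (ex ex_cont ex_of bs_congr)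

/-- **limit processes**: the general step -/
lemma process_step {Ω : Type*} [MeasurableSpace Ω] (P : Measure Ω) [IsProbabilityMeasure P]
    (X : ℕ → Ω → ℝ) (hX : ∀ i, Measurable (X i)) {d : ℕ → ℝ}
    (N : ℕ → ℕ) (hN : Tendsto N atTop atTop)
    (hlim : ∀ (m : ℕ) (F : (Fin m → ℝ) → ℝ), Continuous F → (∃ C, ∀ x, |F x| ≤ C) →
      Tendsto (fun j => (∑ n ∈ Finset.Icc 1 (N j), F (fun i => d (n + i))) / N j) atTop
        (𝓝 (∫ ω, F (fun i => X i ω) ∂P)))
    (g : ℕ → ℝ → ℝ) (hg : ∀ b, Continuous (g b))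
    (hsmall : ∀ ε : ℝ, 0 < ε → ∀ᶠ r : ℕ in atTop, ∀ N : ℕ, 1 ≤ N → r * Real.log r ≤ Real.log N →
      ({j : ℕ | 1 ≤ j ∧ j ≤ N ∧ ∀ b : ℕ, 2 ≤ b → b ≤ r → 0 < g b (bs d b j)}.ncard : ℝ) ≤ ε * N) :
    ∀ᵐ ω ∂P, ∃ b : ℕ, 2 ≤ b ∧ g b (bs (fun i => X i ω) b 0) < 1 := by
  have hbm : ∀ b : ℕ, Measurable fun ω => bs (fun i => X i ω) b 0 := by
    intro b
    unfold bs
    exact Finset.measurable_sum _ fun i _ => hX _
  have hEm : ∀ r : ℕ, MeasurableSet {ω | ∀ b : ℕ, 2 ≤ b → b ≤ r → 1 ≤ g b (bs (fun i => X i ω) b 0)} := by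
    intro r
    rw [Set.ofPred_forall]
    refine MeasurableSet.iInter fun b => ?_
    rw [Set.ofPred_forall]
    refine MeasurableSet.iInter fun _ => ?_
    rw [Set.ofPred_forall]
    refine MeasurableSet.iInter fun _ => ?_
    exact measurableSet_le measurable_const ((hg b).measurable.comp (hbm b))
  have key : ∀ ε : ℝ, 0 < ε →
      P.real {ω | ∀ b : ℕ, 2 ≤ b → 1 ≤ g b (bs (fun i => X i ω) b 0)} ≤ ε := by
    intro ε hε
    obtain ⟨r, hr⟩ := (hsmall ε hε).exists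
    obtain ⟨F, hF⟩ : ∃ F : (Fin r → ℝ) → ℝ, F = fun x => ∏ b ∈ Finset.Icc 2 r, cl (g b (bs (ex x) b 0)) :=
      ⟨_, rfl⟩
    have hFc : Continuous F := by
      rw [hF]
      refine continuous_finsetProd _ fun b _ => ?_
      have h1 : Continuous fun x : Fin r → ℝ => bs (ex x) b 0 := by
        unfold bs
        exact continuous_finsetSum _ fun i _ => ex_cont _
      exact cl_cont.comp ((hg b).comp h1)
    have hF0 : ∀ x, 0 ≤ F x := fun x => by rw [hF]; exact Finset.prod_nonneg fun b _ => cl_nonneg _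
    have hF1 : ∀ x, F x ≤ 1 := fun x => by
      rw [hF]; exact Finset.prod_le_one (fun b _ => cl_nonneg _) fun b _ => cl_le _
    have hb : ∃ C : ℝ, ∀ x, |F x| ≤ C := ⟨1, fun x => by rw [abs_of_nonneg (hF0 x)]; exact hF1 x⟩
    have h1 := hlim r F hFc hb
    have hbs : ∀ (f : ℕ → ℝ) (b : ℕ), b ≤ r → bs (ex (fun i : Fin r => f i)) b 0 = bs f b 0 := by
      intro f b hbr
      apply bs_congr
      intro i hi
      rw [zero_add]
      exact ex_of f (by omega)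
    have h2 : ∫ ω, F (fun i => X i ω) ∂P ≤ ε := by
      refine le_of_tendsto h1 ?_
      have hNl : Tendsto (fun j => Real.log (N j)) atTop atTop :=
        Real.tendsto_log_atTop.comp (tendsto_natCast_atTop_atTop.comp hN)
      filter_upwards [hN.eventually_ge_atTop 1, hNl.eventually_ge_atTop (r * Real.log r)] with j hj1 hj2
      refine avg_le hj1 _ (fun l => ∀ b : ℕ, 2 ≤ b → b ≤ r → 0 < g b (bs d b l)) (fun l => hF1 _) ?_
        (hr (N j) hj1 hj2)
      intro l hl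
      push Not at hl
      obtain ⟨b, hb2, hbr, hgb⟩ := hl
      refine le_of_eq ?_
      rw [hF]
      apply Finset.prod_eq_zero (Finset.mem_Icc.2 ⟨hb2, hbr⟩)
      apply cl_zero
      have e1 := hbs (fun i => d (l + i)) b hbr
      rw [e1]
      have e2 : bs (fun i => d (l + i)) b 0 = bs d b l := by
        apply bs_congr
        intro i _
        rw [zero_add]
      rw [e2]
      exact hgb
    have h3 : P.real {ω | ∀ b : ℕ, 2 ≤ b → 1 ≤ g b (bs (fun i => X i ω) b 0)} ≤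
        P.real {ω | ∀ b : ℕ, 2 ≤ b → b ≤ r → 1 ≤ g b (bs (fun i => X i ω) b 0)} :=
      measureReal_mono (fun ω hω b h1 _ => hω b h1)
    refine h3.trans (le_trans ?_ h2)
    rw [← integral_indicator_one (hEm r)]
    refine integral_mono_of_nonneg (Eventually.of_forall fun ω => indicator_nonneg (fun _ _ => zero_le_one) _)
      (Integrable.of_bound (hFc.measurable.comp (measurable_pi_iff.2 fun i => hX _)).aestronglyMeasurable 1
        (Eventually.of_forall fun ω => by rw [Real.norm_eq_abs, abs_of_nonneg (hF0 _)]; exact hF1 _))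
      (Eventually.of_forall fun ω => ?_)
    by_cases hω : ω ∈ {ω | ∀ b : ℕ, 2 ≤ b → b ≤ r → 1 ≤ g b (bs (fun i => X i ω) b 0)}
    · rw [indicator_of_mem hω]
      dsimp only
      rw [hF]
      dsimp only
      rw [Finset.prod_eq_one]
      · rfl
      · intro b hb
        rw [Finset.mem_Icc] at hb
        apply cl_one
        rw [hbs (fun i => X i ω) b hb.2]
        exact hω b hb.1 hb.2
    · rw [indicator_of_notMem hω]
      exact hF0 _
  have hz : P {ω | ∀ b : ℕ, 2 ≤ b → 1 ≤ g b (bs (fun i => X i ω) b 0)} = 0 := by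
    have h0 : P.real {ω | ∀ b : ℕ, 2 ≤ b → 1 ≤ g b (bs (fun i => X i ω) b 0)} = 0 :=
      le_antisymm (le_of_forall_pos_le_add fun ε hε => by rw [zero_add]; exact key ε hε) measureReal_nonneg
    rw [Measure.real, ENNReal.toReal_eq_zero_iff] at h0
    exact h0.resolve_right (measure_ne_top _ _)
  rw [ae_iff]
  refine measure_mono_null ?_ hz
  intro ω hω b hb
  by_contra hcon
  push Not at hcon
  exact hω ⟨b, hb, hcon⟩

lemma sqrt_log_two {b : ℕ} (hb : 2 ≤ b) : 1 / 2 ≤ Real.sqrt (Real.log b) := by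
  have h1 : Real.log 2 ≤ Real.log b := Real.log_le_log (by norm_num) (by exact_mod_cast hb)
  have h2 := Real.log_two_gt_d9
  apply Real.le_sqrt_of_sq_le
  norm_num
  linarith

/-- infinitely often -/
lemma freq_of (x : ℕ → ℝ) (h : ∀ K : ℕ, ∃ b : ℕ, 2 ≤ b ∧ K * Real.sqrt (Real.log b) < x b) (K : ℝ) :
    ∃ᶠ b : ℕ in atTop, K * Real.sqrt (Real.log b) < x b := by
  intro hcon
  obtain ⟨B, hB⟩ := eventually_atTop.1 hcon
  obtain ⟨M, hM⟩ : ∃ M : ℕ, ∀ b, b < B → |x b| * 2 ≤ M := by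
    obtain ⟨M, hM⟩ : ∃ M : ℕ, ∑ b ∈ Finset.range B, |x b| * 2 ≤ M := ⟨_, Nat.le_ceil _⟩
    refine ⟨M, fun b hb => le_trans ?_ hM⟩
    exact Finset.single_le_sum (f := fun b => |x b| * 2) (fun i _ => by positivity) (Finset.mem_range.2 hb)
  obtain ⟨K', hK'⟩ : ∃ K' : ℕ, max K M ≤ K' := ⟨_, Nat.le_ceil _⟩
  obtain ⟨b, hb, h1⟩ := h K'
  have h2 := sqrt_log_two hb
  by_cases hbB : b < B
  · have h3 := hM b hbB
    have h4 : (M : ℝ) ≤ K' := (le_max_right _ _).trans hK'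
    have h5 := le_abs_self (x b)
    have h6 := abs_nonneg (x b)
    nlinarith
  · have h3 := hB b (by omega)
    have h4 : K ≤ K' := (le_max_left _ _).trans hK'
    apply h3
    have : K * Real.sqrt (Real.log b) ≤ K' * Real.sqrt (Real.log b) :=
      mul_le_mul_of_nonneg_right h4 (Real.sqrt_nonneg _)
    linarith

end Pool.Agent.U403.SC
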